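import Pool.Agent.MJV.St
import Pool.Agent.MJL.Fin2
import Pool.Agent.MJL.SSm
import Pool.Agent.MJT.Star

/-!
(Bsx) Opening a cycle of the generating function of the power sums.
-/

namespace Pool.Agent.MJL

open MvPolynomial Pool.Agent.MJR Pool.Agent.MJX
open Pool.Agent.MJF (ic iR)

noncomputable section

namespace Vm

namespace BsxM

variable {K : Type} [Field K]

/-- multiplication by a constant -/
theorem C_mul_mon (f g : Lam K) (k : ℕ) :
    (Polynomial.C f : LW K) * Polynomial.monomial k g = Polynomial.monomial k (f * g) := by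
  rw [Polynomial.C_mul_monomial]

/-- the double sum -/
theorem swap {M : Type} [AddCommMonoid M] (n : ℕ) (f : ℕ → ℕ → M) :
    ∑ k ∈ Finset.Icc 1 n, ∑ j ∈ Finset.Icc 1 (n - k), f k j =
      ∑ j ∈ Finset.Icc 1 n, ∑ k ∈ Finset.Icc 1 (n - j), f k j := by
  refine Finset.sum_comm' ?_
  intro k j
  simp only [Finset.mem_Icc]
  constructor
  · rintro ⟨⟨h1, h2⟩, h3, h4⟩
    exact ⟨⟨h1, by omega⟩, h3, by omega⟩
  · rintro ⟨⟨h1, h2⟩, h3, h4⟩
    exact ⟨⟨h1, by omega⟩, h3, by omega⟩

theorem U_smul (al c : K) (f : Lam K) : U al (c • f) = c • U al f := (U al).map_smul c f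

theorem U_Gx [CharZero K] (al : K) (hal : al ≠ 0) (x : ℕ → K) (n : ℕ) :
    U al (Gx al x n) =
      ∑ k ∈ Finset.Icc 1 n, x k • (Polynomial.monomial k (Gx al x (n - k)) : LW K) := by
  induction n using Nat.strong_induction_on with
  | _ n ih =>
  rcases Nat.eq_zero_or_pos n with rfl | hn
  · rw [Fin2M.Gx_zero, U_one, Finset.Icc_eq_empty (by omega), Finset.sum_empty]
  have hne : al * (n : K) ≠ 0 := mul_ne_zero hal (by exact_mod_cast hn.ne')
  have hr := Fin2M.Gx_rec (sSm K) (sSX K) hal x
  have h1 : (al * (n : K)) • U al (Gx al x n) = (al * (n : K)) •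
      ∑ k ∈ Finset.Icc 1 n, x k • (Polynomial.monomial k (Gx al x (n - k)) : LW K) := by
    rw [← U_smul, hr n, map_sum]
    have h2 : ∀ k ∈ Finset.Icc 1 n, U al (x k • (X k * Gx al x (n - k))) =
        (x k * (al * k)) • (Polynomial.monomial k (Gx al x (n - k)) : LW K) +
          ∑ j ∈ Finset.Icc 1 (n - k), x j •
            (Polynomial.monomial j (x k • (X k * Gx al x (n - j - k))) : LW K) := by
      intro k hk
      rw [Finset.mem_Icc] at hk
      rw [U_smul, U_mul, U_X, ih (n - k) (by omega), smul_add, add_comm]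
      congr 1
      · rw [mul_smul]
        congr 1
        rw [C_mul_mon, Polynomial.smul_monomial, smul_eq_C_mul, mul_comm]
      · rw [Finset.mul_sum, Finset.smul_sum]
        refine Finset.sum_congr rfl fun j _ => ?_
        rw [mul_smul_comm, smul_comm, C_mul_mon, Polynomial.smul_monomial, Nat.sub_right_comm]
    rw [Finset.sum_congr rfl h2, Finset.sum_add_distrib, swap n fun k j => x j •
      (Polynomial.monomial j (x k • (X k * Gx al x (n - j - k))) : LW K), Finset.smul_sum,
      ← Finset.sum_add_distrib]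
    refine Finset.sum_congr rfl fun j hj => ?_
    rw [Finset.mem_Icc] at hj
    rw [← Finset.smul_sum, ← map_sum, ← hr (n - j), ← Polynomial.smul_monomial, smul_smul,
      ← add_smul, smul_smul, Nat.cast_sub hj.2]
    congr 1
    ring
  exact smul_right_injective _ hne h1

end BsxM

theorem bsx (K : Type) [Field K] [CharZero K] : BsxSt K := by
  intro al hal x n
  rw [MJT.Bs_apply, BsxM.U_Gx al hal x n]
  apply Polynomial.ext
  intro j
  rw [Polynomial.coeff_divX, Polynomial.finsetSum_coeff, Polynomial.finsetSum_coeff]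
  refine Finset.sum_congr rfl fun k hk => ?_
  rw [Finset.mem_Icc] at hk
  rw [Polynomial.coeff_smul, Polynomial.coeff_smul, Polynomial.coeff_monomial,
    Polynomial.coeff_monomial]
  congr 1
  by_cases h : k = j + 1
  · rw [if_pos h, if_pos (by omega)]
  · rw [if_neg h, if_neg (by omega)]

end Vm

end

end Pool.Agent.MJL
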