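import Pool.Agent.MJV.St

/-!
(Cmb) The coefficients of the explicit polynomials.
-/

namespace Pool.Agent.MJL

open MvPolynomial Pool.Agent.MJR Pool.Agent.MJX
open Pool.Agent.MJF (ic iR)

noncomputable section

namespace Vm

variable {K : Type} [Field K]

theorem cmb_e3_le (a b c l i j : ℕ) : e3 a b c ≤ e3 l i j ↔ a ≤ l ∧ b ≤ i ∧ c ≤ j := by
  constructor
  · intro h
    refine ⟨?_, ?_, ?_⟩
    · simpa [e3, Finsupp.single_apply] using h 0
    · simpa [e3, Finsupp.single_apply] using h 1
    · simpa [e3, Finsupp.single_apply] using h 2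
  · rintro ⟨h0, h1, h2⟩ x
    fin_cases x
    · simpa [e3, Finsupp.single_apply] using h0
    · simpa [e3, Finsupp.single_apply] using h1
    · simpa [e3, Finsupp.single_apply] using h2

theorem cmb_e3_sub (a b c l i j : ℕ) : e3 l i j - e3 a b c = e3 (l - a) (i - b) (j - c) := by
  ext x
  fin_cases x <;> simp [e3, Finsupp.single_apply]

theorem cmb_mon (a b c : ℕ) : (X 0 ^ a * X 1 ^ b * X 2 ^ c : MvPolynomial (Fin 3) K) =
    monomial (e3 a b c) 1 := by
  rw [X_pow_eq_monomial, X_pow_eq_monomial, X_pow_eq_monomial, monomial_mul, monomial_mul,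
    one_mul, one_mul]
  rfl

theorem cmb_co (a b c l i j : ℕ) (f : MvPolynomial (Fin 3) K) :
    coeff (e3 l i j) (X 0 ^ a * X 1 ^ b * X 2 ^ c * f) =
      if a ≤ l ∧ b ≤ i ∧ c ≤ j then coeff (e3 (l - a) (i - b) (j - c)) f else 0 := by
  rw [cmb_mon, coeff_monomial_mul', cmb_e3_sub, one_mul]
  simp only [cmb_e3_le]

theorem cmb_rec (l i j k : ℕ) (σ : Multiset ℕ) : coeff (e3 l i j) (mp K (k ::ₘ σ)) =
    (if 1 ≤ l then coeff (e3 (l - 1) i j) (mp K σ) else 0) +
      (if 1 ≤ i ∧ k ≤ j then coeff (e3 l (i - 1) (j - k)) (mp K σ) else 0) := by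
  have h : mp K (k ::ₘ σ) = X 0 ^ 1 * X 1 ^ 0 * X 2 ^ 0 * mp K σ +
      X 0 ^ 0 * X 1 ^ 1 * X 2 ^ k * mp K σ := by
    unfold mp
    rw [Multiset.map_cons, Multiset.prod_cons]
    ring
  rw [h, coeff_add, cmb_co, cmb_co]
  simp

theorem cmb_nil (l i j : ℕ) : coeff (e3 l i j) (mp K 0) =
    if l = 0 ∧ i = 0 ∧ j = 0 then 1 else 0 := by
  have h : mp K 0 = X 0 ^ 0 * X 1 ^ 0 * X 2 ^ 0 * 1 := by
    simp [mp]
  have h1 : (1 : MvPolynomial (Fin 3) K) = monomial (e3 0 0 0) 1 := by
    simp [e3]
  have h2 : mp K 0 = monomial (e3 0 0 0) 1 := by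
    rw [← h1]
    simp [mp]
  rw [h2, coeff_monomial]
  have h3 : e3 0 0 0 = e3 l i j ↔ l = 0 ∧ i = 0 ∧ j = 0 := by
    constructor
    · intro h4
      have h5 := ((cmb_e3_le l i j 0 0 0).1 h4.symm.le)
      omega
    · rintro ⟨rfl, rfl, rfl⟩
      rfl
  simp only [h3]

theorem cmb_all (σ : Multiset ℕ) : 0 ∉ σ → (∀ l, coeff (e3 l 0 0) (mp K σ) =
      if σ.card = l then 1 else 0) ∧
    (∀ l, coeff (e3 l 1 1) (mp K σ) = if σ.card = l + 1 then (σ.count 1 : K) else 0) ∧
    (∀ l, coeff (e3 l 1 2) (mp K σ) = if σ.card = l + 1 then (σ.count 2 : K) else 0) ∧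
    (∀ l, coeff (e3 l 2 2) (mp K σ) =
      if σ.card = l + 2 then ((σ.count 1).choose 2 : K) else 0) ∧
    (∀ l i j, j ≤ 2 → ¬ Pr i j → coeff (e3 l i j) (mp K σ) = 0) := by
  induction σ using Multiset.induction_on with
  | empty =>
    intro _
    refine ⟨fun l => ?_, fun l => ?_, fun l => ?_, fun l => ?_, fun l i j _ hp => ?_⟩
    · rw [cmb_nil, Multiset.card_zero]
      by_cases h : l = 0
      · subst h
        simp
      · rw [if_neg (by omega), if_neg (by omega)]
    · rw [cmb_nil, if_neg (by omega), Multiset.card_zero, if_neg (by omega)]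
    · rw [cmb_nil, if_neg (by omega), Multiset.card_zero, if_neg (by omega)]
    · rw [cmb_nil, if_neg (by omega), Multiset.card_zero, if_neg (by omega)]
    · rw [cmb_nil, if_neg]
      rintro ⟨_, h1, h2⟩
      exact hp (Or.inl ⟨h1, h2⟩)
  | cons k σ ih =>
    intro h0
    have hk : k ≠ 0 := fun h => h0 (by rw [h]; exact Multiset.mem_cons_self _ _)
    obtain ⟨i1, i2, i3, i4, i5⟩ := ih (fun h => h0 (Multiset.mem_cons_of_mem h))
    refine ⟨fun l => ?_, fun l => ?_, fun l => ?_, fun l => ?_, fun l i j hj hp => ?_⟩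
    · rw [cmb_rec, i1, if_neg (show ¬ (1 ≤ 0 ∧ k ≤ 0) by omega), add_zero, Multiset.card_cons]
      by_cases hl : 1 ≤ l
      · rw [if_pos hl]
        by_cases hc : σ.card = l - 1
        · rw [if_pos hc, if_pos (by omega)]
        · rw [if_neg hc, if_neg (by omega)]
      · rw [if_neg hl, if_neg (by omega)]
    · rw [cmb_rec, i2, Multiset.card_cons]
      have hcnt : σ.count 1 ≤ σ.card := Multiset.count_le_card _ _
      have hA : (if 1 ≤ l then if σ.card = l - 1 + 1 then (σ.count 1 : K) else 0 else 0) =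
          if σ.card = l then (σ.count 1 : K) else 0 := by
        by_cases hl : 1 ≤ l
        · rw [if_pos hl, Nat.sub_add_cancel hl]
        · rw [if_neg hl]
          by_cases hc : σ.card = l
          · rw [if_pos hc]
            have : σ.count 1 = 0 := by omega
            rw [this, Nat.cast_zero]
          · rw [if_neg hc]
      have hB : (if 1 ≤ 1 ∧ k ≤ 1 then coeff (e3 l (1 - 1) (1 - k)) (mp K σ) else 0) =
          if k = 1 then (if σ.card = l then 1 else 0) else 0 := by
        by_cases hk1 : k = 1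
        · subst hk1
          rw [if_pos (show 1 ≤ 1 ∧ 1 ≤ 1 from ⟨le_rfl, le_rfl⟩), if_pos rfl]
          exact i1 l
        · rw [if_neg (show ¬ (1 ≤ 1 ∧ k ≤ 1) by omega), if_neg hk1]
      rw [hA, hB]
      by_cases hc : σ.card = l
      · rw [if_pos hc, if_pos hc, if_pos (show σ.card + 1 = l + 1 by omega)]
        by_cases hk1 : k = 1
        · rw [if_pos hk1, hk1, Multiset.count_cons_self]
          push_cast
          rfl
        · rw [if_neg hk1, Multiset.count_cons_of_ne (Ne.symm hk1), add_zero]
      · rw [if_neg hc, if_neg hc, if_neg (show ¬ (σ.card + 1 = l + 1) by omega), ite_self,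
          add_zero]
    · rw [cmb_rec, i3, Multiset.card_cons]
      have hcnt : σ.count 2 ≤ σ.card := Multiset.count_le_card _ _
      have hA : (if 1 ≤ l then if σ.card = l - 1 + 1 then (σ.count 2 : K) else 0 else 0) =
          if σ.card = l then (σ.count 2 : K) else 0 := by
        by_cases hl : 1 ≤ l
        · rw [if_pos hl, Nat.sub_add_cancel hl]
        · rw [if_neg hl]
          by_cases hc : σ.card = l
          · rw [if_pos hc]
            have : σ.count 2 = 0 := by omega
            rw [this, Nat.cast_zero]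
          · rw [if_neg hc]
      have hB : (if 1 ≤ 1 ∧ k ≤ 2 then coeff (e3 l (1 - 1) (2 - k)) (mp K σ) else 0) =
          if k = 2 then (if σ.card = l then 1 else 0) else 0 := by
        by_cases hk2 : k = 2
        · subst hk2
          rw [if_pos (show 1 ≤ 1 ∧ 2 ≤ 2 from ⟨le_rfl, le_rfl⟩), if_pos rfl]
          exact i1 l
        · rw [if_neg hk2]
          by_cases hk1 : k = 1
          · subst hk1
            rw [if_pos (show 1 ≤ 1 ∧ 1 ≤ 2 by omega)]
            exact i5 l 0 1 (by omega) (by unfold Pr; omega)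
          · rw [if_neg (show ¬ (1 ≤ 1 ∧ k ≤ 2) by omega)]
      rw [hA, hB]
      by_cases hc : σ.card = l
      · rw [if_pos hc, if_pos hc, if_pos (show σ.card + 1 = l + 1 by omega)]
        by_cases hk2 : k = 2
        · rw [if_pos hk2, hk2, Multiset.count_cons_self]
          push_cast
          rfl
        · rw [if_neg hk2, Multiset.count_cons_of_ne (Ne.symm hk2), add_zero]
      · rw [if_neg hc, if_neg hc, if_neg (show ¬ (σ.card + 1 = l + 1) by omega), ite_self,
          add_zero]
    · rw [cmb_rec, i4, Multiset.card_cons]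
      have hcnt : σ.count 1 ≤ σ.card := Multiset.count_le_card _ _
      have hA : (if 1 ≤ l then if σ.card = l - 1 + 2 then ((σ.count 1).choose 2 : K) else 0
          else 0) = if σ.card = l + 1 then ((σ.count 1).choose 2 : K) else 0 := by
        by_cases hl : 1 ≤ l
        · rw [if_pos hl]
          by_cases hc : σ.card = l + 1
          · rw [if_pos (by omega), if_pos hc]
          · rw [if_neg (by omega), if_neg hc]
        · rw [if_neg hl]
          by_cases hc : σ.card = l + 1
          · rw [if_pos hc, Nat.choose_eq_zero_of_lt (by omega), Nat.cast_zero]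
          · rw [if_neg hc]
      have hB : (if 1 ≤ 2 ∧ k ≤ 2 then coeff (e3 l (2 - 1) (2 - k)) (mp K σ) else 0) =
          if k = 1 then (if σ.card = l + 1 then (σ.count 1 : K) else 0) else 0 := by
        by_cases hk1 : k = 1
        · subst hk1
          rw [if_pos (show 1 ≤ 2 ∧ 1 ≤ 2 by omega), if_pos rfl]
          exact i2 l
        · rw [if_neg hk1]
          by_cases hk2 : k = 2
          · subst hk2
            rw [if_pos (show 1 ≤ 2 ∧ 2 ≤ 2 by omega)]
            exact i5 l 1 0 (by omega) (by unfold Pr; omega)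
          · rw [if_neg (show ¬ (1 ≤ 2 ∧ k ≤ 2) by omega)]
      rw [hA, hB]
      by_cases hc : σ.card = l + 1
      · rw [if_pos hc, if_pos hc, if_pos (show σ.card + 1 = l + 2 by omega)]
        by_cases hk1 : k = 1
        · rw [if_pos hk1, hk1, Multiset.count_cons_self, Nat.choose_succ_succ' _ 1,
            Nat.choose_one_right]
          push_cast
          ring
        · rw [if_neg hk1, Multiset.count_cons_of_ne (Ne.symm hk1), add_zero]
      · rw [if_neg hc, if_neg hc, if_neg (show ¬ (σ.card + 1 = l + 2) by omega), ite_self,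
          add_zero]
    · rw [cmb_rec]
      have hA : (if 1 ≤ l then coeff (e3 (l - 1) i j) (mp K σ) else 0) = 0 := by
        split_ifs
        · exact i5 _ _ _ hj hp
        · rfl
      have hB : (if 1 ≤ i ∧ k ≤ j then coeff (e3 l (i - 1) (j - k)) (mp K σ) else 0) = 0 := by
        split_ifs with h
        · apply i5 _ _ _ (by omega)
          intro h2
          apply hp
          unfold Pr at h2 ⊢
          omega
        · rfl
      rw [hA, hB, add_zero]

theorem cmb_d1 (l i j : ℕ) (σ : Multiset ℕ) : coeff (e3 l i j) (dp (D1 K) σ) =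
    (σ.count 1 : K) * coeff (e3 l i j) (mp K (σ.erase 1)) := by
  have h : dp (D1 K) σ = C (σ.count 1 : K) * mp K (σ.erase 1) := by
    unfold dp
    by_cases h1 : 1 ∈ σ
    · rw [Finset.sum_eq_single 1]
      · simp [D1]
      · intro k _ hk
        simp [D1, hk]
      · intro h2
        exact absurd (Multiset.mem_toFinset.2 h1) h2
    · rw [Multiset.count_eq_zero_of_notMem h1, Nat.cast_zero, C_0, zero_mul]
      apply Finset.sum_eq_zero
      intro k hk
      have hk1 : k ≠ 1 := by
        rintro rfl
        exact h1 (Multiset.mem_toFinset.1 hk)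
      simp [D1, hk1]
  rw [h, coeff_C_mul]

theorem cmb_d2 (l i j : ℕ) (σ : Multiset ℕ) : coeff (e3 l i j) (dp (D2 K) σ) =
    ∑ k ∈ σ.toFinset, if 2 ≤ k ∧ 1 ≤ i ∧ k - 1 ≤ j then
      (σ.count k : K) * ((k : K) * coeff (e3 l (i - 1) (j - (k - 1))) (mp K (σ.erase k)))
      else 0 := by
  unfold dp
  rw [coeff_sum]
  apply Finset.sum_congr rfl
  intro k _
  by_cases hk : 2 ≤ k
  · have h : ((σ.count k : MvPolynomial (Fin 3) K) * (D2 K k * mp K (σ.erase k))) =
        C ((σ.count k : K) * (k : K)) * (X 0 ^ 0 * X 1 ^ 1 * X 2 ^ (k - 1) *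
          mp K (σ.erase k)) := by
      unfold D2
      rw [if_pos hk, C_mul, map_natCast, map_natCast]
      ring
    rw [h, coeff_C_mul, cmb_co]
    by_cases h2 : 1 ≤ i ∧ k - 1 ≤ j
    · rw [if_pos (by omega), if_pos (by omega), Nat.sub_zero, mul_assoc]
    · rw [if_neg (by omega), if_neg (by omega), mul_zero]
  · have h : D2 K k = 0 := by
      unfold D2
      rw [if_neg hk]
    rw [h, zero_mul, mul_zero, coeff_zero, if_neg (by omega)]

theorem cmb_eval (u v s : K) (σ : Multiset ℕ) : eval ![u, v, s] (mp K σ) =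
    (σ.map fun k => u + v * s ^ k).prod := by
  unfold mp
  rw [map_multiset_prod, Multiset.map_map]
  congr 1
  apply Multiset.map_congr rfl
  intro k _
  simp

theorem cmb (K : Type) [Field K] : CmbSt K where
  ev1 := by
    intro u v s σ
    unfold dp dm
    rw [map_sum]
    apply Finset.sum_congr rfl
    intro k _
    rw [map_mul, map_mul, cmb_eval, map_natCast]
    congr 2
    unfold D1 d1
    split_ifs <;> simp
  ev2 := by
    intro u v s σ
    unfold dp dm
    rw [map_sum]
    apply Finset.sum_congr rfl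
    intro k _
    rw [map_mul, map_mul, cmb_eval, map_natCast]
    congr 2
    unfold D2 d2
    split_ifs <;> simp
  z1 := by
    intro σ h0 l i j hj hp
    have h := (cmb_all (K := K) (σ.erase 1) (fun h => h0 (Multiset.mem_of_mem_erase h)))
    rw [cmb_d1, h.2.2.2.2 l i j hj hp, mul_zero]
  z2 := by
    intro σ h0 l i j hj hp
    rw [cmb_d2]
    apply Finset.sum_eq_zero
    intro k _
    split_ifs with h1
    · have h := (cmb_all (K := K) (σ.erase k) (fun h => h0 (Multiset.mem_of_mem_erase h)))
      rw [h.2.2.2.2 l (i - 1) (j - (k - 1)) (by omega), mul_zero, mul_zero]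
      intro h2
      apply hp
      unfold Pr at h2 ⊢
      omega
    · rfl
  c1 := by
    intro σ h0 l
    have h := (cmb_all (K := K) (σ.erase 1) (fun h => h0 (Multiset.mem_of_mem_erase h)))
    rw [cmb_d1, h.1 l]
    by_cases h1 : 1 ∈ σ
    · have hc := Multiset.card_erase_add_one h1
      by_cases h2 : σ.card = l + 1
      · rw [if_pos (by omega), if_pos h2, mul_one]
      · rw [if_neg (by omega), if_neg h2, mul_zero]
    · rw [Multiset.count_eq_zero_of_notMem h1, Nat.cast_zero, zero_mul, ite_self]
  c11 := by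
    intro σ h0 l
    have h := (cmb_all (K := K) (σ.erase 1) (fun h => h0 (Multiset.mem_of_mem_erase h)))
    rw [cmb_d1, h.2.1 l]
    by_cases h1 : 1 ∈ σ
    · have hc := Multiset.card_erase_add_one h1
      by_cases h2 : σ.card = l + 2
      · rw [if_pos (by omega), if_pos h2, Multiset.count_erase_self]
        obtain ⟨c, hcc⟩ : ∃ c, σ.count 1 = c + 1 :=
          ⟨σ.count 1 - 1, by have := Multiset.count_pos.2 h1; omega⟩
        rw [hcc, Nat.add_sub_cancel]
        have h3 := Nat.add_one_mul_choose_eq c 1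
        rw [Nat.choose_one_right] at h3
        have h4 : (((c + 1) * c : ℕ) : K) = (((c + 1).choose 2 * 2 : ℕ) : K) := by
          exact congrArg _ h3
        push_cast at h4 ⊢
        rw [h4]
        ring
      · rw [if_neg (by omega), if_neg h2, mul_zero]
    · rw [Multiset.count_eq_zero_of_notMem h1, Nat.cast_zero, zero_mul]
      simp
  c12 := by
    intro σ h0 l
    have h := (cmb_all (K := K) (σ.erase 1) (fun h => h0 (Multiset.mem_of_mem_erase h)))
    rw [cmb_d1, h.2.2.1 l]
    by_cases h1 : 1 ∈ σ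
    · have hc := Multiset.card_erase_add_one h1
      by_cases h2 : σ.card = l + 2
      · rw [if_pos (by omega), if_pos h2, Multiset.count_erase_of_ne (by norm_num)]
      · rw [if_neg (by omega), if_neg h2, mul_zero]
    · rw [Multiset.count_eq_zero_of_notMem h1, Nat.cast_zero, zero_mul, zero_mul, ite_self]
  c111 := by
    intro σ h0 l
    have h := (cmb_all (K := K) (σ.erase 1) (fun h => h0 (Multiset.mem_of_mem_erase h)))
    rw [cmb_d1, h.2.2.2.1 l]
    by_cases h1 : 1 ∈ σ
    · have hc := Multiset.card_erase_add_one h1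
      by_cases h2 : σ.card = l + 3
      · rw [if_pos (by omega), if_pos h2, Multiset.count_erase_self]
        obtain ⟨c, hcc⟩ : ∃ c, σ.count 1 = c + 1 :=
          ⟨σ.count 1 - 1, by have := Multiset.count_pos.2 h1; omega⟩
        rw [hcc, Nat.add_sub_cancel]
        have h3 := Nat.add_one_mul_choose_eq c 2
        have h4 : (((c + 1) * c.choose 2 : ℕ) : K) = (((c + 1).choose 3 * 3 : ℕ) : K) := by
          exact congrArg _ h3
        push_cast at h4 ⊢
        rw [h4]
        ring
      · rw [if_neg (by omega), if_neg h2, mul_zero]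
    · rw [Multiset.count_eq_zero_of_notMem h1, Nat.cast_zero, zero_mul]
      simp
  c2 := by
    intro σ h0 l
    rw [cmb_d2]
    have h : ∀ k ∈ σ.toFinset, (if 2 ≤ k ∧ 1 ≤ 1 ∧ k - 1 ≤ 1 then
        (σ.count k : K) * ((k : K) * coeff (e3 l (1 - 1) (1 - (k - 1))) (mp K (σ.erase k)))
        else 0) = if k = 2 then (if σ.card = l + 1 then 2 * (σ.count 2 : K) else 0) else 0 := by
      intro k hk
      by_cases h2 : k = 2
      · subst h2
        have hm : 2 ∈ σ := Multiset.mem_toFinset.1 hk
        have hc := Multiset.card_erase_add_one hm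
        have h := (cmb_all (K := K) (σ.erase 2) (fun h => h0 (Multiset.mem_of_mem_erase h)))
        rw [if_pos (by omega), if_pos rfl, h.1 l]
        by_cases h3 : σ.card = l + 1
        · rw [if_pos (by omega), if_pos h3]
          push_cast
          ring
        · rw [if_neg (by omega), if_neg h3]
          ring
      · rw [if_neg (by omega), if_neg h2]
    rw [Finset.sum_congr rfl h, Finset.sum_ite_eq' σ.toFinset 2]
    by_cases h2 : 2 ∈ σ.toFinset
    · rw [if_pos h2]
    · rw [if_neg h2]
      have h3 : σ.count 2 = 0 :=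
        Multiset.count_eq_zero_of_notMem (fun h4 => h2 (Multiset.mem_toFinset.2 h4))
      rw [h3]
      simp
  c3 := by
    intro σ h0 l
    rw [cmb_d2]
    have h : ∀ k ∈ σ.toFinset, (if 2 ≤ k ∧ 1 ≤ 1 ∧ k - 1 ≤ 2 then
        (σ.count k : K) * ((k : K) * coeff (e3 l (1 - 1) (2 - (k - 1))) (mp K (σ.erase k)))
        else 0) = if k = 3 then (if σ.card = l + 1 then 3 * (σ.count 3 : K) else 0) else 0 := by
      intro k hk
      have hm : k ∈ σ := Multiset.mem_toFinset.1 hk
      have hc := Multiset.card_erase_add_one hm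
      have h := (cmb_all (K := K) (σ.erase k) (fun h => h0 (Multiset.mem_of_mem_erase h)))
      by_cases h2 : k = 3
      · subst h2
        rw [if_pos (by omega), if_pos rfl, h.1 l]
        by_cases h3 : σ.card = l + 1
        · rw [if_pos (by omega), if_pos h3]
          push_cast
          ring
        · rw [if_neg (by omega), if_neg h3]
          ring
      · rw [if_neg h2]
        by_cases h4 : k = 2
        · subst h4
          rw [if_pos (by omega)]
          rw [h.2.2.2.2 l (1 - 1) (2 - (2 - 1)) (by omega) (by unfold Pr; omega), mul_zero,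
            mul_zero]
        · rw [if_neg (by omega)]
    rw [Finset.sum_congr rfl h, Finset.sum_ite_eq' σ.toFinset 3]
    by_cases h2 : 3 ∈ σ.toFinset
    · rw [if_pos h2]
    · rw [if_neg h2]
      have h3 : σ.count 3 = 0 :=
        Multiset.count_eq_zero_of_notMem (fun h4 => h2 (Multiset.mem_toFinset.2 h4))
      rw [h3]
      simp

end Vm

end

end Pool.Agent.MJL
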