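import Pool.Agent.MJL.Fin5
import Pool.Agent.MJT.RhoHat

/-!
Definitions for the sums of the coefficients `h` over the partitions of given length with
marked parts of total size at most three (log version of `MJT.rho_sum`).

Two colours.  The insertion `Av u w s` has separate weights: `u` for a new part of the colour
`false`, `w` for a new part of the colour `true`, `s` for a touch of the colour `true`; for
`w = s * v` it is the insertion `Aw` with the weights `uB u v` and `uB 1 s`.
-/

namespace Pool.Agent.MJL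

open MvPolynomial Pool.Agent.MJR Pool.Agent.MJX
open Pool.Agent.MJF (ic iR)

noncomputable section

namespace Vm

variable {K : Type} [Field K]

/-! ### Words -/

/-- Closing the root word with one more letter, colours forgotten: `f L ↦ fgt f * X (|L|+1)`. -/
def cg (K : Type) [Field K] : RW K Bool →ₗ[K] Lam K :=
  Finsupp.lsum K fun L =>
    LinearMap.mulLeft K (X (L.length + 1) : Lam K) ∘ₗ (fgt K Bool).toLinearMap

/-- The touches of the letters `t`, unoriented openings. -/
def Th (al : K) (t : Bool) : RW K Bool →ₗ[K] RW K Bool := T (al - 1) (al / 2) (al / 2) t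

/-- The insertion with separate weights. -/
def Av (al u w s : K) : RW K Bool →ₗ[K] RW K Bool :=
  (pre [false] : RW K Bool →ₗ[CW K Bool] RW K Bool).restrictScalars K ∘ₗ
    (u • LinearMap.id + Th al false) +
  (pre [true] : RW K Bool →ₗ[CW K Bool] RW K Bool).restrictScalars K ∘ₗ
    (w • LinearMap.id + s • Th al true)

/-- The process for a list of parts (the head is inserted last). -/
def Kv (al u w s : K) : List ℕ → CW K Bool
  | [] => 1
  | (k :: p) => clw K ((Av al u w s ^ k) (iw K (Kv al u w s p)))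

/-- The levels of the series of the process. -/
def pv (al u w s : K) (x : ℕ → K) (n : ℕ) : CW K Bool := SS al x n (Kv al u w s)

/-- The levels of the series of the process with a root: the last letter is missing. -/
def rv (al u w s : K) (x : ℕ → K) (n : ℕ) : RW K Bool :=
  ∑ k ∈ Finset.Icc 1 n, x k • (Av al u w s ^ (k - 1)) (iw K (pv al u w s x (n - k)))

/-! ### The arc model -/

/-- `IsK`, and the forgetful image commutes with the full Lax operator. -/
structure IsKc {K : Type} [Field K] (al tau u2 kap u s : K) (Kc : Lam K →ₗ[K] CM K) : Prop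
    extends IsK al tau u2 kap u s Kc where
  comm : ∀ G : LW K,
    MJT.WordM.fgR K (iR tau (MJT.AbsM.Kh (Aop al kap u (s * u2)) (iA kap) Kc (MJT.Zf al G))) =
    MJT.Zf al (MJT.WordM.fgR K (iR tau (MJT.AbsM.Kh (Aop al kap u (s * u2)) (iA kap) Kc G)))

/-- The root words of the arc model. -/
def Pa (al tau u2 kap u s : K) (Kc : Lam K →ₗ[K] CM K) : LW K →ₗ[K] MJF.RW K :=
  iR (kap := kap) tau ∘ₗ MJT.AbsM.Kh (Aop al kap u (s * u2)) (iA kap) Kc

/-- A cycle is opened, its first letter is removed, the rest is inserted, the first letter is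
put back as a new part. -/
def O1 (al tau u2 kap u s : K) (Kc : Lam K →ₗ[K] CM K) : Lam K →ₗ[K] Lam K :=
  MJT.Bx K ∘ₗ MJT.WordM.fgR K ∘ₗ Pa al tau u2 kap u s Kc ∘ₗ MJT.Bs al

/-- The same with a touch of the colour `true` for the first letter. -/
def O2 (al tau u2 kap u s : K) (Kc : Lam K →ₗ[K] CM K) : Lam K →ₗ[K] Lam K :=
  MJT.Bx K ∘ₗ MJT.WordM.fgR K ∘ₗ MJF.T al true ∘ₗ Pa al tau u2 kap u s Kc ∘ₗ MJT.Bs al

/-- The levels of the series of the arc process with a root. -/
def Ra (al tau u2 u s : K) (Kc : Lam K →ₗ[K] CM K) (x : ℕ → K) (n : ℕ) : MJF.RW K :=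
  ∑ k ∈ Finset.Icc 1 n, x k •
    (MJF.Aw al u u2 s ^ (k - 1)) (MJF.iw K (ic tau (Kc (Gx al x (n - k)))))

/-! ### Derivatives in the third alphabet -/

/-- The derivation `X (2, k) ↦ δ k`, `X (0, k), X (1, k) ↦ 0`. -/
def Dd (δ : ℕ → K) : Derivation K (B3 K) (B3 K) :=
  mkDerivation K fun a => if a.1 = 2 then C (δ a.2) else 0

/-- `δ = (1, 0, 0, ..)` -/
def d1 (K : Type) [Field K] (k : ℕ) : K := if k = 1 then 1 else 0

/-- `δ = (0, 2 v s, 3 v s ^ 2, ..)` -/
def d2 (v s : K) (k : ℕ) : K := if 2 ≤ k then (k : K) * (v * s ^ (k - 1)) else 0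

/-- The value of the derivative of the product of the parts. -/
def dm (δ q : ℕ → K) (σ : Multiset ℕ) : K :=
  ∑ k ∈ σ.toFinset, (σ.count k : K) * (δ k * ((σ.erase k).map q).prod)

/-! ### Polynomials in `u = X 0`, `v = X 1`, `s = X 2` -/

/-- the exponent `u ^ l v ^ i s ^ j` -/
def e3 (l i j : ℕ) : Fin 3 →₀ ℕ := Finsupp.single 0 l + Finsupp.single 1 i + Finsupp.single 2 j

/-- `∏ (u + v s ^ k)` -/
def mp (K : Type) [Field K] (σ : Multiset ℕ) : MvPolynomial (Fin 3) K :=
  (σ.map fun k => (X 0 + X 1 * X 2 ^ k : MvPolynomial (Fin 3) K)).prod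

/-- the derivative of the product -/
def dp (δ : ℕ → MvPolynomial (Fin 3) K) (σ : Multiset ℕ) : MvPolynomial (Fin 3) K :=
  ∑ k ∈ σ.toFinset, (σ.count k : MvPolynomial (Fin 3) K) * (δ k * mp K (σ.erase k))

/-- `d1` as a polynomial -/
def D1 (K : Type) [Field K] (k : ℕ) : MvPolynomial (Fin 3) K := if k = 1 then 1 else 0

/-- `d2` as a polynomial -/
def D2 (K : Type) [Field K] (k : ℕ) : MvPolynomial (Fin 3) K :=
  if 2 ≤ k then (k : MvPolynomial (Fin 3) K) * (X 1 * X 2 ^ (k - 1)) else 0

/-- the pairs `(i, j)` with `j ≤ 2` which occur -/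
def Pr (i j : ℕ) : Prop := (i = 0 ∧ j = 0) ∨ (i = 1 ∧ j = 1) ∨ (i = 1 ∧ j = 2) ∨ (i = 2 ∧ j = 2)

end Vm

end

end Pool.Agent.MJL
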