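import Pool.Agent.MJV.St
import Pool.Agent.MJT.RhoEnd

/-!
(Ex) Existence of the process of the arc model, with the commutation of the full Lax operator.
-/

namespace Pool.Agent.MJL

open MvPolynomial Pool.Agent.MJR Pool.Agent.MJX
open Pool.Agent.MJF (ic iR)

noncomputable section

namespace Vm

private theorem ex_main {tau u2 kap : QA} (h1 : tau = u2 + (RatFunc.X - 1))
    (h2 : tau * u2 = RatFunc.X) (h3 : u2 * kap = 1) (ht : tau = RatFunc.X * kap) (u s : QA) :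
    ∃ Kc : Lam QA →ₗ[QA] CM QA, IsKc RatFunc.X tau u2 kap u s Kc := by
  have hX : (RatFunc.X : QA) ≠ 0 := RatFunc.X_ne_zero
  have hq : tau ^ 2 = (RatFunc.X - 1) * tau + RatFunc.X := by
    have e : (RatFunc.X : QA) - 1 = tau - u2 := by rw [h1]; ring
    rw [e, sub_mul, ← h2]
    ring
  have hk : RatFunc.X * kap ^ 2 = (RatFunc.X - 1) * kap + 1 := by
    have e : (RatFunc.X : QA) - 1 = tau - u2 := by rw [h1]; ring
    rw [e, sub_mul, h3, ht]
    ring
  have hh := MJT.WordM.hat hk h1 h2 h3 ht hq (MJT.touch kap tau u2 h1 h2 h3 ht hq)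
  obtain ⟨Kc, hone, hK, hZ, -, hG⟩ := arcMain hX hk hh u (s * u2)
  exact ⟨Kc, ⟨⟨hX, h1, h2, h3, ht, hq, hone, hK, hZ⟩, hG⟩⟩

/-- (Ex) -/
theorem ex : ExSt := by
  intro v u s hv
  rcases hv with rfl | rfl
  · obtain ⟨Kc, h⟩ := ex_main (tau := RatFunc.X) (u2 := 1) (kap := 1) (by ring)
      (by ring) (by ring) (by ring) u s
    exact ⟨_, _, Kc, h⟩
  · have hX : (RatFunc.X : QA) ≠ 0 := RatFunc.X_ne_zero
    obtain ⟨Kc, h⟩ := ex_main (tau := -1) (u2 := -RatFunc.X)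
      (kap := -(RatFunc.X)⁻¹) (by ring) (by ring) (by field_simp) (by field_simp) u s
    exact ⟨_, _, Kc, h⟩

end Vm

end

end Pool.Agent.MJL
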