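import Pool.Agent.MJV.St

/-!
Extraction of the coefficients `u ^ l v ^ i s ^ j`, `j ≤ 2`, for `w = s v`.
-/

namespace Pool.Agent.MJL

open MvPolynomial Pool.Agent.MJR Pool.Agent.MJX
open Pool.Agent.MJF (ic iR)

noncomputable section

namespace Vm

namespace ExtVx

variable {K : Type} [Field K]

/-- the exponent with the two parts -/
def ab (a : ℕ →₀ ℕ) (b : Fin 3 →₀ ℕ) : (ℕ ⊕ Fin 3) →₀ ℕ :=
  a.mapDomain Sum.inl + b.mapDomain Sum.inr

lemma ab_inl (a : ℕ →₀ ℕ) (b : Fin 3 →₀ ℕ) (k : ℕ) : ab a b (Sum.inl k) = a k := by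
  unfold ab
  rw [Finsupp.add_apply, Finsupp.mapDomain_apply Sum.inl_injective,
    Finsupp.mapDomain_of_notMem_range, add_zero]
  rintro ⟨x, hx⟩
  exact absurd hx (by simp)

lemma ab_inr (a : ℕ →₀ ℕ) (b : Fin 3 →₀ ℕ) (k : Fin 3) : ab a b (Sum.inr k) = b k := by
  unfold ab
  rw [Finsupp.add_apply, Finsupp.mapDomain_apply Sum.inr_injective,
    Finsupp.mapDomain_of_notMem_range, zero_add]
  rintro ⟨x, hx⟩
  exact absurd hx (by simp)

lemma ab_inj (a a' : ℕ →₀ ℕ) (b b' : Fin 3 →₀ ℕ) : ab a b = ab a' b' ↔ a = a' ∧ b = b' := by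
  constructor
  · intro h
    constructor
    · ext k
      rw [← ab_inl a b, h, ab_inl]
    · ext k
      rw [← ab_inr a b, h, ab_inr]
  · rintro ⟨rfl, rfl⟩
    rfl

lemma ab_surj (d : (ℕ ⊕ Fin 3) →₀ ℕ) : ∃ a b, d = ab a b := by
  refine ⟨d.comapDomain Sum.inl Sum.inl_injective.injOn,
    d.comapDomain Sum.inr Sum.inr_injective.injOn, ?_⟩
  ext k
  rcases k with k | k
  · rw [ab_inl, Finsupp.comapDomain_apply]
  · rw [ab_inr, Finsupp.comapDomain_apply]

/-- the polynomial in the variables `inl` with coefficients in the variables `inr` -/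
def Jsum : MvPolynomial (ℕ ⊕ Fin 3) K →ₐ[K] MvPolynomial ℕ (MvPolynomial (Fin 3) K) :=
  aeval (Sum.elim (fun k => X k) (fun i => C (X i)))

lemma Jsum_mon (a : ℕ →₀ ℕ) (b : Fin 3 →₀ ℕ) (c : K) :
    Jsum (monomial (ab a b) c) = monomial a (monomial b c) := by
  have h1 : (monomial (ab a b) c : MvPolynomial (ℕ ⊕ Fin 3) K) =
      rename Sum.inl (monomial a (1 : K)) * rename Sum.inr (monomial b c) := by
    rw [rename_monomial, rename_monomial, monomial_mul, one_mul]
    rfl
  rw [h1, map_mul]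
  unfold Jsum
  rw [aeval_rename, aeval_rename, aeval_monomial, aeval_monomial]
  have h2 : (monomial a (monomial b c) : MvPolynomial ℕ (MvPolynomial (Fin 3) K)) =
      monomial a 1 * C (monomial b c) := by
    rw [mul_comm, C_mul_monomial, mul_one]
  rw [h2, monomial_eq (s := a), monomial_eq (s := b), map_one, map_one, one_mul, one_mul]
  congr 1
  rw [map_mul]
  congr 1
  unfold Finsupp.prod
  rw [map_prod]
  refine Finset.prod_congr rfl fun i _ => ?_
  rw [map_pow]
  rfl

lemma coeff_Jsum (Q : MvPolynomial (ℕ ⊕ Fin 3) K) (a : ℕ →₀ ℕ) (b : Fin 3 →₀ ℕ) :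
    coeff b (coeff a (Jsum Q)) = coeff (ab a b) Q := by
  induction Q using MvPolynomial.induction_on' with
  | monomial d c =>
    obtain ⟨a', b', rfl⟩ := ab_surj d
    rw [Jsum_mon, coeff_monomial, coeff_monomial]
    by_cases h : a' = a
    · rw [if_pos h, coeff_monomial]
      by_cases h' : b' = b
      · rw [if_pos h', if_pos (by rw [h, h'])]
      · rw [if_neg h', if_neg]
        rw [ab_inj]
        exact fun h2 => h' h2.2
    · rw [if_neg h, coeff_zero, if_neg]
      rw [ab_inj]
      exact fun h2 => h h2.1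
  | add p q hp hq => rw [map_add, coeff_add, coeff_add, coeff_add, hp, hq]

lemma eval_Jsum (Q : MvPolynomial (ℕ ⊕ Fin 3) K) (x : ℕ → K) (u : Fin 3 → K) :
    eval x (map (eval u) (Jsum Q)) = eval (Sum.elim x u) Q := by
  induction Q using MvPolynomial.induction_on with
  | C a =>
    unfold Jsum
    rw [aeval_C, eval_C]
    change eval x (map (eval u) (C (C a))) = a
    rw [map_C, eval_C, eval_C]
  | add p q hp hq => rw [map_add, map_add, map_add, hp, hq, map_add]
  | mul_X p i hp =>
    rw [map_mul, map_mul, map_mul, hp, map_mul, eval_X]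
    congr 1
    unfold Jsum
    rw [aeval_X]
    rcases i with i | i
    · rw [Sum.elim_inl, Sum.elim_inl, map_X, eval_X]
    · rw [Sum.elim_inr, Sum.elim_inr, map_C, eval_C, eval_X]

lemma prod_X (s : Multiset ℕ) :
    (s.map fun k => (X k : MvPolynomial ℕ K)).prod = monomial (Multiset.toFinsupp s) 1 := by
  induction s using Multiset.induction_on with
  | empty =>
    rw [Multiset.map_zero, Multiset.prod_zero, map_zero]
    rfl
  | cons k s ih =>
    rw [Multiset.map_cons, Multiset.prod_cons, ih]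
    have h1 : Multiset.toFinsupp (k ::ₘ s) = Finsupp.single k 1 + Multiset.toFinsupp s := by
      rw [← Multiset.singleton_add, map_add, Multiset.toFinsupp_singleton]
    rw [h1]
    change monomial (Finsupp.single k 1) (1 : K) * monomial (Multiset.toFinsupp s) 1 = _
    rw [monomial_mul, one_mul]

lemma xex [Infinite K] {n : ℕ} (S : MvPolynomial ℕ (MvPolynomial (Fin 3) K)) (u : Fin 3 → K)
    (c : n.Partition → K)
    (h : ∀ x : ℕ → K, eval x (map (eval u) S) = ∑ r : n.Partition, (r.parts.map x).prod * c r)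
    (t : n.Partition) : eval u (coeff (Multiset.toFinsupp t.parts) S) = c t := by
  have h1 : map (eval u) S = ∑ r : n.Partition,
      (monomial (Multiset.toFinsupp r.parts) (c r) : MvPolynomial ℕ K) := by
    apply MvPolynomial.funext
    intro x
    rw [h, map_sum]
    refine Finset.sum_congr rfl fun r _ => ?_
    have h2 : (monomial (Multiset.toFinsupp r.parts) (c r) : MvPolynomial ℕ K) =
        (r.parts.map fun k => (X k : MvPolynomial ℕ K)).prod * C (c r) := by
      rw [prod_X, mul_comm, C_mul_monomial, mul_one]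
    rw [h2, map_mul, eval_C, map_multiset_prod, Multiset.map_map]
    congr 2
    refine Multiset.map_congr rfl fun k _ => ?_
    rw [Function.comp_apply, eval_X]
  rw [← coeff_map, h1, coeff_sum, Finset.sum_eq_single t]
  · rw [coeff_monomial, if_pos rfl]
  · intro r _ hr
    rw [coeff_monomial, if_neg]
    intro h'
    exact hr (Nat.Partition.ext (Multiset.toFinsupp.injective h'))
  · intro h'
    exact absurd (Finset.mem_univ t) h'

/-- substitution `u = Y`, `w = ε s ^ e`, `s = X` -/
def A (ε : K) (e : ℕ) : MvPolynomial (Fin 3) K →ₐ[K] Polynomial (Polynomial K) :=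
  aeval ![Polynomial.C Polynomial.X, Polynomial.C (Polynomial.C ε) * Polynomial.X ^ e,
    Polynomial.X]

lemma A_eval (ε : K) (e : ℕ) (q : MvPolynomial (Fin 3) K) (u s : K) :
    ((A ε e q).map (Polynomial.evalRingHom u)).eval s = eval ![u, ε * s ^ e, s] q := by
  induction q using MvPolynomial.induction_on with
  | C a =>
    unfold A
    rw [aeval_C, eval_C]
    change ((Polynomial.C (Polynomial.C a)).map (Polynomial.evalRingHom u)).eval s = a
    rw [Polynomial.map_C, Polynomial.eval_C, Polynomial.coe_evalRingHom, Polynomial.eval_C]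
  | add p q hp hq => rw [map_add, Polynomial.map_add, Polynomial.eval_add, hp, hq, map_add]
  | mul_X p i hp =>
    rw [map_mul, Polynomial.map_mul, Polynomial.eval_mul, hp, map_mul, eval_X]
    congr 1
    unfold A
    rw [aeval_X]
    fin_cases i <;> simp

lemma A_mon (ε : K) (e : ℕ) (d : Fin 3 →₀ ℕ) (c : K) (l m : ℕ) :
    ((A ε e (monomial d c)).coeff m).coeff l =
      if m = e * d 1 + d 2 ∧ l = d 0 then c * ε ^ d 1 else 0 := by
  have h1 : A ε e (monomial d c) = Polynomial.C (Polynomial.C (c * ε ^ d 1) * Polynomial.X ^ d 0) *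
      Polynomial.X ^ (e * d 1 + d 2) := by
    unfold A
    rw [aeval_monomial, Finsupp.prod_fintype _ _ (fun i => pow_zero _), Fin.prod_univ_three]
    change Polynomial.C (Polynomial.C c) * _ = _
    simp only [Matrix.cons_val_zero, Matrix.cons_val_one, Matrix.cons_val, map_mul, map_pow]
    ring
  rw [h1, Polynomial.coeff_C_mul_X_pow]
  by_cases hm : m = e * d 1 + d 2
  · rw [if_pos hm, Polynomial.coeff_C_mul_X_pow]
    by_cases hl : l = d 0
    · rw [if_pos hl, if_pos ⟨hm, hl⟩]
    · rw [if_neg hl, if_neg (fun h => hl h.2)]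
  · rw [if_neg hm, if_neg (fun h => hm h.1), Polynomial.coeff_zero]

lemma A_coeff (ε : K) (e : ℕ) (q : MvPolynomial (Fin 3) K) (l m : ℕ) (T : Finset (Fin 3 →₀ ℕ))
    (hT : ∀ d, m = e * d 1 + d 2 → l = d 0 → coeff d q * ε ^ d 1 ≠ 0 → d ∈ T)
    (hT' : ∀ d ∈ T, m = e * d 1 + d 2 ∧ l = d 0) :
    ((A ε e q).coeff m).coeff l = ∑ d ∈ T, coeff d q * ε ^ d 1 := by
  have h1 : ((A ε e q).coeff m).coeff l =
      ∑ d ∈ q.support, if m = e * d 1 + d 2 ∧ l = d 0 then coeff d q * ε ^ d 1 else 0 := by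
    conv_lhs => rw [q.as_sum]
    rw [map_sum, Polynomial.finsetSum_coeff, Polynomial.finsetSum_coeff]
    exact Finset.sum_congr rfl fun d _ => A_mon _ _ _ _ _ _
  rw [h1]
  refine Finset.sum_congr_of_eq_on_inter ?_ ?_ ?_
  · intro d _ hd
    by_contra h
    rw [ite_eq_right_iff] at h
    push Not at h
    exact hd (hT d h.1.1 h.1.2 h.2)
  · intro d _ hd
    rw [notMem_support_iff.1 hd, zero_mul]
  · intro d _ hd
    rw [if_pos (hT' d hd)]

lemma coeff_ext [Infinite K] (p q : Polynomial (Polynomial K))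
    (h : ∀ u s : K, s ≠ 1 → (p.map (Polynomial.evalRingHom u)).eval s =
      (q.map (Polynomial.evalRingHom u)).eval s) : p = q := by
  apply Polynomial.ext
  intro m
  apply Polynomial.funext
  intro u
  have h1 : p.map (Polynomial.evalRingHom u) = q.map (Polynomial.evalRingHom u) := by
    apply Polynomial.eq_of_infinite_eval_eq
    refine Set.Infinite.mono ?_ (Set.Finite.infinite_compl (Set.finite_singleton (1 : K)))
    intro s hs
    exact h u s (fun h' => hs (by rw [h']; rfl))
  have h2 := congrArg (fun f => Polynomial.coeff f m) h1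
  beta_reduce at h2
  rw [Polynomial.coeff_map, Polynomial.coeff_map] at h2
  exact h2

lemma e3_0 (l i j : ℕ) : e3 l i j 0 = l := by
  simp [e3]

lemma e3_1 (l i j : ℕ) : e3 l i j 1 = i := by
  simp [e3]

lemma e3_2 (l i j : ℕ) : e3 l i j 2 = j := by
  simp [e3]

lemma e3_eq (d : Fin 3 →₀ ℕ) (l i j : ℕ) (h0 : d 0 = l) (h1 : d 1 = i) (h2 : d 2 = j) :
    d = e3 l i j := by
  ext k
  fin_cases k
  · exact h0.trans (e3_0 l i j).symm
  · exact h1.trans (e3_1 l i j).symm
  · exact h2.trans (e3_2 l i j).symm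

lemma e3_ne (l i j i' j' : ℕ) (h : i ≠ i') : e3 l i j ≠ e3 l i' j' := by
  intro h'
  apply h
  rw [← e3_1 l i j, h', e3_1]

/-- (b) in three variables -/
lemma three [Infinite K] (al : K) (h0 : al ≠ 0) (h1 : al ≠ -1) (q h : MvPolynomial (Fin 3) K)
    (e1 : ∀ u s : K, s ≠ 1 → eval ![u, 1 * s ^ 1, s] q = eval ![u, 1 * s ^ 0, s] h)
    (e2 : ∀ u s : K, s ≠ 1 → eval ![u, -al * s ^ 1, s] q = eval ![u, -al * s ^ 0, s] h)
    (e4 : ∀ u s s' : K, eval ![u, 0 * s ^ 0, s] q = eval ![u, 0 * s' ^ 0, s'] q)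
    (hz : ∀ l i j, j ≤ 2 → ¬ Pr i j → coeff (e3 l i j) h = 0) (l i j : ℕ) (hp : Pr i j) :
    ∃ d, coeff (e3 l i j) h = coeff d q := by
  have z : ∀ j, j ≠ 0 → coeff (e3 l 0 j) q = 0 := by
    intro j hj
    have h2 := A_coeff (0 : K) 0 q l j {e3 l 0 j} (by
      intro d hd hl hd2
      rw [Finset.mem_singleton]
      refine e3_eq d l 0 j hl.symm ?_ (by omega)
      by_contra h3
      exact hd2 (by rw [zero_pow h3, mul_zero])) (by
      intro d hd
      rw [Finset.mem_singleton] at hd
      subst hd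
      rw [e3_0, e3_2]
      exact ⟨by omega, rfl⟩)
    rw [Finset.sum_singleton, e3_1, pow_zero, mul_one] at h2
    rw [← h2]
    have h3 : (A (0 : K) 0 q).coeff j = 0 := by
      apply Polynomial.funext
      intro u
      have h4 : (A (0 : K) 0 q).map (Polynomial.evalRingHom u) =
          Polynomial.C (eval ![u, 0 * 0 ^ 0, 0] q) := by
        apply Polynomial.funext
        intro s
        rw [A_eval, Polynomial.eval_C]
        exact e4 u s 0
      have h5 := congrArg (fun f => Polynomial.coeff f j) h4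
      beta_reduce at h5
      rw [Polynomial.coeff_map, Polynomial.coeff_C, if_neg hj] at h5
      rw [Polynomial.eval_zero]
      exact h5
    rw [h3, Polynomial.coeff_zero]
  have key : ∀ ε : K, (∀ u s : K, s ≠ 1 → eval ![u, ε * s ^ 1, s] q =
      eval ![u, ε * s ^ 0, s] h) → A ε 1 q = A ε 0 h := by
    intro ε hε
    apply coeff_ext
    intro u s hs
    rw [A_eval, A_eval]
    exact hε u s hs
  have q0 : ∀ ε : K, ((A ε 1 q).coeff 0).coeff l = coeff (e3 l 0 0) q := by
    intro ε
    rw [A_coeff ε 1 q l 0 {e3 l 0 0}]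
    · rw [Finset.sum_singleton, e3_1, pow_zero, mul_one]
    · intro d hd hl _
      rw [Finset.mem_singleton]
      exact e3_eq d l 0 0 hl.symm (by omega) (by omega)
    · intro d hd
      rw [Finset.mem_singleton] at hd
      subst hd
      rw [e3_0, e3_1, e3_2]
      exact ⟨by omega, rfl⟩
  have q1 : ∀ ε : K, ((A ε 1 q).coeff 1).coeff l = coeff (e3 l 0 1) q + coeff (e3 l 1 0) q * ε := by
    intro ε
    rw [A_coeff ε 1 q l 1 {e3 l 0 1, e3 l 1 0}]
    · rw [Finset.sum_pair (e3_ne _ _ _ _ _ (by omega)), e3_1, e3_1, pow_zero, mul_one, pow_one]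
    · intro d hd hl _
      rw [Finset.mem_insert, Finset.mem_singleton]
      rcases (by omega : (d 1 = 0 ∧ d 2 = 1) ∨ (d 1 = 1 ∧ d 2 = 0)) with h' | h'
      · exact Or.inl (e3_eq d l 0 1 hl.symm h'.1 h'.2)
      · exact Or.inr (e3_eq d l 1 0 hl.symm h'.1 h'.2)
    · intro d hd
      rw [Finset.mem_insert, Finset.mem_singleton] at hd
      rcases hd with hd | hd <;> subst hd <;> rw [e3_0, e3_1, e3_2] <;> exact ⟨by omega, rfl⟩
  have q2 : ∀ ε : K, ((A ε 1 q).coeff 2).coeff l = coeff (e3 l 0 2) q +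
      (coeff (e3 l 1 1) q * ε + coeff (e3 l 2 0) q * ε ^ 2) := by
    intro ε
    rw [A_coeff ε 1 q l 2 {e3 l 0 2, e3 l 1 1, e3 l 2 0}]
    · rw [Finset.sum_insert, Finset.sum_pair (e3_ne _ _ _ _ _ (by omega)), e3_1, e3_1, e3_1,
        pow_zero, mul_one, pow_one]
      rw [Finset.mem_insert, Finset.mem_singleton]
      rintro (h' | h')
      · exact e3_ne _ _ _ _ _ (by omega) h'
      · exact e3_ne _ _ _ _ _ (by omega) h'
    · intro d hd hl _
      rw [Finset.mem_insert, Finset.mem_insert, Finset.mem_singleton]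
      rcases (by omega : (d 1 = 0 ∧ d 2 = 2) ∨ (d 1 = 1 ∧ d 2 = 1) ∨ (d 1 = 2 ∧ d 2 = 0)) with
        h' | h' | h'
      · exact Or.inl (e3_eq d l 0 2 hl.symm h'.1 h'.2)
      · exact Or.inr (Or.inl (e3_eq d l 1 1 hl.symm h'.1 h'.2))
      · exact Or.inr (Or.inr (e3_eq d l 2 0 hl.symm h'.1 h'.2))
    · intro d hd
      rw [Finset.mem_insert, Finset.mem_insert, Finset.mem_singleton] at hd
      rcases hd with hd | hd | hd <;> subst hd <;> rw [e3_0, e3_1, e3_2] <;>
        exact ⟨by omega, rfl⟩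
  have f0 : ∀ ε : K, ((A ε 0 h).coeff 0).coeff l = coeff (e3 l 0 0) h := by
    intro ε
    rw [A_coeff ε 0 h l 0 {e3 l 0 0}]
    · rw [Finset.sum_singleton, e3_1, pow_zero, mul_one]
    · intro d hd hl hn
      rw [Finset.mem_singleton]
      have hd' := e3_eq d l (d 1) 0 hl.symm rfl (by omega)
      by_contra hne
      apply hn
      rw [hd', hz l (d 1) 0 (by omega), zero_mul]
      rintro (h' | h' | h' | h')
      · exact hne (by rw [hd', h'.1])
      all_goals exact absurd h'.2 (by omega)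
    · intro d hd
      rw [Finset.mem_singleton] at hd
      subst hd
      rw [e3_0, e3_1, e3_2]
      exact ⟨by omega, rfl⟩
  have f1 : ∀ ε : K, ((A ε 0 h).coeff 1).coeff l = coeff (e3 l 1 1) h * ε := by
    intro ε
    rw [A_coeff ε 0 h l 1 {e3 l 1 1}]
    · rw [Finset.sum_singleton, e3_1, pow_one]
    · intro d hd hl hn
      rw [Finset.mem_singleton]
      have hd' := e3_eq d l (d 1) 1 hl.symm rfl (by omega)
      by_contra hne
      apply hn
      rw [hd', hz l (d 1) 1 (by omega), zero_mul]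
      rintro (h' | h' | h' | h')
      · exact absurd h'.2 (by omega)
      · exact hne (by rw [hd', h'.1])
      all_goals exact absurd h'.2 (by omega)
    · intro d hd
      rw [Finset.mem_singleton] at hd
      subst hd
      rw [e3_0, e3_1, e3_2]
      exact ⟨by omega, rfl⟩
  have f2 : ∀ ε : K, ((A ε 0 h).coeff 2).coeff l =
      coeff (e3 l 1 2) h * ε + coeff (e3 l 2 2) h * ε ^ 2 := by
    intro ε
    rw [A_coeff ε 0 h l 2 {e3 l 1 2, e3 l 2 2}]
    · rw [Finset.sum_pair (e3_ne _ _ _ _ _ (by omega)), e3_1, e3_1, pow_one]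
    · intro d hd hl hn
      rw [Finset.mem_insert, Finset.mem_singleton]
      have hd' := e3_eq d l (d 1) 2 hl.symm rfl (by omega)
      by_contra hne
      push Not at hne
      apply hn
      rw [hd', hz l (d 1) 2 (by omega), zero_mul]
      rintro (h' | h' | h' | h')
      · exact absurd h'.2 (by omega)
      · exact absurd h'.2 (by omega)
      · exact hne.1 (by rw [hd', h'.1])
      · exact hne.2 (by rw [hd', h'.1])
    · intro d hd
      rw [Finset.mem_insert, Finset.mem_singleton] at hd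
      rcases hd with hd | hd <;> subst hd <;> rw [e3_0, e3_1, e3_2] <;> exact ⟨by omega, rfl⟩
  have k1 := key 1 e1
  have k2 := key (-al) e2
  have a0 := q0 1
  have a1 := q1 1
  have a2 := q2 1
  have b2 := q2 (-al)
  rw [k1, f0] at a0
  rw [k1, f1, z 1 (by omega)] at a1
  rw [k1, f2, z 2 (by omega)] at a2
  rw [k2, f2, z 2 (by omega)] at b2
  have h1' : 1 + al ≠ 0 := by
    intro h'
    exact h1 (by linear_combination h')
  have c2 : coeff (e3 l 2 2) h = coeff (e3 l 2 0) q := by
    have h2 : al * (1 + al) * (coeff (e3 l 2 2) h - coeff (e3 l 2 0) q) = 0 := by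
      linear_combination b2 + al * a2
    rcases mul_eq_zero.1 h2 with h3 | h3
    · exact absurd h3 (mul_ne_zero h0 h1')
    · exact sub_eq_zero.1 h3
  rcases hp with ⟨rfl, rfl⟩ | ⟨rfl, rfl⟩ | ⟨rfl, rfl⟩ | ⟨rfl, rfl⟩
  · exact ⟨_, a0⟩
  · exact ⟨e3 l 1 0, by linear_combination a1⟩
  · exact ⟨e3 l 1 1, by linear_combination a2 - c2⟩
  · exact ⟨_, c2⟩

end ExtVx

open ExtVx in
theorem extV (K : Type) [Field K] [CharZero K] (hP : PPSt K) : ExtVSt K := by
  intro P al h0 h1 n a g F hF e1 e2 e4 hz t l i j hp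
  obtain ⟨Q, hQ, hQe⟩ := hP.poly _ P _ hF
  let q : MvPolynomial (Fin 3) K := coeff (Multiset.toFinsupp t.parts) (Jsum (K := K) Q)
  let h : MvPolynomial (Fin 3) K := ∑ r' : n.Partition, C (a t r') * g r'
  have hev : ∀ u : Fin 3 → K, eval u h = ∑ r' : n.Partition, a t r' * eval u (g r') := by
    intro u
    simp only [h, map_sum, map_mul, eval_C]
  have main : ∀ (v : Fin 3 → K) (w : Fin 3 → K),
      (∀ x : ℕ → K, F (Sum.elim x v) = ∑ r : n.Partition, ∑ r' : n.Partition, a r r' *
        ((r.parts.map x).prod * eval w (g r'))) → eval v q = eval w h := by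
    intro v w hvw
    rw [hev]
    refine xex (Jsum (K := K) Q) v (fun r => ∑ r' : n.Partition, a r r' * eval w (g r')) ?_ t
    intro x
    rw [eval_Jsum, hQe, hvw]
    refine Finset.sum_congr rfl fun r _ => ?_
    rw [Finset.mul_sum]
    exact Finset.sum_congr rfl fun r' _ => by ring
  obtain ⟨d, hd⟩ := three al h0 h1 q h (by
      intro u s hs
      rw [pow_one, pow_zero, one_mul, one_mul]
      refine main _ _ fun x => ?_
      exact e1 (Sum.elim x ![u, s, s]) (by simp) hs) (by
      intro u s hs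
      rw [pow_one, pow_zero, mul_one]
      refine main _ _ fun x => ?_
      exact e2 (Sum.elim x ![u, -al * s, s]) (by simp [mul_comm]) hs) (by
      intro u s s'
      rw [pow_zero, pow_zero, mul_one]
      have h2 : map (eval ![u, (0 : K), s]) (Jsum (K := K) Q) =
          map (eval ![u, (0 : K), s']) (Jsum (K := K) Q) := by
        apply MvPolynomial.funext
        intro x
        rw [eval_Jsum, eval_Jsum, hQe, hQe]
        exact e4 _ _ (fun k => rfl) rfl rfl rfl
      have h3 := congrArg (coeff (Multiset.toFinsupp t.parts)) h2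
      rw [coeff_map, coeff_map] at h3
      exact h3) (by
      intro l i j hj hpr
      simp only [h, coeff_sum, coeff_C_mul]
      exact Finset.sum_eq_zero fun r' _ => by rw [hz r' l i j hj hpr, mul_zero]) l i j hp
  have h5 : ∑ r' : n.Partition, a t r' * coeff (e3 l i j) (g r') = coeff (e3 l i j) h := by
    simp only [h, coeff_sum, coeff_C_mul]
  rw [h5, hd, coeff_Jsum]
  exact hQ _

end Vm

end

end Pool.Agent.MJL
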