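import Pool.Agent.MJV.St

/-!
Conjugation of a process with a root.
-/

namespace Pool.Agent.MJL

namespace Vm

open Finset Alg

section
variable {C M : Type} [CommRing C] [AddCommGroup M] [Module C M]

theorem B_zero {B : M → M} (hadd : ∀ x y, B (x + y) = B x + B y) : B 0 = 0 := by
  have h := hadd 0 0
  rw [add_zero] at h
  have h2 : B 0 + 0 = B 0 + B 0 := by rw [add_zero]; exact h
  exact (add_left_cancel h2).symm

/-- One first order operator, applied to a convolution. -/
theorem B_conv {B : M → M} {D : C → M →ₗ[C] M} (hadd : ∀ x y, B (x + y) = B x + B y)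
    (hB : ∀ (f : C) x, B (f • x) = f • B x + D f x) {phi : ℕ → C} {F : ℕ → M → M}
    (hD : ∀ n x, D (phi n) x = ∑ p ∈ HasAntidiagonal.antidiagonal n, phi p.1 • F p.2 x)
    (S : ℕ → M) (n : ℕ) : B (conv phi S n) =
      conv phi (fun m => B (S m) + ∑ p ∈ HasAntidiagonal.antidiagonal m, F p.1 (S p.2)) n := by
  unfold conv
  rw [A_sum hadd hB]
  have h1 : ∀ p ∈ HasAntidiagonal.antidiagonal n, B (phi p.1 • S p.2) =
      phi p.1 • B (S p.2) +
      ∑ q ∈ HasAntidiagonal.antidiagonal p.1, phi q.1 • F q.2 (S p.2) := by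
    intro p _
    rw [hB, hD]
  rw [Finset.sum_congr rfl h1, Finset.sum_add_distrib]
  have h2 := tri n (fun i j l => phi i • F j (S l))
  rw [← h2, ← Finset.sum_add_distrib]
  refine Finset.sum_congr rfl fun p _ => ?_
  rw [smul_add, Finset.smul_sum]

end

theorem gau : GauSt := by
  intro Q C M _ _ _ A D B DB cl e x a a' phi psi hadd hA hBadd hB hDa hDBa ha' haa h0 hphi hps0
    hpsi PC PM he hPA hPB hcl hx hD hDB
  have hps : ∀ n, (fun q => psi q n) ∈ PC :=
    pos_half A D cl e x a a' phi psi hadd hA hDa ha' haa h0 hphi hps0 hpsi PC PM he hPA hcl hD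
  -- the pieces
  let Fq : Q → ℕ → M → M := fun q i y => a' i • D q (psi q i) y
  let Fb : Q → ℕ → M → M := fun q i y => a' i • DB q (psi q i) y
  have hFq : ∀ q n y, D q (phi q n) y =
      ∑ p ∈ HasAntidiagonal.antidiagonal n, phi q p.1 • Fq q p.2 y := fun q n y =>
    D_phi (hadd q) (hA q) (hDa q) ha' haa (h0 q) (hps0 q) (hpsi q) n y
  have hFb : ∀ q n y, DB q (phi q n) y =
      ∑ p ∈ HasAntidiagonal.antidiagonal n, phi q p.1 • Fb q p.2 y := fun q n y =>
    D_phi (hBadd q) (hB q) (hDBa q) ha' haa (h0 q) (hps0 q) (hpsi q) n y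
  let S : Q → ℕ → M := fun q n => ∑ k ∈ Icc 1 n, x q k • G (A q) (Fq q) e (k - 1) (n - k)
  let V : Q → ℕ → M := fun q n => B q (S q n) +
    ∑ p ∈ HasAntidiagonal.antidiagonal n, Fb q p.1 (S q p.2)
  have hS : ∀ q n, conv (phi q) (S q) n =
      ∑ k ∈ Icc 1 n, x q k • (A q)^[k - 1] (phi q (n - k) • e) := by
    intro q n
    have h3 := sum_Icc_conv (phi q) (x q) (fun k m => G (A q) (Fq q) e (k - 1) m) n
    change conv (phi q) (fun m => ∑ k ∈ Icc 1 m, x q k • G (A q) (Fq q) e (k - 1) (m - k)) n = _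
    rw [← h3]
    refine Finset.sum_congr rfl fun k _ => ?_
    rw [A_pow (hadd q) (hA q) (hFq q) e (k - 1) (n - k)]
  have hG : ∀ k j, (fun q => G (A q) (Fq q) e k j) ∈ PM := by
    intro k
    induction k with
    | zero =>
      intro j
      change (fun q => if j = 0 then e else 0) ∈ PM
      by_cases hj : j = 0
      · rw [if_pos hj]
        exact he
      · rw [if_neg hj]
        exact zero_mem _
    | succ k ihk =>
      intro j
      have h1 : (fun q => G (A q) (Fq q) e (k + 1) j) =
          (fun q => A q (G (A q) (Fq q) e k j)) +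
          ∑ p ∈ HasAntidiagonal.antidiagonal j, fun q => a' p.1 • D q (psi q p.1)
            (G (A q) (Fq q) e k p.2) := by
        funext q
        rw [Pi.add_apply, Finset.sum_apply]
        rfl
      rw [h1]
      refine add_mem (hPA _ (ihk j)) (sum_mem fun p _ => ?_)
      rcases eq_or_ne p.1 0 with h2 | h2
      · have h3 : (fun q => a' p.1 • D q (psi q p.1) (G (A q) (Fq q) e k p.2)) = 0 := by
          funext q
          rw [h2, hps0, D_zero (hadd q) (hA q), LinearMap.zero_apply, smul_zero]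
          rfl
        rw [h3]
        exact zero_mem _
      · exact hD p.1 h2 _ (hps p.1) _ (ihk p.2)
  have hSm : ∀ n, (fun q => S q n) ∈ PM := by
    intro n
    have h1 : (fun q => S q n) = ∑ k ∈ Icc 1 n, fun q =>
        x q k • G (A q) (Fq q) e (k - 1) (n - k) := by
      funext q
      rw [Finset.sum_apply]
    rw [h1]
    exact sum_mem fun k _ => hx _ (hG (k - 1) (n - k)) k
  refine ⟨S, V, hS, fun q n => ?_, hSm, fun n => ?_⟩
  · rw [← hS, B_conv (hBadd q) (hB q) (hFb q) (S q) n]
  · have h1 : (fun q => V q n) = (fun q => B q (S q n)) +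
        ∑ p ∈ HasAntidiagonal.antidiagonal n, fun q => a' p.1 • DB q (psi q p.1) (S q p.2) := by
      funext q
      rw [Pi.add_apply, Finset.sum_apply]
    rw [h1]
    refine add_mem (hPB _ (hSm n)) (sum_mem fun p _ => ?_)
    rcases eq_or_ne p.1 0 with h2 | h2
    · have h3 : (fun q => a' p.1 • DB q (psi q p.1) (S q p.2)) = 0 := by
        funext q
        rw [h2, hps0, D_zero (hBadd q) (hB q), LinearMap.zero_apply, smul_zero]
        rfl
      rw [h3]
      exact zero_mem _
    · exact hDB p.1 h2 _ (hps p.1) _ (hSm p.2)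

end Vm

end Pool.Agent.MJL
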