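import Pool.Agent.MJV.Rot
import Pool.Agent.MJV.Gau
import Pool.Agent.MJT.RhoAll

/-!
The sums of the coefficients `h` over the partitions of given length with marked parts of total
size at most three.
-/

namespace Pool.Agent.MJL

open MvPolynomial Pool.Agent.MJR Pool.Agent.MJX
open Pool.Agent.MJF (ic iR)

noncomputable section

namespace Vm

section
variable {K : Type} [Field K]

theorem cg_single (L : List Bool) (f : CW K Bool) :
    cg K (Finsupp.single L f) = X (L.length + 1) * fgt K Bool f := by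
  unfold cg
  refine Eq.trans (Finsupp.lsum_single _ _ _ _) ?_
  rfl

theorem cg_smul (f : CW K Bool) (y : RW K Bool) : cg K (f • y) = fgt K Bool f * cg K y := by
  induction y using Finsupp.induction_linear with
  | zero => rw [smul_zero, map_zero, mul_zero]
  | add p q hp hq => rw [smul_add, map_add, map_add, hp, hq, mul_add]
  | single L g =>
    rw [Finsupp.smul_single, smul_eq_mul, cg_single, cg_single, map_mul]
    ring

theorem cg_conv (f : ℕ → CW K Bool) (S : ℕ → RW K Bool) (n : ℕ) :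
    cg K (Alg.conv f S n) = ∑ p ∈ Finset.HasAntidiagonal.antidiagonal n,
      fgt K Bool (f p.1) * cg K (S p.2) := by
  unfold Alg.conv
  rw [map_sum]
  exact Finset.sum_congr rfl fun p _ => cg_smul _ _

theorem pv_zero (al u w s : K) (x : ℕ → K) : pv al u w s x 0 = 1 := by
  unfold pv
  rw [(sSm K).zero]
  rfl

end

/-- The hypotheses. -/
structure Hyp : Prop where
  jk : JkSt
  bsx : BsxSt QA
  ex : ExSt
  o1 : Op1St QA
  o2 : Op2St QA
  psi : PsiSt QA
  pos : PosSt QA
  fre : FreSt QA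
  ext : ExtVSt QA
  cmb : CmbSt QA

/-- From the derivatives of `phi` to the coefficients `h`, for one family. -/
theorem main_gen (hy : Hyp) {J : (n : ℕ) → n.Partition → n.Partition → QA}
    (hJ : ∀ n, IsJack RatFunc.X n (J n)) {psi : PowerSeries (B3 QA)}
    (hpsi : IsPsi RatFunc.X J psi) (S : (ℕ ⊕ Fin 3 → QA) → ℕ → RW QA Bool)
    (R : (ℕ ⊕ Fin 3 → QA) → ℕ → RW QA Bool)
    (hS : ∀ a n, Alg.conv (pv RatFunc.X (a (Sum.inr 0)) (a (Sum.inr 1)) (a (Sum.inr 2))
      (fun k => a (Sum.inl k))) (S a) n = R a n)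
    (hSP : ∀ (n : ℕ) (e : ℕ →₀ ℕ), (fun a => coeff e (cg QA (S a n))) ∈
        PP QA (ℕ ⊕ Fin 3) (Qb (RatFunc.X : QA)).toAddSubmonoid)
    (δ : QA → QA → ℕ → QA) (δp : ℕ → MvPolynomial (Fin 3) QA)
    (hδ : ∀ (u v s : QA) (σ : Multiset ℕ), eval ![u, v, s] (dp δp σ) =
      dm (δ v s) (fun k => u + v * s ^ k) σ)
    (hz : ∀ (σ : Multiset ℕ), 0 ∉ σ → ∀ l i j, j ≤ 2 → ¬ Pr i j →
      coeff (e3 l i j) (dp δp σ) = 0)
    (hR : ∀ (a : ℕ ⊕ Fin 3 → QA) (v : QA), v = 1 ∨ v = -RatFunc.X →
      a (Sum.inr 1) = a (Sum.inr 2) * v → a (Sum.inr 2) ≠ 1 → ∀ n,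
      cg QA (R a n) = (RatFunc.X : QA) • sp (fun k => a (Sum.inl k))
        (fun k => a (Sum.inr 0) + v * a (Sum.inr 2) ^ k)
        (Dd (δ v (a (Sum.inr 2))) (PowerSeries.coeff n (phi RatFunc.X J))))
    (hR0 : ∀ a a' : ℕ ⊕ Fin 3 → QA, (∀ k, a (Sum.inl k) = a' (Sum.inl k)) →
      a (Sum.inr 0) = a' (Sum.inr 0) → a (Sum.inr 1) = 0 → a' (Sum.inr 1) = 0 → R a = R a')
    {n : ℕ} (t m : n.Partition) (l i j : ℕ) (hp : Pr i j) :
    ∑ v : n.Partition, hc psi t m v * coeff (e3 l i j) (dp δp v.parts) ∈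
      Qb (RatFunc.X : QA) := by
  have hX0 : (RatFunc.X : QA) ≠ 0 := RatFunc.X_ne_zero
  have hc0 : PowerSeries.constantCoeff (phi RatFunc.X J) = 1 := by
    rw [← PowerSeries.coeff_zero_eq_constantCoeff_apply]
    exact ExtrM.phi_zero J hJ
  have hpe := (lgm QA).psi RatFunc.X J psi hc0 hpsi
  have hm1 : PowerSeries.coeff n psi ∈ H3 QA n := by
    rw [hpe]
    exact (homm QA).log _ _ hc0 ((homm QA).phi _ _) n
  have hPP := pPm QA
  -- the family
  have hF : (fun a => (n : QA) * coeff (expo m) (cg QA (S a n))) ∈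
      PP QA (ℕ ⊕ Fin 3) (Qb (RatFunc.X : QA)).toAddSubmonoid :=
    hPP.lin (ℕ ⊕ Fin 3) (Qb (RatFunc.X : QA)).toAddSubmonoid
      (Qb (RatFunc.X : QA)).toAddSubmonoid (LinearMap.mulLeft QA (n : QA))
      (fun p hp => (Qb (RatFunc.X : QA)).mul_mem (natCast_mem (Qb (RatFunc.X : QA)) n) hp) _
      (hSP n (expo m))
  have hval : ∀ (a : ℕ ⊕ Fin 3 → QA) (v : QA), v = 1 ∨ v = -RatFunc.X →
      a (Sum.inr 1) = a (Sum.inr 2) * v → a (Sum.inr 2) ≠ 1 →
      (n : QA) * coeff (expo m) (cg QA (S a n)) =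
      ∑ r : n.Partition, ∑ r' : n.Partition, hc psi r m r' *
        ((r.parts.map fun k => a (Sum.inl k)).prod *
          eval ![a (Sum.inr 0), v, a (Sum.inr 2)] (dp δp r'.parts)) := by
    intro a v hv ha hs
    have h1 : ∀ k, ∑ p ∈ Finset.HasAntidiagonal.antidiagonal k,
        sp (fun k => a (Sum.inl k)) (fun k => a (Sum.inr 0) + v * a (Sum.inr 2) ^ k)
          (PowerSeries.coeff p.1 (phi RatFunc.X J)) *
          ((RatFunc.X : QA)⁻¹ • cg QA (S a p.2)) =
        sp (fun k => a (Sum.inl k)) (fun k => a (Sum.inr 0) + v * a (Sum.inr 2) ^ k)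
          (Dd (δ v (a (Sum.inr 2))) (PowerSeries.coeff k (phi RatFunc.X J))) := by
      intro k
      have h2 := cg_conv (pv RatFunc.X (a (Sum.inr 0)) (a (Sum.inr 1)) (a (Sum.inr 2))
        (fun k => a (Sum.inl k))) (S a) k
      rw [hS, hR a v hv ha hs k] at h2
      have h3 := congrArg (fun y => (RatFunc.X : QA)⁻¹ • y) h2
      beta_reduce at h3
      rw [smul_smul, inv_mul_cancel₀ hX0, one_smul, Finset.smul_sum] at h3
      rw [h3]
      refine Finset.sum_congr rfl fun p _ => ?_
      rw [ha, truV hJ v _ _ hv, mul_smul_comm]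
    have h4 := hy.psi.log (RatFunc.X : QA) (phi RatFunc.X J) hc0 (δ v (a (Sum.inr 2)))
      (fun k => a (Sum.inl k)) (fun k => a (Sum.inr 0) + v * a (Sum.inr 2) ^ k)
      (fun k => (RatFunc.X : QA)⁻¹ • cg QA (S a k)) h1 n
    rw [← hpe] at h4
    have h5 := congrArg (coeff (expo m)) h4
    rw [hy.psi.spe _ _ _ n _ hm1 m, coeff_smul, coeff_smul, smul_eq_mul, smul_eq_mul,
      ← mul_assoc, mul_right_comm (RatFunc.X : QA), mul_inv_cancel₀ hX0, one_mul] at h5
    rw [← h5]
    refine Finset.sum_congr rfl fun r _ => Finset.sum_congr rfl fun r' _ => ?_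
    rw [hδ]
    rfl
  have h0 : ∀ r : n.Partition, 0 ∉ r.parts := fun r h =>
    absurd (r.parts_pos h) (lt_irrefl 0)
  have hne : (RatFunc.X : QA) ≠ -1 := by
    intro h
    exact MJT.WMod.hXX (by rw [h]; ring)
  refine hy.ext (Qb (RatFunc.X : QA)) RatFunc.X hX0 hne n (fun r r' => hc psi r m r')
    (fun r' => dp δp r'.parts) _ hF ?_ ?_ ?_ ?_ t l i j hp
  · intro y h1 h2
    exact hval y 1 (Or.inl rfl) h1 h2
  · intro y h1 h2
    exact hval y (-RatFunc.X) (Or.inr rfl) h1 h2
  · intro y y' hx hu hw hw'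
    have h1 : S y = S y' := by
      have h2 : ∀ k, pv RatFunc.X (y (Sum.inr 0)) (y (Sum.inr 1)) (y (Sum.inr 2))
          (fun k => y (Sum.inl k)) k = pv RatFunc.X (y' (Sum.inr 0)) (y' (Sum.inr 1))
          (y' (Sum.inr 2)) (fun k => y' (Sum.inl k)) k := by
        intro k
        have e : (fun k => y (Sum.inl k)) = fun k => y' (Sum.inl k) := funext hx
        rw [hw, hw', hu, e]
        exact hy.fre.hp _ _ _ _ _ _
      have h3 := hR0 y y' hx hu hw hw'
      refine Alg.conv_inj (f := pv RatFunc.X (y (Sum.inr 0)) (y (Sum.inr 1)) (y (Sum.inr 2))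
        (fun k => y (Sum.inl k))) (pv_zero _ _ _ _ _) fun k => ?_
      rw [hS, h3, ← hS]
      congr 1
      exact (funext h2).symm
    rw [h1]
  · intro r' l i j hj hnp
    exact hz _ (h0 r') l i j hj hnp

/-- The two families. -/
theorem main_two (hy : Hyp) {J : (n : ℕ) → n.Partition → n.Partition → QA}
    (hJ : ∀ n, IsJack RatFunc.X n (J n)) {psi : PowerSeries (B3 QA)}
    (hpsi : IsPsi RatFunc.X J psi) {n : ℕ} (t m : n.Partition) (l i j : ℕ) (hp : Pr i j) :
    ∑ v : n.Partition, hc psi t m v * coeff (e3 l i j) (dp (D1 QA) v.parts) ∈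
      Qb (RatFunc.X : QA) ∧
    ∑ v : n.Partition, hc psi t m v * coeff (e3 l i j) (dp (D2 QA) v.parts) ∈
      Qb (RatFunc.X : QA) := by
  obtain ⟨S, V, hS, hV, hSP, hVP⟩ := hy.pos RatFunc.X RatFunc.X_ne_zero
    (Qb (RatFunc.X : QA)) (b_mem _) (fun n => inv_mem _ n)
  constructor
  · refine main_gen hy hJ hpsi S _ hS hSP (fun _ _ => d1 QA) (D1 QA) hy.cmb.ev1 hy.cmb.z1
      ?_ ?_ t m l i j hp
    · intro a v hv ha _ k
      beta_reduce
      rw [ha]
      exact (rot hy.jk hy.bsx hy.ex hy.o1 hy.o2 hy.psi hJ v _ _ hv _ k).1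
    · intro a a' hx hu hw hw'
      funext k
      beta_reduce
      have e : (fun k => a (Sum.inl k)) = fun k => a' (Sum.inl k) := funext hx
      rw [hw, hw', hu, e]
      exact hy.fre.hr _ _ _ _ _ _
  · refine main_gen hy hJ hpsi V _ hV hVP (fun v s => d2 v s) (D2 QA) hy.cmb.ev2 hy.cmb.z2
      ?_ ?_ t m l i j hp
    · intro a v hv ha hs k
      beta_reduce
      rw [ha]
      exact (rot hy.jk hy.bsx hy.ex hy.o1 hy.o2 hy.psi hJ v _ _ hv _ k).2 hs
    · intro a a' hx hu hw hw'
      funext k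
      beta_reduce
      rw [hw, hw', hy.fre.ht, hy.fre.ht]

/-- All parts are marked. -/
theorem card_all {n : ℕ} (v : n.Partition) (k : ℕ) :
    ((v.parts.powersetCard k).filter fun a => a.sum = n).card =
      if v.parts.card = k then 1 else 0 := by
  split_ifs with h
  · rw [← h, Multiset.powersetCard_self, Multiset.filter_singleton, if_pos v.parts_sum,
      Multiset.card_singleton]
  · rw [Multiset.card_eq_zero, Multiset.filter_eq_nil]
    intro a ha hs
    rw [Multiset.mem_powersetCard] at ha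
    obtain ⟨b, hb⟩ := Multiset.le_iff_exists_add.mp ha.1
    have h1 := v.parts_sum
    rw [hb, Multiset.sum_add, hs] at h1
    have h2 : b.sum = 0 := by omega
    have h3 : b = 0 := by
      rw [Multiset.eq_zero_iff_forall_notMem]
      intro c hc
      have h4 : 0 < c := v.parts_pos (by rw [hb]; exact Multiset.mem_add.mpr (Or.inr hc))
      have h5 := Multiset.le_sum_of_mem hc
      omega
    apply h
    rw [hb, h3, add_zero]
    exact ha.2

/-- The sums are integral. -/
theorem zb_sum (hI : MJI.FinSt) {J : (n : ℕ) → n.Partition → n.Partition → QA}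
    (hJ : ∀ n, IsJack RatFunc.X n (J n)) {psi : PowerSeries (B3 QA)}
    (hpsi : IsPsi RatFunc.X J psi) {n : ℕ} (t m : n.Partition) (S : Finset n.Partition)
    (N : n.Partition → ℕ) : ∑ v ∈ S, (N v : QA) * hc psi t m v ∈ Zb (RatFunc.X : QA) :=
  sum_mem fun v _ => (Zb (RatFunc.X : QA)).mul_mem (natCast_mem _ _)
    (zb_le _ (hI J hJ psi hpsi t m v))

theorem fin (hy : Hyp) (hI : MJI.FinSt) {J : (n : ℕ) → n.Partition → n.Partition → QA}
    (hJ : ∀ n, IsJack RatFunc.X n (J n)) {psi : PowerSeries (B3 QA)}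
    (hpsi : IsPsi RatFunc.X J psi) {n : ℕ} (t m : n.Partition) (k : ℕ) (r : Multiset ℕ)
    (hr0 : 0 ∉ r) (hr : r.sum ≤ 3) :
    ∑ v : n.Partition with v.parts.card = k, (MJT.nsub r v.parts : QA) * hc psi t m v ∈
      Nb (RatFunc.X : QA) := by
  classical
  have hzb := zb_sum hI hJ hpsi t m (Finset.univ.filter fun v : n.Partition => v.parts.card = k)
    (fun v => MJT.nsub r v.parts)
  have h0 : ∀ v : n.Partition, 0 ∉ v.parts := fun v h =>
    absurd (v.parts_pos h) (lt_irrefl 0)
  -- from the weighted sums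
  have key : ∀ (N : n.Partition → QA) (c : ℕ), c ≠ 0 → ∀ q : ℕ,
      (∀ l : ℕ, ∑ v : n.Partition, hc psi t m v *
        (if v.parts.card = l + q then (c : QA) * N v else 0) ∈ Qb (RatFunc.X : QA)) →
      (∀ v, v.parts.card < q → N v = 0) → (∀ v, (MJT.nsub r v.parts : QA) = N v) →
      ∑ v : n.Partition with v.parts.card = k, (MJT.nsub r v.parts : QA) * hc psi t m v ∈
        Nb (RatFunc.X : QA) := by
    intro N c hc0 q h1 h2 h3
    refine nb_of _ ?_ hzb
    by_cases hk : q ≤ k
    · obtain ⟨l, rfl⟩ := Nat.exists_eq_add_of_le' hk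
      have h4 := mul_mem (inv_mem (RatFunc.X : QA) c) (h1 l)
      have h5 : ((c : QA))⁻¹ * ∑ v : n.Partition, hc psi t m v *
          (if v.parts.card = l + q then (c : QA) * N v else 0) =
          ∑ v : n.Partition with v.parts.card = l + q,
            (MJT.nsub r v.parts : QA) * hc psi t m v := by
        rw [Finset.sum_filter, Finset.mul_sum]
        refine Finset.sum_congr rfl fun v _ => ?_
        split_ifs with h6
        · rw [h3 v]
          have h7 : (c : QA) ≠ 0 := Nat.cast_ne_zero.mpr hc0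
          field_simp
        · rw [mul_zero, mul_zero]
      rw [h5] at h4
      exact h4
    · rw [Finset.sum_eq_zero]
      · exact zero_mem _
      · intro v hv
        rw [Finset.mem_filter] at hv
        rw [h3 v, h2 v (by omega), zero_mul]
  have hcard : ∀ (v : n.Partition) (k : ℕ), v.parts.count k ≤ v.parts.card := fun v k =>
    Multiset.count_le_card k v.parts
  rcases MJT.small_cases r hr0 hr with rfl | rfl | rfl | rfl | rfl | rfl | rfl
  · -- no mark
    have h1 := logMarg truA J hJ psi hpsi n t m k n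
    have h2 : ∑ v : n.Partition, (((v.parts.powersetCard k).filter fun a => a.sum = n).card : QA) *
        hc psi t m v = ∑ v : n.Partition with v.parts.card = k,
          (MJT.nsub 0 v.parts : QA) * hc psi t m v := by
      rw [Finset.sum_filter]
      refine Finset.sum_congr rfl fun v _ => ?_
      rw [card_all]
      have h3 : MJT.nsub 0 v.parts = 1 := rfl
      split_ifs with h4
      · rw [h3]
      · rw [Nat.cast_zero, zero_mul]
    rw [h2] at h1
    exact h1
  · refine key (fun v => (v.parts.count 1 : QA)) 1 one_ne_zero 1 (fun l => ?_) (fun v hv => ?_)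
      (fun v => ?_)
    · have h1 := (main_two hy hJ hpsi t m l 0 0 (Or.inl ⟨rfl, rfl⟩)).1
      refine (congrArg (· ∈ Qb (RatFunc.X : QA)) (Finset.sum_congr rfl fun v _ => ?_)).mp h1
      rw [hy.cmb.c1 _ (h0 v), Nat.cast_one, one_mul]
    · have := hcard v 1
      have h1 : v.parts.count 1 = 0 := by omega
      rw [h1, Nat.cast_zero]
    · unfold MJT.nsub
      rw [Multiset.toFinset_singleton, Finset.prod_singleton, Multiset.count_singleton_self,
        Nat.choose_one_right]
  · refine key (fun v => (v.parts.count 2 : QA)) 2 two_ne_zero 1 (fun l => ?_) (fun v hv => ?_)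
      (fun v => ?_)
    · have h1 := (main_two hy hJ hpsi t m l 1 1 (Or.inr (Or.inl ⟨rfl, rfl⟩))).2
      refine (congrArg (· ∈ Qb (RatFunc.X : QA)) (Finset.sum_congr rfl fun v _ => ?_)).mp h1
      rw [hy.cmb.c2 _ (h0 v), Nat.cast_ofNat]
    · have := hcard v 2
      have h1 : v.parts.count 2 = 0 := by omega
      rw [h1, Nat.cast_zero]
    · unfold MJT.nsub
      rw [Multiset.toFinset_singleton, Finset.prod_singleton, Multiset.count_singleton_self,
        Nat.choose_one_right]
  · refine key (fun v => ((v.parts.count 1).choose 2 : QA)) 2 two_ne_zero 2 (fun l => ?_)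
      (fun v hv => ?_) (fun v => ?_)
    · have h1 := (main_two hy hJ hpsi t m l 1 1 (Or.inr (Or.inl ⟨rfl, rfl⟩))).1
      refine (congrArg (· ∈ Qb (RatFunc.X : QA)) (Finset.sum_congr rfl fun v _ => ?_)).mp h1
      rw [hy.cmb.c11 _ (h0 v), Nat.cast_ofNat]
    · have := hcard v 1
      rw [Nat.choose_eq_zero_of_lt (by omega), Nat.cast_zero]
    · unfold MJT.nsub
      have e1 : ({1, 1} : Multiset ℕ).toFinset = {1} := by decide
      have e2 : ({1, 1} : Multiset ℕ).count 1 = 2 := by decide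
      rw [e1, Finset.prod_singleton, e2]
  · refine key (fun v => (v.parts.count 1 : QA) * (v.parts.count 2 : QA)) 1 one_ne_zero 2
      (fun l => ?_) (fun v hv => ?_) (fun v => ?_)
    · have h1 := (main_two hy hJ hpsi t m l 1 2 (Or.inr (Or.inr (Or.inl ⟨rfl, rfl⟩)))).1
      refine (congrArg (· ∈ Qb (RatFunc.X : QA)) (Finset.sum_congr rfl fun v _ => ?_)).mp h1
      rw [hy.cmb.c12 _ (h0 v), Nat.cast_one, one_mul]
    · have h3 : v.parts.count 1 = 0 ∨ v.parts.count 2 = 0 := by
        by_contra h3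
        rw [not_or] at h3
        obtain ⟨t, ht⟩ := Multiset.exists_cons_of_mem
          (Multiset.count_pos.mp (Nat.pos_of_ne_zero h3.1))
        have h4 : 2 ∈ v.parts := Multiset.count_pos.mp (Nat.pos_of_ne_zero h3.2)
        rw [ht, Multiset.mem_cons] at h4
        have h5 : 2 ∈ t := h4.resolve_left (by omega)
        have h6 : 0 < t.card := Multiset.card_pos_iff_exists_mem.mpr ⟨2, h5⟩
        rw [ht, Multiset.card_cons] at hv
        omega
      rcases h3 with h3 | h3
      · rw [h3, Nat.cast_zero, zero_mul]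
      · rw [h3, Nat.cast_zero, mul_zero]
    · unfold MJT.nsub
      have e1 : ({1, 2} : Multiset ℕ).toFinset = {1, 2} := by decide
      have e2 : ({1, 2} : Multiset ℕ).count 1 = 1 := by decide
      have e3 : ({1, 2} : Multiset ℕ).count 2 = 1 := by decide
      rw [e1, Finset.prod_pair (by omega), e2, e3, Nat.choose_one_right, Nat.choose_one_right,
        Nat.cast_mul]
  · refine key (fun v => ((v.parts.count 1).choose 3 : QA)) 3 three_ne_zero 3 (fun l => ?_)
      (fun v hv => ?_) (fun v => ?_)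
    · have h1 := (main_two hy hJ hpsi t m l 2 2 (Or.inr (Or.inr (Or.inr ⟨rfl, rfl⟩)))).1
      refine (congrArg (· ∈ Qb (RatFunc.X : QA)) (Finset.sum_congr rfl fun v _ => ?_)).mp h1
      rw [hy.cmb.c111 _ (h0 v), Nat.cast_ofNat]
    · have := hcard v 1
      rw [Nat.choose_eq_zero_of_lt (by omega), Nat.cast_zero]
    · unfold MJT.nsub
      have e1 : ({1, 1, 1} : Multiset ℕ).toFinset = {1} := by decide
      have e2 : ({1, 1, 1} : Multiset ℕ).count 1 = 3 := by decide
      rw [e1, Finset.prod_singleton, e2]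
  · refine key (fun v => (v.parts.count 3 : QA)) 3 three_ne_zero 1 (fun l => ?_)
      (fun v hv => ?_) (fun v => ?_)
    · have h1 := (main_two hy hJ hpsi t m l 1 2 (Or.inr (Or.inr (Or.inl ⟨rfl, rfl⟩)))).2
      refine (congrArg (· ∈ Qb (RatFunc.X : QA)) (Finset.sum_congr rfl fun v _ => ?_)).mp h1
      rw [hy.cmb.c3 _ (h0 v), Nat.cast_ofNat]
    · have := hcard v 3
      have h1 : v.parts.count 3 = 0 := by omega
      rw [h1, Nat.cast_zero]
    · unfold MJT.nsub
      rw [Multiset.toFinset_singleton, Finset.prod_singleton, Multiset.count_singleton_self,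
        Nat.choose_one_right]

end Vm

end

end Pool.Agent.MJL
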