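import Pool.Agent.MJV.St
import Pool.Agent.MJL.SSm
import Pool.Agent.MJL.Rul
import Pool.Agent.MJT.RhoV

/-!
(Fre) Without new parts of the colour `true` there are no letters `true`.
-/

namespace Pool.Agent.MJL

open MvPolynomial Pool.Agent.MJR Pool.Agent.MJX
open Pool.Agent.MJF (ic iR)

noncomputable section

namespace Vm

namespace FreM

variable {K : Type} [Field K]

/-- words without the letter `true` -/
def Zl (L : List Bool) : Prop := ∀ l ∈ L, l = false

/-- closed words without the letter `true` -/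
def R0 (K : Type) [Field K] : Subalgebra K (CW K Bool) :=
  Algebra.adjoin K {f | ∃ z : Cycle Bool, (∀ l ∈ z, l = false) ∧ f = X z}

/-- words with a root without the letter `true` -/
def M0 (K : Type) [Field K] : Submodule K (RW K Bool) :=
  Submodule.span K {x | ∃ L : List Bool, ∃ f : CW K Bool, Zl L ∧ f ∈ R0 K ∧
    x = Finsupp.single L f}

theorem M0_single {L : List Bool} {f : CW K Bool} (hL : Zl L) (hf : f ∈ R0 K) :
    (Finsupp.single L f : RW K Bool) ∈ M0 K := Submodule.subset_span ⟨L, f, hL, hf, rfl⟩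

theorem M0_map {V : Type} [AddCommGroup V] [Module K V] (g : RW K Bool →ₗ[K] V)
    (P : Submodule K V) (h : ∀ L f, Zl L → f ∈ R0 K → g (Finsupp.single L f) ∈ P) :
    ∀ x ∈ M0 K, g x ∈ P := by
  intro x hx
  have h1 : M0 K ≤ P.comap g := Submodule.span_le.mpr (by
    rintro _ ⟨L, f, hL, hf, rfl⟩
    exact h L f hL hf)
  exact h1 hx

theorem R0_cy {L : List Bool} (hL : Zl L) : cy K L ∈ R0 K :=
  Algebra.subset_adjoin ⟨(L : Cycle Bool), fun l hl => hL l hl, rfl⟩

theorem M0_smul {f : CW K Bool} (hf : f ∈ R0 K) {x : RW K Bool} (hx : x ∈ M0 K) :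
    f • x ∈ M0 K :=
  M0_map ((LinearMap.lsmul (CW K Bool) (RW K Bool) f).restrictScalars K) (M0 K)
    (fun L g hL hg => by
      change f • (Finsupp.single L g : RW K Bool) ∈ M0 K
      rw [Finsupp.smul_single, smul_eq_mul]
      exact M0_single hL ((R0 K).mul_mem hf hg)) x hx

theorem M0_app {L : List Bool} (hL : Zl L) {x : RW K Bool} (hx : x ∈ M0 K) :
    app L x ∈ M0 K :=
  M0_map ((app L : RW K Bool →ₗ[CW K Bool] RW K Bool).restrictScalars K) (M0 K)
    (fun L' g hL' hg => by
      change app L (Finsupp.single L' g : RW K Bool) ∈ M0 K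
      have e : app L (Finsupp.single L' g : RW K Bool) = Finsupp.single (L' ++ L) g := by
        unfold app
        rw [Finsupp.lmapDomain_apply, Finsupp.mapDomain_single]
      rw [e]
      refine M0_single (fun l hl => ?_) hg
      rcases List.mem_append.1 hl with h | h
      · exact hL' l h
      · exact hL l h) x hx

theorem M0_pre {L : List Bool} (hL : Zl L) {x : RW K Bool} (hx : x ∈ M0 K) :
    pre L x ∈ M0 K :=
  M0_map ((pre L : RW K Bool →ₗ[CW K Bool] RW K Bool).restrictScalars K) (M0 K)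
    (fun L' g hL' hg => by
      change pre L (Finsupp.single L' g : RW K Bool) ∈ M0 K
      have e : pre L (Finsupp.single L' g : RW K Bool) = Finsupp.single (L ++ L') g := by
        unfold pre
        rw [Finsupp.lmapDomain_apply, Finsupp.mapDomain_single]
      rw [e]
      refine M0_single (fun l hl => ?_) hg
      rcases List.mem_append.1 hl with h | h
      · exact hL l h
      · exact hL' l h) x hx

theorem R0_clw {x : RW K Bool} (hx : x ∈ M0 K) : clw K x ∈ R0 K :=
  M0_map ((clw K : RW K Bool →ₗ[CW K Bool] CW K Bool).restrictScalars K)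
    (Subalgebra.toSubmodule (R0 K))
    (fun L g hL hg => by
      change clw K (Finsupp.single L g : RW K Bool) ∈ R0 K
      have e : clw K (Finsupp.single L g : RW K Bool) = g * cy K L := by
        unfold clw
        rw [Finsupp.linearCombination_single, smul_eq_mul]
      rw [e]
      exact (R0 K).mul_mem hg (R0_cy hL)) x hx

theorem M0_iw {f : CW K Bool} (hf : f ∈ R0 K) : iw K f ∈ M0 K :=
  M0_single (fun l hl => absurd hl (List.not_mem_nil)) hf

theorem R0_C (c : K) : (C c : CW K Bool) ∈ R0 K := (R0 K).algebraMap_mem c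

theorem M0_rw1 {L : List Bool} (hL : Zl L) : (rw1 K L : RW K Bool) ∈ M0 K :=
  M0_single hL (R0 K).one_mem

theorem Zl_split {L X Y : List Bool} {x : Bool} (hL : Zl L) (h : L = X ++ x :: Y) :
    Zl X ∧ x = false ∧ Zl Y := by
  subst h
  refine ⟨fun l hl => hL l ?_, hL x ?_, fun l hl => hL l ?_⟩
  · exact List.mem_append_left _ hl
  · exact List.mem_append_right _ List.mem_cons_self
  · exact List.mem_append_right _ (List.mem_cons_of_mem _ hl)

theorem Zl_append {X Y : List Bool} (hX : Zl X) (hY : Zl Y) : Zl (X ++ Y) := by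
  intro l hl
  rcases List.mem_append.1 hl with h | h
  · exact hX l h
  · exact hY l h

theorem Zl_reverse {X : List Bool} (hX : Zl X) : Zl X.reverse := by
  intro l hl
  exact hX l (List.mem_reverse.1 hl)

theorem Zl_cons {x : Bool} {Y : List Bool} (hx : x = false) (hY : Zl Y) : Zl (x :: Y) := by
  intro l hl
  rcases List.mem_cons.1 hl with h | h
  · rw [h, hx]
  · exact hY l h

theorem Zl_one {x : Bool} (hx : x = false) : Zl [x] :=
  Zl_cons hx fun l hl => absurd hl (List.not_mem_nil)

theorem M0_tch (b : K) (t : Bool) {L : List Bool} (hL : Zl L) : tch b t L ∈ M0 K := by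
  unfold tch
  refine MJT.WordM.spl_mem (M0 K).toAddSubmonoid _ L fun X x Y h => ?_
  obtain ⟨hX, hx, hY⟩ := Zl_split hL h
  change (if x = t then _ else 0) ∈ M0 K
  by_cases ht : x = t
  · rw [if_pos ht]
    have ht' : t = false := ht ▸ hx
    exact (M0 K).add_mem (M0_smul (R0_cy (Zl_append hX (Zl_one ht'))) (M0_rw1 hY))
      (M0_smul (R0_C b) (M0_rw1 (Zl_append (Zl_reverse hX) (Zl_cons ht' hY))))
  · rw [if_neg ht]
    exact (M0 K).zero_mem

theorem tch_true (b : K) {L : List Bool} (hL : Zl L) : (tch b true L : RW K Bool) = 0 := by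
  have h : (tch b true L : RW K Bool) ∈ (⊥ : AddSubmonoid (RW K Bool)) := by
    unfold tch
    refine MJT.WordM.spl_mem ⊥ _ L fun X x Y h => ?_
    obtain ⟨_, hx, _⟩ := Zl_split hL h
    have hx' : ¬ x = true := by
      rw [hx]
      decide
    rw [if_neg hx']
    exact AddSubmonoid.zero_mem _
  exact AddSubmonoid.mem_bot.1 h

theorem M0_opn (w1 w2 : K) (t : Bool) {L : List Bool} (hL : Zl L) : opn w1 w2 t L ∈ M0 K := by
  unfold opn
  refine MJT.WordM.spl_mem (M0 K).toAddSubmonoid _ L fun X x Y h => ?_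
  obtain ⟨hX, hx, hY⟩ := Zl_split hL h
  change (if x = t then _ else 0) ∈ M0 K
  by_cases ht : x = t
  · rw [if_pos ht]
    have ht' : t = false := ht ▸ hx
    exact (M0 K).add_mem
      (M0_smul (R0_C w1) (M0_rw1 (Zl_append (Zl_append hY hX) (Zl_one ht'))))
      (M0_smul (R0_C w2) (M0_rw1 (Zl_append (Zl_reverse (Zl_append hY hX)) (Zl_one ht'))))
  · rw [if_neg ht]
    exact (M0 K).zero_mem

theorem opn_true (w1 w2 : K) {L : List Bool} (hL : Zl L) :
    (opn w1 w2 true L : RW K Bool) = 0 := by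
  have h : (opn w1 w2 true L : RW K Bool) ∈ (⊥ : AddSubmonoid (RW K Bool)) := by
    unfold opn
    refine MJT.WordM.spl_mem ⊥ _ L fun X x Y h => ?_
    obtain ⟨_, hx, _⟩ := Zl_split hL h
    have hx' : ¬ x = true := by
      rw [hx]
      decide
    rw [if_neg hx']
    exact AddSubmonoid.zero_mem _
  exact AddSubmonoid.mem_bot.1 h

theorem Zl_out {z : Cycle Bool} (hz : ∀ l ∈ z, l = false) : Zl (Quotient.out z) := by
  intro l hl
  have h : ((Quotient.out z : List Bool) : Cycle Bool) = z := Quotient.out_eq z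
  refine hz l ?_
  rw [← h]
  exact hl

theorem J_X (w1 w2 : K) (t : Bool) (z : Cycle Bool) :
    J w1 w2 t (X z : CW K Bool) = opn w1 w2 t (Quotient.out z) := by
  unfold J
  rw [mkDerivation_X]

theorem M0_J (w1 w2 : K) (t : Bool) {f : CW K Bool} (hf : f ∈ R0 K) :
    J w1 w2 t f ∈ M0 K := by
  refine Algebra.adjoin_induction (p := fun f _ => J w1 w2 t f ∈ M0 K) ?_ ?_ ?_ ?_ hf
  · rintro _ ⟨z, hz, rfl⟩
    rw [J_X]
    exact M0_opn w1 w2 t (Zl_out hz)
  · intro c
    rw [Derivation.map_algebraMap]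
    exact (M0 K).zero_mem
  · intro x y _ _ hx hy
    rw [map_add]
    exact (M0 K).add_mem hx hy
  · intro x y hx hy h1 h2
    rw [Derivation.leibniz]
    exact (M0 K).add_mem (M0_smul hx h2) (M0_smul hy h1)

theorem J_true (w1 w2 : K) {f : CW K Bool} (hf : f ∈ R0 K) : J w1 w2 true f = 0 := by
  refine Algebra.adjoin_induction (p := fun f _ => J w1 w2 true f = 0) ?_ ?_ ?_ ?_ hf
  · rintro _ ⟨z, hz, rfl⟩
    rw [J_X]
    exact opn_true w1 w2 (Zl_out hz)
  · intro c
    rw [Derivation.map_algebraMap]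
  · intro x y _ _ hx hy
    rw [map_add, hx, hy, add_zero]
  · intro x y hx hy h1 h2
    rw [Derivation.leibniz, h1, h2, smul_zero, smul_zero, add_zero]

theorem Th_single (al : K) (t : Bool) (L : List Bool) (f : CW K Bool) :
    Th al t (Finsupp.single L f) =
      f • tch (al - 1) t L + app L (J (al / 2) (al / 2) t f) := by
  unfold Th T opr
  rw [Finsupp.lsum_single]
  rfl

theorem M0_Th (al : K) (t : Bool) {x : RW K Bool} (hx : x ∈ M0 K) : Th al t x ∈ M0 K :=
  M0_map (Th al t) (M0 K) (fun L f hL hf => by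
    rw [Th_single]
    exact (M0 K).add_mem (M0_smul hf (M0_tch _ t hL)) (M0_app hL (M0_J _ _ t hf))) x hx

theorem Th_true (al : K) {x : RW K Bool} (hx : x ∈ M0 K) : Th al true x = 0 := by
  have h := M0_map (Th al true) ⊥ (fun L f hL hf => by
    rw [Th_single, tch_true _ hL, J_true _ _ hf, smul_zero, map_zero, add_zero]
    exact Submodule.zero_mem _) x hx
  exact (Submodule.mem_bot K).1 h

theorem Av_eq (al u s : K) {x : RW K Bool} (hx : x ∈ M0 K) :
    Av al u 0 s x = pre [false] (u • x + Th al false x) := by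
  have e : Av al u 0 s x = pre [false] (u • x + Th al false x) +
      pre [true] ((0 : K) • x + s • Th al true x) := rfl
  rw [e, Th_true al hx, zero_smul, smul_zero, add_zero, map_zero, add_zero]

theorem M0_Av (al u s : K) {x : RW K Bool} (hx : x ∈ M0 K) : Av al u 0 s x ∈ M0 K := by
  rw [Av_eq al u s hx]
  exact M0_pre (Zl_one rfl) ((M0 K).add_mem ((M0 K).smul_mem u hx) (M0_Th al false hx))

theorem Av_pow (al u s s' : K) (n : ℕ) {x : RW K Bool} (hx : x ∈ M0 K) :
    (Av al u 0 s ^ n) x ∈ M0 K ∧ (Av al u 0 s ^ n) x = (Av al u 0 s' ^ n) x := by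
  induction n with
  | zero => exact ⟨hx, rfl⟩
  | succ n ih =>
    have e : ∀ r : K, (Av al u 0 r ^ (n + 1)) x = Av al u 0 r ((Av al u 0 r ^ n) x) := by
      intro r
      rw [pow_succ', Module.End.mul_apply]
    rw [e, e]
    refine ⟨M0_Av al u s ih.1, ?_⟩
    rw [← ih.2, Av_eq al u s ih.1, Av_eq al u s' ih.1]

theorem Kv_eq (al u s s' : K) (p : List ℕ) :
    Kv al u 0 s p ∈ R0 K ∧ Kv al u 0 s p = Kv al u 0 s' p := by
  induction p with
  | nil => exact ⟨(R0 K).one_mem, rfl⟩
  | cons k p ih =>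
    have e : ∀ r : K, Kv al u 0 r (k :: p) =
        clw K ((Av al u 0 r ^ k) (iw K (Kv al u 0 r p))) := fun r => rfl
    rw [e, e, ← ih.2]
    have h := Av_pow al u s s' k (M0_iw ih.1)
    rw [← h.2]
    exact ⟨R0_clw h.1, rfl⟩

theorem SS_mem (al : K) (x : ℕ → K) (n : ℕ) : ∀ f : List ℕ → CW K Bool,
    (∀ p, f p ∈ R0 K) → SS al x n f ∈ R0 K := by
  induction n using Nat.strong_induction_on with
  | _ n ih =>
    intro f hf
    rcases Nat.eq_zero_or_pos n with h0 | h0
    · subst h0
      rw [SSm.zero']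
      exact hf []
    · rw [SSm.succ' al x n f h0.ne']
      refine (R0 K).smul_mem ((R0 K).sum_mem fun k hk => ?_) _
      rw [Finset.mem_Icc] at hk
      exact (R0 K).smul_mem (ih (n - k) (by omega) _ fun p => hf _) _

theorem pv_mem (al u s : K) (x : ℕ → K) (n : ℕ) : pv al u 0 s x n ∈ R0 K :=
  SS_mem al x n _ fun p => (Kv_eq al u s s p).1

theorem pv_eq (al u s s' : K) (x : ℕ → K) (n : ℕ) : pv al u 0 s x n = pv al u 0 s' x n := by
  have h : Kv al u 0 s = Kv al u 0 s' := funext fun p => (Kv_eq al u s s' p).2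
  unfold pv
  rw [h]

end FreM

open FreM in
theorem fre (K : Type) [Field K] : FreSt K where
  hp := fun al u s s' x n => pv_eq al u s s' x n
  hr := fun al u s s' x n => by
    unfold rv
    refine Finset.sum_congr rfl fun k _ => ?_
    rw [← pv_eq al u s s' x (n - k), (Av_pow al u s s' (k - 1) (M0_iw (pv_mem al u s x _))).2]
  ht := fun al u s x n => by
    refine Th_true al ?_
    unfold rv
    refine (M0 K).sum_mem fun k _ => (M0 K).smul_mem _ ?_
    exact (Av_pow al u s s (k - 1) (M0_iw (pv_mem al u s x _))).1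

end Vm

end

end Pool.Agent.MJL
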