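import Pool.Agent.MJV.St

/-!
For two colours and the two values of the weight of the marks the process with separate
weights is the process of the arc model.
-/

namespace Pool.Agent.MJL

open MvPolynomial Pool.Agent.MJR Pool.Agent.MJX
open Pool.Agent.MJF (ic iR)

noncomputable section

namespace Vm

variable {K : Type} [Field K]

theorem Av_apply (al u w s : K) (y : RW K Bool) : Av al u w s y =
    pre [false] (u • y + Th al false y) + pre [true] (w • y + s • Th al true y) := rfl

/-- The insertion with separate weights, for `w = s v`. -/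
theorem Av_eq (al u v s : K) :
    Av al u (s * v) s = Aw (al - 1) (al / 2) (al / 2) (uB u v) (uB 1 s) := by
  apply LinearMap.ext
  intro y
  rw [(rulA K Bool).Aw_apply, Fintype.sum_bool, Av_apply, add_comm]
  have e1 : (uB u v true : K) = v := rfl
  have e2 : (uB u v false : K) = u := rfl
  have e3 : (uB 1 s true : K) = s := rfl
  have e4 : (uB 1 s false : K) = 1 := rfl
  rw [e1, e2, e3, e4, one_smul]
  congr 1
  have e5 : s • pre [true] (v • y + T (al - 1) (al / 2) (al / 2) true y) =
      pre [true] (s • (v • y + T (al - 1) (al / 2) (al / 2) true y)) :=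
    (LinearMap.map_smul_of_tower (pre [true] : RW K Bool →ₗ[CW K Bool] RW K Bool) s _).symm
  rw [e5, smul_add, smul_smul]
  rfl

variable [CharZero K]

/-- The powers of the insertion on the image of the arc model. -/
theorem Av_pow {al tau u2 kap u s : K} {Kc : Lam K →ₗ[K] CM K} (h : IsK al tau u2 kap u s Kc)
    (n : ℕ) (y : AM K kap) : (Av al u (s * u2) s ^ n) (iR tau y) =
      iR tau ((Aop al kap u (s * u2) ^ n) y) := by
  rw [Av_eq]
  induction n with
  | zero => rfl
  | succ n ihn =>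
    rw [pow_succ', pow_succ', Module.End.mul_apply, Module.End.mul_apply, ihn,
      MJF.iR_A (MJF.aI K) (MJF.aP K) h.h1 h.h2 h.h3 h.ht h.hq]
    exact HalfM.Aw_half al u u2 s (HalfM.ZR_iR tau _)

theorem Av_pow_iw {al tau u2 kap u s : K} {Kc : Lam K →ₗ[K] CM K}
    (h : IsK al tau u2 kap u s Kc) (n : ℕ) (f : CM K) :
    (Av al u (s * u2) s ^ n) (iw K (ic tau f : CW K Bool)) =
      (MJF.Aw al u u2 s ^ n) (MJF.iw K (ic tau f)) := by
  have h1 := Av_pow h n (iA kap f)
  have h2 := Fin2M.iR_pow h n (iA kap f)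
  rw [h2, MJF.iR_iA] at h1
  exact h1

theorem Kv_eq {al tau u2 kap u s : K} {Kc : Lam K →ₗ[K] CM K} (h : IsK al tau u2 kap u s Kc)
    (p : List ℕ) (hp : ∀ k ∈ p, k ≠ 0) :
    Kv al u (s * u2) s p = ic tau (Kc (p.map fun k => (X k : Lam K)).prod) := by
  induction p with
  | nil =>
    change (1 : CW K Bool) = ic tau (Kc 1)
    rw [h.one, MJF.ic_one]
  | cons k p ih =>
    have hp' : ∀ l ∈ p, l ≠ 0 := fun l hl => hp l (List.mem_cons_of_mem k hl)
    have hk : k ≠ 0 := hp k List.mem_cons_self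
    change clw K ((Av al u (s * u2) s ^ k) (iw K (Kv al u (s * u2) s p))) = _
    rw [ih hp', Av_pow_iw h, List.map_cons, List.prod_cons, ← Fin2M.clw_pow h hk]
    rfl

theorem pv_eq {al tau u2 kap u s : K} {Kc : Lam K →ₗ[K] CM K} (h : IsK al tau u2 kap u s Kc)
    (x : ℕ → K) (n : ℕ) : pv al u (s * u2) s x n = ic tau (Kc (Gx al x n)) := by
  unfold pv
  have h1 : SS al x n (Kv al u (s * u2) s) = SS al x n (fun p =>
      (ic tau (Kc (p.map fun k => (X k : Lam K)).prod) : CW K Bool)) :=
    (sSm K).congr _ _ _ _ _ fun p _ hp => Kv_eq h p hp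
  rw [h1]
  have h2 := Fin1.SS_map (sSm K) al x (ic tau ∘ₗ Kc) n
    (fun p => ((p.map fun k => (X k : Lam K)).prod : Lam K))
  rw [sSX K al h.h0] at h2
  exact h2.symm

theorem rv_eq {al tau u2 kap u s : K} {Kc : Lam K →ₗ[K] CM K} (h : IsK al tau u2 kap u s Kc)
    (x : ℕ → K) (n : ℕ) : rv al u (s * u2) s x n = Ra al tau u2 u s Kc x n := by
  unfold rv Ra
  refine Finset.sum_congr rfl fun k _ => ?_
  rw [pv_eq h, Av_pow_iw h]

theorem Ra_mem {al tau u2 kap u s : K} {Kc : Lam K →ₗ[K] CM K} (h : IsK al tau u2 kap u s Kc)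
    (x : ℕ → K) (n : ℕ) : Ra al tau u2 u s Kc x n ∈ HalfM.ZR K := by
  unfold Ra
  refine Submodule.sum_mem _ fun k _ => Submodule.smul_mem _ _ ?_
  rw [← MJF.iR_iA (kap := kap), ← Fin2M.iR_pow h]
  exact HalfM.ZR_iR tau _

omit [CharZero K] in
theorem cg_eq (y : MJF.RW K) : cg K y = MJT.Bx K (MJT.WordM.fgR K y) := by
  induction y using Finsupp.induction_linear with
  | zero => rw [map_zero, map_zero, map_zero]
  | add p q hp hq =>
    rw [map_add (MJT.WordM.fgR K) p q, map_add (MJT.Bx K), ← hp, ← hq]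
    exact map_add (cg K) p q
  | single L f =>
    rw [MJT.WordM.fgR_single, MJT.Bx_monomial]
    unfold cg
    refine Eq.trans (Finsupp.lsum_single _ _ _ _) ?_
    rfl

theorem hlf (K : Type) [Field K] [CharZero K] : HlfSt K where
  hp := fun _ _ _ _ _ _ _ h x n => pv_eq h x n
  hr := fun _ _ _ _ _ _ _ h x n => rv_eq h x n
  ht := fun al _ _ _ _ _ _ h x n => HalfM.T_half al true (Ra_mem h x n)
  hc := cg_eq

end Vm

end

end Pool.Agent.MJL
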