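import Pool.Agent.MJV.St
import Pool.Agent.MJL.Homm
import Pool.Agent.MJT.Jack

/-!
(Jk) An operator which commutes with all `H` and preserves the degree, applied to the generating
function of the power sums.
-/

namespace Pool.Agent.MJL

open MvPolynomial Pool.Agent.MJR Pool.Agent.MJX
open Pool.Agent.MJF (ic iR)

noncomputable section

namespace Vm

/-- The coefficients of the series `phi`. -/
theorem Jk_phi (J : (n : ℕ) → n.Partition → n.Partition → QA) {n : ℕ} (t m v : n.Partition) :
    coeff (expo3 t m v) (PowerSeries.coeff n (phi (RatFunc.X : QA) J)) =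
      ∑ l : n.Partition, (nrm RatFunc.X (J n) l)⁻¹ * (J n l t * J n l m * J n l v) := by
  unfold phi
  rw [PowerSeries.coeff_mk, coeff_sum]
  refine Finset.sum_congr rfl fun l _ => ?_
  rw [coeff_C_mul, PhiM.coeff_Ja]

/-- The connection coefficients. -/
theorem Jk_conn (J : (n : ℕ) → n.Partition → n.Partition → QA)
    (hJ : ∀ n, IsJack RatFunc.X n (J n)) (n : ℕ) (l m v : n.Partition) :
    ∑ p, J n l p * (wtp RatFunc.X p * ∑ l', (nrm RatFunc.X (J n) l')⁻¹ *
      (J n l' p * J n l' m * J n l' v)) = J n l m * J n l v := by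
  have h5 : ∀ p, J n l p * (wtp RatFunc.X p * ∑ l', (nrm RatFunc.X (J n) l')⁻¹ *
      (J n l' p * J n l' m * J n l' v)) =
      ∑ l', (nrm RatFunc.X (J n) l')⁻¹ * (J n l' m * J n l' v) *
        (J n l p * J n l' p * wtp RatFunc.X p) := by
    intro p
    rw [Finset.mul_sum, Finset.mul_sum]
    refine Finset.sum_congr rfl fun l' _ => ?_
    ring
  rw [Finset.sum_congr rfl (fun p _ => h5 p), Finset.sum_comm, Finset.sum_eq_single l]
  · rw [← Finset.mul_sum]
    have h6 : ∑ p, J n l p * J n l p * wtp RatFunc.X p = nrm RatFunc.X (J n) l := by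
      unfold nrm
      refine Finset.sum_congr rfl fun p _ => ?_
      ring
    have h7 := nrm_ne_zero anisoM (hJ n) l
    rw [h6]
    field_simp
  · intro l' _ hl'
    rw [← Finset.mul_sum, (hJ n).orth l l' (Ne.symm hl'), mul_zero]
  · intro h'
    exact absurd (Finset.mem_univ _) h'

theorem jk : JkSt := by
  intro J hJ n O hOH hOS x m
  have hX : (RatFunc.X : QA) ≠ 0 := RatFunc.X_ne_zero
  have hmem : ∀ p : n.Partition, pp QA p ∈ GradeM.S QA n := fun p =>
    GradeM.mem_S (fun h => absurd (p.parts_pos h) (lt_irrefl 0)) p.parts_sum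
  have hw : ∀ r : n.Partition, wtp (RatFunc.X : QA) r ≠ 0 := by
    intro r
    unfold wtp
    refine mul_ne_zero (pow_ne_zero _ hX) ?_
    have hz : zed r ≠ 0 := by
      unfold zed
      refine Finset.prod_ne_zero_iff.mpr fun i hi => ?_
      have h3 : i ≠ 0 := (r.parts_pos (Multiset.mem_toFinset.mp hi)).ne'
      exact mul_ne_zero (pow_ne_zero _ h3) (Nat.factorial_ne_zero _)
    exact_mod_cast hz
  have hcoef : ∀ p : n.Partition, coeff (expo m) (O (pp QA p)) =
      ∑ v, coeff (expo (ones n)) (O (pp QA v)) * (wtp RatFunc.X p *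
        ∑ l', (nrm RatFunc.X (J n) l')⁻¹ * (J n l' p * J n l' m * J n l' v)) := fun p =>
    MJT.jackOp (hJ n) (fun p m v => wtp RatFunc.X p *
        ∑ l', (nrm RatFunc.X (J n) l')⁻¹ * (J n l' p * J n l' m * J n l' v))
      (Jk_conn J hJ n) O (fun r p => hOH r _ (hmem p)) (fun p => hOS _ (hmem p)) p m
  have hG : coeff (expo m) (O (Gx RatFunc.X x n)) =
      ∑ r : n.Partition, ((r.parts.map x).prod * (wtp RatFunc.X r)⁻¹) *
        coeff (expo m) (O (pp QA r)) := by
    unfold Gx
    rw [map_sum, coeff_sum]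
    refine Finset.sum_congr rfl fun r _ => ?_
    rw [map_smul, coeff_smul, smul_eq_mul]
  rw [hG]
  refine Finset.sum_congr rfl fun r _ => ?_
  rw [hcoef r, Finset.mul_sum]
  refine Finset.sum_congr rfl fun v _ => ?_
  rw [Jk_phi]
  have h := hw r
  field_simp

end Vm

end

end Pool.Agent.MJL
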