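import Pool.Agent.MJV.St
import Pool.Agent.MJT.RhoU
import Pool.Agent.MJT.Dhat
import Pool.Agent.MJL.Fin2

/-!
(Op1) The operator `O1` of the arc process with a root: it commutes with all `H`, preserves the
degree, and its row of `p_1 ^ n`.
-/

namespace Pool.Agent.MJL

open MvPolynomial Pool.Agent.MJR Pool.Agent.MJX
open Pool.Agent.MJF (ic iR)

noncomputable section

namespace Vm

namespace Op1x

variable {K : Type} [Field K] {al tau u2 kap u s : K} {Kc : Lam K →ₗ[K] CM K}

/-- the process with a root, colours forgotten -/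
def P1 (al tau u2 kap u s : K) (Kc : Lam K →ₗ[K] CM K) : LW K →ₗ[K] LW K :=
  MJT.WordM.fgR K ∘ₗ Pa al tau u2 kap u s Kc

/-- the process, colours forgotten -/
def Q1 (tau : K) (Kc : Lam K →ₗ[K] CM K) : Lam K →ₗ[K] Lam K :=
  (MJF.fgt K).toLinearMap ∘ₗ ic tau ∘ₗ Kc

theorem Pa_monomial (h : IsK al tau u2 kap u s Kc) (m : ℕ) (f : Lam K) :
    Pa al tau u2 kap u s Kc (Polynomial.monomial m f) =
      (MJF.Aw al u u2 s ^ m) (MJF.iw K (ic tau (Kc f))) := by
  change iR (kap := kap) tau (MJT.AbsM.Kh (Aop al kap u (s * u2)) (iA kap) Kc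
    (Polynomial.monomial m f)) = _
  rw [MJT.AbsM.Kh_monomial, Fin2M.iR_pow h, MJF.iR_iA]

theorem Pa_X_mul (h : IsK al tau u2 kap u s Kc) (G : LW K) :
    Pa al tau u2 kap u s Kc (Polynomial.X * G) =
      MJF.Aw al u u2 s (Pa al tau u2 kap u s Kc G) := by
  induction G using Polynomial.induction_on' with
  | add p q hp hq => rw [mul_add, map_add, map_add, map_add, hp, hq]
  | monomial m f =>
    rw [Polynomial.X_mul_monomial, Pa_monomial h, Pa_monomial h, pow_succ',
      Module.End.mul_apply]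

theorem Aw_apply (x : MJF.RW K) : MJF.Aw al u u2 s x =
    (MJT.WordM.wm al).x0 (u • x + (MJT.WordM.wm al).T0 x) +
      s • (MJT.WordM.wm al).x1 (u2 • x + (MJT.WordM.wm al).T1 x) := rfl

theorem P1_C (h : IsK al tau u2 kap u s Kc) (f : Lam K) :
    P1 al tau u2 kap u s Kc (Polynomial.C f) = Polynomial.C (Q1 tau Kc f) := by
  change MJT.WordM.fgR K (Pa al tau u2 kap u s Kc (Polynomial.C f)) = _
  rw [← Polynomial.monomial_zero_left, Pa_monomial h, pow_zero, Module.End.one_apply]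
  exact (MJT.WordM.forget al).i _

theorem i0_Aw (x : MJF.RW K) : MJT.i0 K (MJT.WordM.fgR K (MJF.Aw al u u2 s x)) = 0 := by
  have h0 : ∀ x, MJT.i0 K (MJT.WordM.fgR K ((MJT.WordM.wm al).x0 x)) = 0 := fun x => by
    have h1 : MJT.WordM.fgR K ((MJT.WordM.wm al).x0 x) = _ := (MJT.WordM.forget al).x0 x
    rw [h1, MJT.i0_X_mul]
  have h1 : ∀ x, MJT.i0 K (MJT.WordM.fgR K ((MJT.WordM.wm al).x1 x)) = 0 := fun x => by
    have h1 : MJT.WordM.fgR K ((MJT.WordM.wm al).x1 x) = _ := (MJT.WordM.forget al).x1 x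
    rw [h1, MJT.i0_X_mul]
  rw [Aw_apply, map_add, map_smul, map_add, map_smul, h0, h1, smul_zero, add_zero]

theorem i0_P1 (h : IsK al tau u2 kap u s Kc) (G : LW K) :
    MJT.i0 K (P1 al tau u2 kap u s Kc G) = Q1 tau Kc (MJT.i0 K G) := by
  induction G using Polynomial.induction_on' with
  | add p q hp hq => rw [map_add, map_add, map_add, map_add, hp, hq]
  | monomial m f =>
    rcases m with _ | m
    · rw [Polynomial.monomial_zero_left, P1_C h, MJT.i0_apply, MJT.i0_apply,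
        Polynomial.coeff_C_zero, Polynomial.coeff_C_zero]
    · rw [← Polynomial.X_mul_monomial, MJT.i0_X_mul, map_zero]
      change MJT.i0 K (MJT.WordM.fgR K (Pa al tau u2 kap u s Kc (Polynomial.X * _))) = 0
      rw [Pa_X_mul h, i0_Aw]

theorem P1_Zf (h : IsKc al tau u2 kap u s Kc) (G : LW K) :
    P1 al tau u2 kap u s Kc (MJT.Zf al G) = MJT.Zf al (P1 al tau u2 kap u s Kc G) := h.comm G

theorem P1_Zf_pow (h : IsKc al tau u2 kap u s Kc) (k : ℕ) (G : LW K) :
    P1 al tau u2 kap u s Kc ((MJT.Zf al ^ k) G) =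
      (MJT.Zf al ^ k) (P1 al tau u2 kap u s Kc G) := by
  induction k with
  | zero => rfl
  | succ k ih =>
    rw [pow_succ', Module.End.mul_apply, Module.End.mul_apply, P1_Zf h, ih]

theorem Q1_Mo (h : IsKc al tau u2 kap u s Kc) (k : ℕ) (f : Lam K) :
    Q1 tau Kc (MJT.Mo al k f) = MJT.Mo al k (Q1 tau Kc f) := by
  rw [MJT.Mo_apply, MJT.Mo_apply, ← i0_P1 h.toIsK, P1_Zf_pow h, P1_C h.toIsK]

theorem comm [CharZero K] (h : IsKc al tau u2 kap u s Kc) (n r : ℕ) :
    ∀ f ∈ GradeM.S K n, O1 al tau u2 kap u s Kc (H al r f) =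
      H al r (O1 al tau u2 kap u s Kc f) := by
  intro f hf
  change MJT.Bx K (P1 al tau u2 kap u s Kc (MJT.Bs al (H al r f))) =
    H al r (MJT.Bx K (P1 al tau u2 kap u s Kc (MJT.Bs al f)))
  rcases n with _ | n
  · rw [MJT.WMod.Bs_S_zero al hf, MJT.WMod.Bs_S_zero al (MJT.H_S al r hf)]
    simp only [map_zero]
  · have h1 := MJT.ext al h.h0 (MJT.dhat K al h.h0) (P1 al tau u2 kap u s Kc) (Q1 tau Kc)
      (fun G _ => P1_Zf h G) (fun f _ => P1_C h.toIsK f) (fun k f _ => Q1_Mo h k f) 1 r f hf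
    rw [map_one, Module.End.one_apply, Module.End.one_apply] at h1
    exact h1

/-! ### The degree -/

theorem Aw_mem {n : ℕ} {x : MJF.RW K} (hx : x ∈ MJT.WordM.BS K (MJT.WordM.Wn n)) :
    MJF.Aw al u u2 s x ∈ MJT.WordM.BS K (MJT.WordM.Wn (n + 1)) := by
  have hG := MJT.WordM.grad (K := K) al
  rw [Aw_apply]
  exact Submodule.add_mem _
    (hG.x0 n _ (Submodule.add_mem _ (Submodule.smul_mem _ _ hx) (hG.t0 n _ hx)))
    (Submodule.smul_mem _ _
      (hG.x1 n _ (Submodule.add_mem _ (Submodule.smul_mem _ _ hx) (hG.t1 n _ hx))))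

theorem Aw_pow_mem {n : ℕ} (k : ℕ) {x : MJF.RW K}
    (hx : x ∈ MJT.WordM.BS K (MJT.WordM.Wn n)) :
    (MJF.Aw al u u2 s ^ k) x ∈ MJT.WordM.BS K (MJT.WordM.Wn (k + n)) := by
  induction k with
  | zero => rw [pow_zero, zero_add]; exact hx
  | succ k ih =>
    have e1 : k + 1 + n = (k + n) + 1 := by omega
    rw [pow_succ', Module.End.mul_apply, e1]
    exact Aw_mem ih

/-- closing after an insertion -/
theorem clw_Aw (x : MJF.RW K) : MJF.clw K (MJF.Aw al u u2 s x) =
    (MJT.WordM.wm al).cl (MJF.Aw al u u2 s x) := by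
  change _ = MJT.WordM.cl0 K (MJF.Aw al u u2 s x)
  have hc : ∀ (c : K) (y : MJF.RW K), MJF.clw K (c • y) = c • MJF.clw K y := fun c y =>
    LinearMap.map_smul_of_tower (MJF.clw K) c y
  have hc0 : ∀ (c : K) (y : MJF.RW K),
      MJT.WordM.cl0 K (c • y) = c • MJT.WordM.cl0 K y := fun c y =>
    LinearMap.map_smul_of_tower (MJT.WordM.cl0 K) c y
  have e : MJF.Aw al u u2 s x = MJF.pre [false] (u • x + MJF.T al false x) +
      s • MJF.pre [true] (u2 • x + MJF.T al true x) := rfl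
  rw [e, map_add (MJF.clw K), map_add (MJT.WordM.cl0 K), hc, hc0, MJT.WordM.cl0_pre,
    MJT.WordM.cl0_pre]

theorem Kc_mon_mem (h : IsK al tau u2 kap u s Kc) (t : Multiset ℕ) (h0 : 0 ∉ t) :
    ic tau (Kc (GradeM.mon K t)) ∈ MJT.WordM.CS K (MJT.WordM.Wcn t.sum) := by
  have hG := MJT.WordM.grad (K := K) al
  induction t using Multiset.induction_on with
  | empty =>
    rw [GradeM.mon_zero, h.one, MJF.ic_one, Multiset.sum_zero]
    exact hG.e
  | cons k t ih =>
    rw [Multiset.mem_cons, not_or] at h0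
    have hk : k ≠ 0 := fun h => h0.1 h.symm
    rw [GradeM.mon_cons, ← Fin2M.clw_pow h hk, Multiset.sum_cons]
    have h1 : (MJF.Aw al u u2 s ^ k) (MJF.iw K (ic tau (Kc (GradeM.mon K t)))) ∈
        MJT.WordM.BS K (MJT.WordM.Wn (k + t.sum)) := Aw_pow_mem k (hG.i _ _ (ih h0.2))
    obtain ⟨j, rfl⟩ := Nat.exists_eq_succ_of_ne_zero hk
    rw [Nat.succ_eq_add_one, pow_succ', Module.End.mul_apply] at h1 ⊢
    rw [clw_Aw]
    exact hG.cl _ _ h1

theorem Kc_mem (h : IsK al tau u2 kap u s Kc) {n : ℕ} {f : Lam K} (hf : f ∈ GradeM.S K n) :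
    ic tau (Kc f) ∈ MJT.WordM.CS K (MJT.WordM.Wcn n) := by
  induction hf using Submodule.span_induction with
  | mem f hf =>
    obtain ⟨t, h0, hs, rfl⟩ := hf
    rw [← hs]
    exact Kc_mon_mem h t h0
  | zero => rw [map_zero, map_zero]; exact Submodule.zero_mem _
  | add a b _ _ ha hb => rw [map_add, map_add]; exact Submodule.add_mem _ ha hb
  | smul c a _ ha => rw [map_smul, map_smul]; exact Submodule.smul_mem _ _ ha

theorem Pa_mem (h : IsK al tau u2 kap u s Kc) {n : ℕ} {G : LW K} (hG' : G ∈ GradeM.T K n) :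
    Pa al tau u2 kap u s Kc G ∈ MJT.WordM.BS K (MJT.WordM.Wn n) := by
  have hG := MJT.WordM.grad (K := K) al
  induction hG' using Submodule.span_induction with
  | mem f hf =>
    obtain ⟨m, t, h0, hs, rfl⟩ := hf
    rw [Pa_monomial h, ← hs]
    exact Aw_pow_mem m (hG.i _ _ (Kc_mon_mem h t h0))
  | zero => rw [map_zero]; exact Submodule.zero_mem _
  | add a b _ _ ha hb => rw [map_add]; exact Submodule.add_mem _ ha hb
  | smul c a _ ha => rw [map_smul]; exact Submodule.smul_mem _ _ ha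

theorem grade (h : IsK al tau u2 kap u s Kc) (n : ℕ) :
    ∀ f ∈ GradeM.S K n, O1 al tau u2 kap u s Kc f ∈ GradeM.S K n := by
  intro f hf
  have hG := MJT.WordM.grad (K := K) al
  change MJT.Bx K (MJT.WordM.fgR K (Pa al tau u2 kap u s Kc (MJT.Bs al f))) ∈ _
  rcases n with _ | n
  · rw [MJT.WMod.Bs_S_zero al hf]
    simp only [map_zero]
    exact Submodule.zero_mem _
  · exact MJT.Bx_S (hG.F _ _ (Pa_mem h (MJT.Bs_T al hf)))

/-! ### The row -/

/-- all cycles of length one, the root word is empty -/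
abbrev r (K : Type) [Field K] : MJF.RW K →ₗ[K] K := MJT.WordM.rL K []

theorem r_Aw (x : MJF.RW K) : MJT.WordM.rL K [] (MJF.Aw al u u2 s x) = 0 := by
  have hR := MJT.WordM.row (K := K) al
  rw [Aw_apply, map_add, map_smul, hR.rx0, hR.rx1, smul_zero, add_zero]

theorem r0_Aw (x : MJF.RW K) : MJT.WordM.rL K [false] (MJF.Aw al u u2 s x) =
    u * MJT.WordM.rL K [] x + MJT.WordM.rL K [false] x := by
  have hR := MJT.WordM.row (K := K) al
  rw [Aw_apply, map_add, map_smul, hR.r0x0, hR.r0x1, smul_zero, add_zero, map_add, map_smul,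
    hR.t0, smul_eq_mul]

theorem r1_Aw (x : MJF.RW K) : MJT.WordM.rL K [true] (MJF.Aw al u u2 s x) =
    s * (u2 * MJT.WordM.rL K [] x + MJT.WordM.rL K [true] x) := by
  have hR := MJT.WordM.row (K := K) al
  rw [Aw_apply, map_add, map_smul, hR.r1x0, hR.r1x1, zero_add, map_add, map_smul, hR.t1,
    smul_eq_mul, smul_eq_mul]

theorem r_pow (m : ℕ) (y : MJF.CW K) :
    MJT.WordM.rL K [] ((MJF.Aw al u u2 s ^ m) (MJF.iw K y)) =
      if m = 0 then MJT.WordM.ep K y else 0 := by
  have hR := MJT.WordM.row (K := K) al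
  rcases m with _ | m
  · rw [if_pos rfl, pow_zero, Module.End.one_apply]
    exact hR.ri y
  · rw [if_neg (Nat.succ_ne_zero m), pow_succ', Module.End.mul_apply, r_Aw]

theorem r0_pow (m : ℕ) (y : MJF.CW K) :
    MJT.WordM.rL K [false] ((MJF.Aw al u u2 s ^ m) (MJF.iw K y)) =
      if m = 0 then 0 else u * MJT.WordM.ep K y := by
  have hR := MJT.WordM.row (K := K) al
  induction m with
  | zero =>
    rw [if_pos rfl, pow_zero, Module.End.one_apply]
    exact hR.r0i y
  | succ m ih =>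
    rw [if_neg (Nat.succ_ne_zero m), pow_succ', Module.End.mul_apply, r0_Aw, ih, r_pow]
    rcases m with _ | m
    · rw [if_pos rfl, if_pos rfl, add_zero]
    · rw [if_neg (Nat.succ_ne_zero m), if_neg (Nat.succ_ne_zero m), mul_zero, zero_add]

theorem r1_pow (m : ℕ) (y : MJF.CW K) :
    MJT.WordM.rL K [true] ((MJF.Aw al u u2 s ^ m) (MJF.iw K y)) =
      if m = 0 then 0 else u2 * s ^ m * MJT.WordM.ep K y := by
  have hR := MJT.WordM.row (K := K) al
  induction m with
  | zero =>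
    rw [if_pos rfl, pow_zero, Module.End.one_apply]
    exact hR.r1i y
  | succ m ih =>
    rw [if_neg (Nat.succ_ne_zero m), pow_succ', Module.End.mul_apply, r1_Aw, ih, r_pow]
    rcases m with _ | m
    · rw [if_pos rfl, if_pos rfl, add_zero]
      ring
    · rw [if_neg (Nat.succ_ne_zero m), if_neg (Nat.succ_ne_zero m), mul_zero, zero_add]
      ring

/-- the row of the closed process -/
theorem ep_Kc (h : IsK al tau u2 kap u s Kc) (t : Multiset ℕ) (h0 : 0 ∉ t) :
    MJT.WordM.ep K (ic tau (Kc (GradeM.mon K t))) =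
      (t.map fun k => u + u2 * s ^ k).prod := by
  have hR := MJT.WordM.row (K := K) al
  induction t using Multiset.induction_on with
  | empty =>
    rw [GradeM.mon_zero, h.one, MJF.ic_one, map_one, Multiset.map_zero, Multiset.prod_zero]
  | cons k t ih =>
    rw [Multiset.mem_cons, not_or] at h0
    have hk : k ≠ 0 := fun h => h0.1 h.symm
    rw [GradeM.mon_cons, ← Fin2M.clw_pow h hk, Multiset.map_cons, Multiset.prod_cons,
      ← ih h0.2]
    have h1 : MJF.clw K ((MJF.Aw al u u2 s ^ k)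
        (MJF.iw K (ic tau (Kc (GradeM.mon K t))))) = (MJT.WordM.wm al).cl
        ((MJF.Aw al u u2 s ^ k) (MJF.iw K (ic tau (Kc (GradeM.mon K t))))) := by
      obtain ⟨j, rfl⟩ := Nat.exists_eq_succ_of_ne_zero hk
      rw [Nat.succ_eq_add_one, pow_succ', Module.End.mul_apply]
      exact clw_Aw _
    rw [h1]
    have h2 := hR.cl ((MJF.Aw al u u2 s ^ k) (MJF.iw K (ic tau (Kc (GradeM.mon K t)))))
    refine Eq.trans h2 ?_
    rw [r0_pow, r1_pow, if_neg hk, if_neg hk]
    ring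

theorem dm_d1 (q : ℕ → K) (t : Multiset ℕ) :
    dm (d1 K) q t = (t.count 1 : K) * ((t.erase 1).map q).prod := by
  unfold dm d1
  rw [Finset.sum_eq_single 1]
  · rw [if_pos rfl, one_mul]
  · intro k _ hk
    rw [if_neg hk, zero_mul, mul_zero]
  · intro h1
    have h2 : 1 ∉ t := fun h => h1 (Multiset.mem_toFinset.mpr h)
    rw [Multiset.count_eq_zero_of_notMem h2, Nat.cast_zero, zero_mul]

theorem row (h : IsK al tau u2 kap u s Kc) (n : ℕ) (v : n.Partition) :
    coeff (expo (ones n)) (O1 al tau u2 kap u s Kc (pp K v)) =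
      al * dm (d1 K) (fun k => u + u2 * s ^ k) v.parts := by
  have hR := MJT.WordM.row (K := K) al
  have hv : 0 ∉ v.parts := fun h => absurd (v.parts_pos h) (lt_irrefl 0)
  have e1 : (pp K v : Lam K) = GradeM.mon K v.parts := rfl
  have e2 : Finsupp.single 1 n = Finsupp.single 1 v.parts.sum := by rw [v.parts_sum]
  rw [MJT.expo_ones, e1, e2]
  change coeff _ (MJT.Bx K (P1 al tau u2 kap u s Kc (MJT.Bs al (GradeM.mon K v.parts)))) = _
  rw [MJT.WMod.row_BB al (P1 al tau u2 kap u s Kc)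
    (fun m t => if m = 0 then (t.map fun k => u + u2 * s ^ k).prod else 0) ?_ v.parts hv]
  · rw [MJT.WMod.sum_ite_eq v.parts 1 1 (fun t => (t.map fun k => u + u2 * s ^ k).prod),
      one_mul, dm_d1]
    intro k hk
    have hk0 : k ≠ 0 := fun h => hv (h ▸ hk)
    by_cases hk1 : k = 1
    · rw [if_pos (by omega), if_pos hk1, hk1, Nat.cast_one]
    · rw [if_neg (by omega), if_neg hk1, mul_zero]
  · intro m t ht
    have h1 : P1 al tau u2 kap u s Kc (Polynomial.monomial m (GradeM.mon K t)) =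
        MJT.WordM.fgR K (Pa al tau u2 kap u s Kc (Polynomial.monomial m (GradeM.mon K t))) :=
      rfl
    rw [h1]
    refine (hR.F _ _ (Pa_mem h (GradeM.mem_T ht rfl))).trans ?_
    rw [Pa_monomial h, r_pow, ep_Kc h t ht]

end Op1x

/-- (Op1) -/
theorem op1 (K : Type) [Field K] [CharZero K] : Op1St K where
  comm := fun _ _ _ _ _ _ _ h n r => Op1x.comm h n r
  grade := fun _ _ _ _ _ _ _ h n => Op1x.grade h.toIsK n
  row := fun _ _ _ _ _ _ _ h n v => Op1x.row h.toIsK n v

end Vm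

end

end Pool.Agent.MJL
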