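import Pool.Agent.MJV.St
import Pool.Agent.MJL.Fin2
import Pool.Agent.MJT.RhoU
import Pool.Agent.MJT.RhoFin

/-!
(Op2) The second operator: a cycle is opened, its first letter is removed, the rest is inserted,
and the first letter touches a letter of the colour `true`.
-/

namespace Pool.Agent.MJL

open MvPolynomial Pool.Agent.MJR Pool.Agent.MJX
open Pool.Agent.MJF (ic iR)

noncomputable section

namespace Vm

section

variable {K : Type} [Field K] {al tau u2 kap u s : K} {Kc : Lam K →ₗ[K] CM K}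

/-! ### The root words -/

private theorem Op2_mono (h : IsK al tau u2 kap u s Kc) (m : ℕ) (f : Lam K) :
    Pa al tau u2 kap u s Kc (Polynomial.monomial m f) =
      (MJF.Aw al u u2 s ^ m) (MJF.iw K (ic tau (Kc f))) := by
  change iR tau (MJT.AbsM.Kh (Aop al kap u (s * u2)) (iA kap) Kc (Polynomial.monomial m f)) = _
  rw [MJT.AbsM.Kh_monomial, Fin2M.iR_pow h, MJF.iR_iA]

private theorem Op2_C (f : Lam K) :
    Pa al tau u2 kap u s Kc (Polynomial.C f) = MJF.iw K (ic tau (Kc f)) := by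
  change iR tau (MJT.AbsM.Kh (Aop al kap u (s * u2)) (iA kap) Kc (Polynomial.C f)) = _
  rw [MJT.AbsM.Kh_C, MJF.iR_iA]

private theorem Op2_X (h : IsK al tau u2 kap u s Kc) (G : LW K) :
    Pa al tau u2 kap u s Kc (Polynomial.X * G) =
      MJF.Aw al u u2 s (Pa al tau u2 kap u s Kc G) := by
  change iR tau (MJT.AbsM.Kh (Aop al kap u (s * u2)) (iA kap) Kc (Polynomial.X * G)) = _
  rw [MJT.AbsM.Kh_X_mul, MJF.iR_A (MJF.aI K) (MJF.aP K) h.h1 h.h2 h.h3 h.ht h.hq]
  rfl

/-- the root words, colours forgotten -/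
private def Op2_P (al tau u2 kap u s : K) (Kc : Lam K →ₗ[K] CM K) : LW K →ₗ[K] LW K :=
  MJT.WordM.fgR K ∘ₗ Pa al tau u2 kap u s Kc

/-- one touch more -/
private def Op2_Xi (al tau u2 kap u s : K) (Kc : Lam K →ₗ[K] CM K) : LW K →ₗ[K] LW K :=
  MJT.WordM.fgR K ∘ₗ MJF.T al true ∘ₗ Pa al tau u2 kap u s Kc

/-- the closed words, colours forgotten -/
private def Op2_Q (tau : K) (Kc : Lam K →ₗ[K] CM K) : Lam K →ₗ[K] Lam K :=
  (MJF.fgt K).toLinearMap ∘ₗ ic tau ∘ₗ Kc

private theorem Op2_Aw (x : MJF.RW K) : MJF.Aw al u u2 s x =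
    MJF.pre [false] (u • x + MJF.T al false x) +
      s • MJF.pre [true] (u2 • x + MJF.T al true x) := rfl

private theorem Op2_fgR_Aw (x : MJF.RW K) : MJT.WordM.fgR K (MJF.Aw al u u2 s x) =
    Polynomial.X * ((u + s * u2) • MJT.WordM.fgR K x + MJT.Zf al (MJT.WordM.fgR K x) +
      (s - 1) • MJT.WordM.fgR K (MJF.T al true x)) := by
  have ht : MJT.WordM.fgR K (MJF.T al false x) + MJT.WordM.fgR K (MJF.T al true x) =
      MJT.Zf al (MJT.WordM.fgR K x) := (MJT.WordM.forget al).t x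
  have hp : ∀ (t : Bool) (y : MJF.RW K), MJT.WordM.fgR K (MJF.pre [t] y) =
      Polynomial.X * MJT.WordM.fgR K y := by
    intro t y
    rw [MJT.WordM.fgR_pre, List.length_singleton, pow_one]
  rw [Op2_Aw, map_add, map_smul, hp, hp, map_add, map_add, map_smul, map_smul, ← ht]
  simp only [Algebra.smul_def, map_add, map_sub, map_mul, map_one]
  ring

private theorem Op2_PC (f : Lam K) : Op2_P al tau u2 kap u s Kc (Polynomial.C f) =
    Polynomial.C (Op2_Q tau Kc f) := by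
  change MJT.WordM.fgR K (Pa al tau u2 kap u s Kc (Polynomial.C f)) = _
  rw [Op2_C]
  exact (MJT.WordM.forget al).i _

private theorem Op2_i0 (h : IsK al tau u2 kap u s Kc) (G : LW K) :
    MJT.i0 K (Op2_P al tau u2 kap u s Kc G) = Op2_Q tau Kc (MJT.i0 K G) := by
  induction G using Polynomial.induction_on' with
  | add p q hp hq => rw [map_add, map_add, map_add, map_add, hp, hq]
  | monomial m f =>
    rcases m with _ | m
    · rw [Polynomial.monomial_zero_left, Op2_PC, MJT.i0_apply, MJT.i0_apply,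
        Polynomial.coeff_C_zero, Polynomial.coeff_C_zero]
    · rw [← Polynomial.X_mul_monomial, MJT.i0_X_mul, map_zero]
      change MJT.i0 K (MJT.WordM.fgR K (Pa al tau u2 kap u s Kc (Polynomial.X * _))) = 0
      rw [Op2_X h, Op2_fgR_Aw, MJT.i0_X_mul]

private theorem Op2_Zf_pow (h : IsKc al tau u2 kap u s Kc) (k : ℕ) (G : LW K) :
    Op2_P al tau u2 kap u s Kc ((MJT.Zf al ^ k) G) =
      (MJT.Zf al ^ k) (Op2_P al tau u2 kap u s Kc G) := by
  induction k with
  | zero => rfl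
  | succ k ih =>
    rw [pow_succ', Module.End.mul_apply, Module.End.mul_apply, ← ih]
    exact h.comm _

private theorem Op2_Mo (h : IsKc al tau u2 kap u s Kc) (k : ℕ) (f : Lam K) :
    Op2_Q tau Kc (MJT.Mo al k f) = MJT.Mo al k (Op2_Q tau Kc f) := by
  rw [MJT.Mo_apply, MJT.Mo_apply, ← Op2_i0 h.toIsK, Op2_Zf_pow h, Op2_PC]

private theorem Op2_Tq [CharZero K] (h : IsKc al tau u2 kap u s Kc) (q : Polynomial K) {n : ℕ}
    (r : ℕ) : ∀ g ∈ GradeM.S K n, MJT.Bx K ((Polynomial.aeval (MJT.Zf al) q)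
      (Op2_P al tau u2 kap u s Kc (MJT.Bs al (H al r g)))) =
      H al r (MJT.Bx K ((Polynomial.aeval (MJT.Zf al) q)
        (Op2_P al tau u2 kap u s Kc (MJT.Bs al g)))) := by
  intro g hg
  rcases n with _ | n
  · rw [MJT.WMod.Bs_S_zero al hg, MJT.WMod.Bs_S_zero al (MJT.H_S al r hg)]
    simp only [map_zero]
  · exact MJT.ext al h.h0 (MJT.dhat K al h.h0) (Op2_P al tau u2 kap u s Kc) (Op2_Q tau Kc)
      (fun G _ => h.comm G) (fun f _ => Op2_PC f) (fun k f _ => Op2_Mo h k f) q r g hg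

/-! ### The grading -/

private theorem Op2_Aw_gr {n : ℕ} {x : MJF.RW K}
    (hx : x ∈ MJT.WordM.BS K (MJT.WordM.Wn n)) :
    MJF.Aw al u u2 s x ∈ MJT.WordM.BS K (MJT.WordM.Wn (n + 1)) := by
  have hG := MJT.WordM.grad (K := K) al
  rw [Op2_Aw]
  exact Submodule.add_mem _
    (hG.x0 n _ (Submodule.add_mem _ (Submodule.smul_mem _ _ hx) (hG.t0 n _ hx)))
    (Submodule.smul_mem _ _
      (hG.x1 n _ (Submodule.add_mem _ (Submodule.smul_mem _ _ hx) (hG.t1 n _ hx))))

private theorem Op2_pow_gr {n : ℕ} (k : ℕ) {x : MJF.RW K}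
    (hx : x ∈ MJT.WordM.BS K (MJT.WordM.Wn n)) :
    (MJF.Aw al u u2 s ^ k) x ∈ MJT.WordM.BS K (MJT.WordM.Wn (k + n)) := by
  induction k with
  | zero => rw [pow_zero, zero_add]; exact hx
  | succ k ih =>
    have e1 : k + 1 + n = (k + n) + 1 := by omega
    rw [pow_succ', Module.End.mul_apply, e1]
    exact Op2_Aw_gr ih

private theorem Op2_cl0 (x : MJF.RW K) : MJT.WordM.cl0 K (MJF.Aw al u u2 s x) =
    MJF.clw K (MJF.Aw al u u2 s x) := by
  have h1 : ∀ (c : K) (y : MJF.RW K), MJF.clw K (c • y) = c • MJF.clw K y := fun c y =>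
    LinearMap.map_smul_of_tower (MJF.clw K) c y
  have h2 : ∀ (c : K) (y : MJF.RW K), MJT.WordM.cl0 K (c • y) = c • MJT.WordM.cl0 K y :=
    fun c y => LinearMap.map_smul_of_tower (MJT.WordM.cl0 K) c y
  rw [Op2_Aw, map_add (MJT.WordM.cl0 K), map_add (MJF.clw K), h1, h2, MJT.WordM.cl0_pre,
    MJT.WordM.cl0_pre]

private theorem Op2_ic_cl (h : IsK al tau u2 kap u s Kc) {k : ℕ} (hk : k ≠ 0) (f : Lam K) :
    ic tau (Kc (X k * f)) =
      MJT.WordM.cl0 K ((MJF.Aw al u u2 s ^ k) (MJF.iw K (ic tau (Kc f)))) := by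
  rw [← Fin2M.clw_pow h hk]
  obtain ⟨n, rfl⟩ := Nat.exists_eq_succ_of_ne_zero hk
  rw [Nat.succ_eq_add_one, pow_succ', Module.End.mul_apply, Op2_cl0]

private theorem Op2_ic_one : ic tau (1 : CM K) = 1 := by
  have h1 : MJF.evC tau (1 : CM K) = 1 := map_one _
  change (MJF.evC tau (1 : CM K)) (1 : MJF.CW K) = 1
  rw [h1]
  rfl

private theorem Op2_Kc_gr (h : IsK al tau u2 kap u s Kc) {n : ℕ} {f : Lam K}
    (hf : f ∈ GradeM.S K n) : ic tau (Kc f) ∈ MJT.WordM.CS K (MJT.WordM.Wcn n) := by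
  have hG := MJT.WordM.grad (K := K) al
  have h1 : ∀ σ : Multiset ℕ, 0 ∉ σ →
      ic tau (Kc (GradeM.mon K σ)) ∈ MJT.WordM.CS K (MJT.WordM.Wcn σ.sum) := by
    intro σ
    induction σ using Multiset.induction_on with
    | empty =>
      intro _
      rw [GradeM.mon_zero, h.one, Multiset.sum_zero]
      rw [Op2_ic_one]
      exact hG.e
    | cons k σ ih =>
      intro h0
      rw [Multiset.mem_cons, not_or] at h0
      rw [GradeM.mon_cons, Op2_ic_cl h (fun h => h0.1 h.symm), Multiset.sum_cons]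
      exact hG.cl _ _ (Op2_pow_gr k (hG.i _ _ (ih h0.2)))
  induction hf using Submodule.span_induction with
  | mem f hf =>
    obtain ⟨σ, h0, hs, rfl⟩ := hf
    rw [← hs]
    exact h1 σ h0
  | zero => rw [map_zero, map_zero]; exact Submodule.zero_mem _
  | add a b _ _ ha hb => rw [map_add, map_add]; exact Submodule.add_mem _ ha hb
  | smul c a _ ha => rw [map_smul, map_smul]; exact Submodule.smul_mem _ _ ha

private theorem Op2_Pa_gr (h : IsK al tau u2 kap u s Kc) {n : ℕ} {G : LW K}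
    (hf : G ∈ GradeM.T K n) :
    Pa al tau u2 kap u s Kc G ∈ MJT.WordM.BS K (MJT.WordM.Wn n) := by
  have hG := MJT.WordM.grad (K := K) al
  induction hf using Submodule.span_induction with
  | mem f hf =>
    obtain ⟨m, σ, h0, hs, rfl⟩ := hf
    rw [Op2_mono h, ← hs]
    exact Op2_pow_gr m (hG.i _ _ (Op2_Kc_gr h (GradeM.mem_S h0 rfl)))
  | zero => rw [map_zero]; exact Submodule.zero_mem _
  | add a b _ _ ha hb => rw [map_add]; exact Submodule.add_mem _ ha hb
  | smul c a _ ha => rw [map_smul]; exact Submodule.smul_mem _ _ ha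

private theorem Op2_Xi_T (h : IsK al tau u2 kap u s Kc) {n : ℕ} {G : LW K}
    (hf : G ∈ GradeM.T K n) : Op2_Xi al tau u2 kap u s Kc G ∈ GradeM.T K n := by
  have hG := MJT.WordM.grad (K := K) al
  exact hG.F _ _ (hG.t1 _ _ (Op2_Pa_gr h hf))

private theorem Op2_gr (h : IsK al tau u2 kap u s Kc) (n : ℕ) :
    ∀ g ∈ GradeM.S K n, O2 al tau u2 kap u s Kc g ∈ GradeM.S K n := by
  intro g hg
  change MJT.Bx K (Op2_Xi al tau u2 kap u s Kc (MJT.Bs al g)) ∈ _
  rcases n with _ | n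
  · rw [MJT.WMod.Bs_S_zero al hg, map_zero, map_zero]
    exact Submodule.zero_mem _
  · exact MJT.Bx_S (Op2_Xi_T h (MJT.Bs_T al hg))

private theorem Op2_Q_S (h : IsK al tau u2 kap u s Kc) {n : ℕ} {f : Lam K}
    (hf : f ∈ GradeM.S K n) : Op2_Q tau Kc f ∈ GradeM.S K n :=
  (MJT.WordM.grad (K := K) al).Fc _ _ (Op2_Kc_gr h hf)

/-! ### The commutation -/

private theorem Op2_eq (h : IsKc al tau u2 kap u s Kc) (g : Lam K) :
    H al 0 (Op2_Q tau Kc g) =
      MJT.Bx K ((Polynomial.aeval (MJT.Zf al) (Polynomial.C (u + s * u2) + Polynomial.X))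
        (Op2_P al tau u2 kap u s Kc (MJT.Bs al g))) +
      (s - 1) • O2 al tau u2 kap u s Kc g := by
  have hz : ∀ G : LW K, Op2_P al tau u2 kap u s Kc (Polynomial.X * G) =
      Polynomial.X * ((u + s * u2) • Op2_P al tau u2 kap u s Kc G +
        MJT.Zf al (Op2_P al tau u2 kap u s Kc G) +
        (s - 1) • Op2_Xi al tau u2 kap u s Kc G) := by
    intro G
    change MJT.WordM.fgR K (Pa al tau u2 kap u s Kc (Polynomial.X * G)) = _
    rw [Op2_X h.toIsK, Op2_fgR_Aw]
    rfl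
  have h1 := congrArg Tr (hz (MJT.Bs al g))
  have h3 : Op2_P al tau u2 kap u s Kc (MJT.Zf al (Polynomial.C g)) =
      MJT.Zf al (Op2_P al tau u2 kap u s Kc (Polynomial.C g)) := h.comm _
  rw [MJT.WMod.X_mul_Bs, h3, Op2_PC, MJT.Zf_C, ← H_zero_apply] at h1
  have h2 : ∀ x : LW K, (Polynomial.aeval (MJT.Zf al)
      (Polynomial.C (u + s * u2) + Polynomial.X)) x = (u + s * u2) • x + MJT.Zf al x := by
    intro x
    rw [map_add, Polynomial.aeval_C, Polynomial.aeval_X, LinearMap.add_apply,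
      Module.algebraMap_end_apply]
  rw [h1, h2, mul_add, map_add, mul_smul_comm, map_smul]
  rfl

private theorem Op2_H [CharZero K] (h : IsKc al tau u2 kap u s Kc) (hs : s ≠ 1) (n r : ℕ) :
    ∀ g ∈ GradeM.S K n, O2 al tau u2 kap u s Kc (H al r g) =
      H al r (O2 al tau u2 kap u s Kc g) := by
  intro g hg
  have h0 : H al 0 (Op2_Q tau Kc (H al r g)) = H al r (H al 0 (Op2_Q tau Kc g)) := by
    rw [MJT.comm_H_of_Mo al (Op2_Q tau Kc) (fun k f _ => Op2_Mo h k f) r g hg,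
      MJT.H0_S al (MJT.H_S al r (Op2_Q_S h.toIsK hg)), MJT.H0_S al (Op2_Q_S h.toIsK hg), map_smul]
  rw [Op2_eq h, Op2_eq h, Op2_Tq h _ r g hg, map_add (H al r), map_smul (H al r)] at h0
  exact smul_right_injective _ (sub_ne_zero.mpr hs) (add_left_cancel h0)

/-! ### The row -/

private theorem Op2_r_Aw (x : MJF.RW K) :
    MJT.WordM.rL K [] (MJF.Aw al u u2 s x) = 0 ∧
    MJT.WordM.rL K [false] (MJF.Aw al u u2 s x) =
      u * MJT.WordM.rL K [] x + MJT.WordM.rL K [false] x ∧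
    MJT.WordM.rL K [true] (MJF.Aw al u u2 s x) =
      s * (u2 * MJT.WordM.rL K [] x + MJT.WordM.rL K [true] x) := by
  rw [Op2_Aw]
  refine ⟨?_, ?_, ?_⟩
  · rw [map_add, map_smul, MJT.WordM.rL_pre_nil, MJT.WordM.rL_pre_nil, smul_zero, add_zero]
  · rw [map_add, map_smul, MJT.WordM.rL_pre_eq, MJT.WordM.rL_pre_ne (by simp), smul_zero,
      add_zero, map_add, map_smul, MJT.WordM.rL_T, smul_eq_mul]
  · rw [map_add, map_smul, MJT.WordM.rL_pre_ne (by simp), MJT.WordM.rL_pre_eq, zero_add,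
      map_add, map_smul, MJT.WordM.rL_T, smul_eq_mul, smul_eq_mul]

private theorem Op2_r_pow (m : ℕ) (y : MJF.CW K) :
    MJT.WordM.rL K [] ((MJF.Aw al u u2 s ^ m) (MJF.iw K y)) =
      (if m = 0 then MJT.WordM.ep K y else 0) ∧
    MJT.WordM.rL K [false] ((MJF.Aw al u u2 s ^ m) (MJF.iw K y)) =
      (if m = 0 then 0 else u * MJT.WordM.ep K y) ∧
    MJT.WordM.rL K [true] ((MJF.Aw al u u2 s ^ m) (MJF.iw K y)) =
      (if m = 0 then 0 else u2 * s ^ m * MJT.WordM.ep K y) := by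
  have hR := MJT.WordM.row (K := K) al
  induction m with
  | zero =>
    rw [if_pos rfl, if_pos rfl, if_pos rfl, pow_zero, Module.End.one_apply]
    exact ⟨hR.ri y, hR.r0i y, hR.r1i y⟩
  | succ m ih =>
    obtain ⟨i1, i2, i3⟩ := ih
    obtain ⟨j1, j2, j3⟩ := Op2_r_Aw (al := al) (u := u) (u2 := u2) (s := s)
      ((MJF.Aw al u u2 s ^ m) (MJF.iw K y))
    rw [pow_succ', Module.End.mul_apply, j1, j2, j3, i1, i2, i3, if_neg (Nat.succ_ne_zero m),
      if_neg (Nat.succ_ne_zero m), if_neg (Nat.succ_ne_zero m)]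
    rcases m with _ | m
    · rw [if_pos rfl, if_pos rfl, if_pos rfl]
      refine ⟨rfl, ?_, ?_⟩ <;> ring
    · rw [if_neg (Nat.succ_ne_zero m), if_neg (Nat.succ_ne_zero m),
        if_neg (Nat.succ_ne_zero m)]
      refine ⟨rfl, ?_, ?_⟩ <;> ring

private theorem Op2_ep (h : IsK al tau u2 kap u s Kc) (σ : Multiset ℕ) (h0 : 0 ∉ σ) :
    MJT.WordM.ep K (ic tau (Kc (GradeM.mon K σ))) = (σ.map fun k => u + u2 * s ^ k).prod := by
  have hR := MJT.WordM.row (K := K) al
  induction σ using Multiset.induction_on with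
  | empty =>
    rw [GradeM.mon_zero, h.one, Multiset.map_zero, Multiset.prod_zero]
    rw [Op2_ic_one, map_one]
  | cons k σ ih =>
    rw [Multiset.mem_cons, not_or] at h0
    have hk : k ≠ 0 := fun h => h0.1 h.symm
    have h2 := (congrArg (MJT.WordM.ep K) (Op2_ic_cl h hk (GradeM.mon K σ))).trans
      (hR.cl ((MJF.Aw al u u2 s ^ k) (MJF.iw K (ic tau (Kc (GradeM.mon K σ))))))
    obtain ⟨-, i2, i3⟩ := Op2_r_pow (al := al) (u := u) (u2 := u2) (s := s) k
      (ic tau (Kc (GradeM.mon K σ)))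
    rw [GradeM.mon_cons, h2, i2, i3, if_neg hk, if_neg hk, ih h0.2, Multiset.map_cons,
      Multiset.prod_cons]
    ring

private theorem Op2_row (h : IsK al tau u2 kap u s Kc) (σ : Multiset ℕ) (h0 : 0 ∉ σ) :
    coeff (Finsupp.single 1 σ.sum) (O2 al tau u2 kap u s Kc (GradeM.mon K σ)) =
      al * dm (d2 u2 s) (fun k => u + u2 * s ^ k) σ := by
  have hR := MJT.WordM.row (K := K) al
  have hG := MJT.WordM.grad (K := K) al
  change coeff _ (MJT.Bx K (Op2_Xi al tau u2 kap u s Kc (MJT.Bs al (GradeM.mon K σ)))) = _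
  rw [MJT.WMod.row_BB al (Op2_Xi al tau u2 kap u s Kc)
    (fun m σ => (if m = 0 then 0 else u2 * s ^ m) * (σ.map fun k => u + u2 * s ^ k).prod) ?_ σ h0]
  · congr 1
    rw [Finset.sum_multiset_map_count]
    unfold dm
    refine Finset.sum_congr rfl fun k hk => ?_
    have hk0 : k ≠ 0 := fun h => h0 (h ▸ Multiset.mem_toFinset.mp hk)
    unfold d2
    rw [nsmul_eq_mul]
    congr 1
    by_cases hk1 : 2 ≤ k
    · rw [if_neg (by omega), if_pos hk1]
      ring
    · rw [if_pos (by omega), if_neg hk1]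
      ring
  · intro m σ hσ
    have h1 : Op2_Xi al tau u2 kap u s Kc (Polynomial.monomial m (GradeM.mon K σ)) =
        MJT.WordM.fgR K (MJF.T al true (Pa al tau u2 kap u s Kc
          (Polynomial.monomial m (GradeM.mon K σ)))) := rfl
    have h2 := hR.F _ _ (hG.t1 _ _ (Op2_Pa_gr h (GradeM.mem_T (n := m + σ.sum) hσ rfl)))
    have h3 := hR.t1 (Pa al tau u2 kap u s Kc (Polynomial.monomial m (GradeM.mon K σ)))
    rw [h1]
    refine h2.trans (h3.trans ?_)
    rw [Op2_mono h, (Op2_r_pow m _).2.2, Op2_ep h σ hσ]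
    by_cases hm : m = 0
    · rw [if_pos hm, if_pos hm, zero_mul]
    · rw [if_neg hm, if_neg hm]

end

/-- (Op2) -/
theorem op2 (K : Type) [Field K] [CharZero K] : Op2St K where
  comm _ _ _ _ _ _ _ h hs n r := Op2_H h hs n r
  grade _ _ _ _ _ _ _ h n := Op2_gr h.toIsK n
  row al tau u2 kap u s Kc h n v := by
    have h1 := Op2_row h.toIsK v.parts (MJT.zero_notMem v)
    rw [v.parts_sum] at h1
    rw [MJT.expo_ones]
    exact h1

end Vm

end

end Pool.Agent.MJL
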