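import Pool.Agent.MJV.St

/-!
Positivity of the conjugated series with a root.
-/

namespace Pool.Agent.MJL

open MvPolynomial Pool.Agent.MJR Pool.Agent.MJX
open Pool.Agent.MJF (ic iR)

noncomputable section

namespace Vm

variable {K : Type} [Field K]

theorem Pos_Av_apply (al u w s : K) (x : RW K Bool) : Av al u w s x =
    pre [false] (u • x + Th al false x) + pre [true] (w • x + s • Th al true x) := rfl

theorem Pos_Th_smul (al : K) (t : Bool) (f : CW K Bool) (x : RW K Bool) :
    Th al t (f • x) = f • Th al t x + cat (J (al / 2) (al / 2) t f) x :=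
  T_smul _ _ _ t f x

/-- the derivation part of the insertion -/
def Pos_D (al s : K) (f : CW K Bool) : RW K Bool →ₗ[CW K Bool] RW K Bool :=
  pre [false] ∘ₗ cat (J (al / 2) (al / 2) false f) +
    (C s : CW K Bool) • (pre [true] ∘ₗ cat (J (al / 2) (al / 2) true f))

theorem Pos_D_apply (al s : K) (f : CW K Bool) (x : RW K Bool) : Pos_D al s f x =
    pre [false] (cat (J (al / 2) (al / 2) false f) x) +
      s • pre [true] (cat (J (al / 2) (al / 2) true f) x) := by
  rw [← C_smul s]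
  rfl

theorem Pos_Av_smul (al u w s : K) (f : CW K Bool) (x : RW K Bool) :
    Av al u w s (f • x) = f • Av al u w s x + Pos_D al s f x := by
  rw [Pos_Av_apply, Pos_Av_apply, Pos_D_apply, Pos_Th_smul, Pos_Th_smul]
  simp only [← C_smul, smul_add, map_add, map_smul, smul_smul, mul_comm f]
  abel

theorem Pos_J_C (w1 w2 : K) (t : Bool) (c : K) : J w1 w2 t (C c : CW K Bool) = 0 := by
  unfold J
  exact derivation_C _ _

theorem Pos_cat_J_C (w1 w2 : K) (t : Bool) (c : K) :
    cat (J w1 w2 t (C c : CW K Bool)) = (0 : RW K Bool →ₗ[CW K Bool] RW K Bool) := by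
  apply LinearMap.ext
  intro x
  rw [Pos_J_C, cat_zero, LinearMap.zero_apply]

theorem Pos_rec (al u w s : K) (x : ℕ → K) (n : ℕ) (hn : n ≠ 0) :
    pv al u w s x n = (al * (n : K))⁻¹ • ∑ k ∈ Finset.Icc 1 n,
      x k • clw K ((Av al u w s ^ k) (iw K (pv al u w s x (n - k)))) := by
  unfold pv
  rw [SSm.succ' al x n _ hn]
  congr 1
  apply Finset.sum_congr rfl
  intro k _
  congr 1
  have h := SSm.map' al x x (((clw K : RW K Bool →ₗ[CW K Bool] CW K Bool).restrictScalars K) ∘ₗ
    (Av al u w s ^ k) ∘ₗ (iw K : CW K Bool →ₗ[K] RW K Bool)) (fun j v => by rw [map_smul]) (n - k)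
    (Kv al u w s)
  exact h.symm

theorem Pos_zero (al u w s : K) (x : ℕ → K) : pv al u w s x 0 = 1 := by
  unfold pv
  rw [SSm.zero']
  rfl

/-! ### positivity -/

variable {A : Type}

theorem Pos_pp_Th [CharZero K] {al : K} {P : Subsemiring K} (hb : al - 1 ∈ P)
    (hw : al / 2 ∈ P) (t : Bool) {F : (A → K) → RW K Bool} (hF : F ∈ PP K A (PM P Bool)) :
    (fun v => Th al t (F v)) ∈ PP K A (PM P Bool) :=
  (pPm K).lin A (PM P Bool) (PM P Bool) (Th al t) (fun _ hp => PM_T P hb hw hw t hp) F hF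

theorem Pos_pp_pre {P : Subsemiring K} (L : List Bool) {F : (A → K) → RW K Bool}
    (hF : F ∈ PP K A (PM P Bool)) : (fun v => pre L (F v)) ∈ PP K A (PM P Bool) :=
  (pPm K).lin A (PM P Bool) (PM P Bool)
    ((pre L : RW K Bool →ₗ[CW K Bool] RW K Bool).restrictScalars K)
    (fun _ hp => PM_pre P L hp) F hF

theorem Pos_pp_var {P : Subsemiring K} (a : A) {F : (A → K) → RW K Bool}
    (hF : F ∈ PP K A (PM P Bool)) : (fun v => v a • F v) ∈ PP K A (PM P Bool) :=
  (pPm K).smul A P (PM P Bool) (fun _ hc _ hq => PM_smulK P hc hq) _ ((pPm K).var A P a) F hF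

theorem Pos_cg_single (L : List Bool) (f : CW K Bool) :
    cg K (Finsupp.single L f) = X (L.length + 1) * fgt K Bool f := by
  unfold cg
  rw [Finsupp.lsum_single]
  rfl

theorem Pos_fgt_mem (P : Subsemiring K) {f : CW K Bool} (hf : f ∈ PC P Bool) :
    fgt K Bool f ∈ PL P := by
  refine MC_map P (PL P) (fun c hc q hq => MC_smul P hc hq) (fgt K Bool).toLinearMap
    (fun m => ?_) hf
  change fgt K Bool (monomial m 1) ∈ PL P
  unfold fgt
  rw [aeval_monomial, map_one, one_mul]
  exact Finset.prod_induction _ (fun f => f ∈ PL P) (fun f g hf hg => MC_mul P hf hg)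
    (MC_one P) fun z _ => MC_pow P (MC_X P _) _

theorem Pos_cg_mem (P : Subsemiring K) {x : RW K Bool} (hx : x ∈ PM P Bool) :
    cg K x ∈ PL P :=
  PM_map P (PL P) (cg K).toAddMonoidHom (fun L f hf => by
    change cg K (Finsupp.single L f) ∈ _
    rw [Pos_cg_single]
    exact MC_mul P (MC_X P _) (Pos_fgt_mem P hf)) hx

theorem Pos_pp_cg {P : Subsemiring K} (e : ℕ →₀ ℕ) {F : (A → K) → RW K Bool}
    (hF : F ∈ PP K A (PM P Bool)) :
    (fun v => coeff e (cg K (F v))) ∈ PP K A P.toAddSubmonoid :=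
  (pPm K).lin A (PM P Bool) P.toAddSubmonoid (MvPolynomial.lcoeff K e ∘ₗ cg K)
    (fun _ hp => Pos_cg_mem P hp e) F hF

theorem Pos_catJ (c w1 w2 : K) (t : Bool) (f : CW K Bool) (x : RW K Bool) :
    catJ (c * w1) (c * w2) t f x = c • cat (J w1 w2 t f) x := by
  have h4 := J_add c 0 w1 w2 0 0 t f
  simp only [zero_mul, add_zero, zero_smul] at h4
  change cat (J (c * w1) (c * w2) t f) x = _
  rw [h4, ← C_smul, cat_smul, C_smul]

theorem Pos_pp_cat {c w1 w2 : K} {P : Subsemiring K} (h1 : c * w1 ∈ P) (h2 : c * w2 ∈ P)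
    (t : Bool) {f : (A → K) → CW K Bool} (hf : f ∈ PP K A (PC P Bool))
    {F : (A → K) → RW K Bool} (hF : F ∈ PP K A (PM P Bool)) :
    (fun v => c • cat (J w1 w2 t (f v)) (F v)) ∈ PP K A (PM P Bool) := by
  have e : (fun v => c • cat (J w1 w2 t (f v)) (F v)) =
      fun v => catJ (c * w1) (c * w2) t (f v) (F v) := by
    funext v
    rw [Pos_catJ]
  rw [e]
  exact (pPm K).bilin A (PC P Bool) (PM P Bool) (PM P Bool) (catJ (c * w1) (c * w2) t)
    (fun p hp q hq => PM_cat P (PM_J P h1 h2 t hp) hq) f hf F hF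

theorem posm (K : Type) [Field K] [CharZero K] (hG : GauSt) : PosSt K := by
  intro al hal P hb hinv
  have h2 : (2 : K)⁻¹ ∈ P := by
    have h := hinv 2
    exact_mod_cast h
  have hw : al / 2 ∈ P := by
    have e : al / 2 = (al - 1 + 1) * 2⁻¹ := by ring
    rw [e]
    exact mul_mem (add_mem hb (one_mem _)) h2
  have hne : ∀ n : ℕ, n ≠ 0 → al * (n : K) ≠ 0 := fun n hn =>
    mul_ne_zero hal (Nat.cast_ne_zero.mpr hn)
  have hcw : ∀ n : ℕ, n ≠ 0 → (al * (n : K))⁻¹ * (al / 2) ∈ P := by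
    intro n hn
    have hn' : (n : K) ≠ 0 := Nat.cast_ne_zero.mpr hn
    have e : (al * (n : K))⁻¹ * (al / 2) = (n : K)⁻¹ * 2⁻¹ := by
      field_simp
    rw [e]
    exact mul_mem (hinv n) h2
  obtain ⟨S, V, hS, hV, hSP, hVP⟩ := hG (Q := ℕ ⊕ Fin 3 → K) (C := CW K Bool) (M := RW K Bool)
    (fun a => Av al (a (Sum.inr 0)) (a (Sum.inr 1)) (a (Sum.inr 2)))
    (fun a f => Pos_D al (a (Sum.inr 2)) f)
    (fun _ => Th al true)
    (fun _ f => cat (J (al / 2) (al / 2) true f))
    (clw K) (iw K 1) (fun a k => C (a (Sum.inl k))) (fun n => C (al * (n : K)))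
    (fun n => C (al * (n : K))⁻¹)
    (fun a => pv al (a (Sum.inr 0)) (a (Sum.inr 1)) (a (Sum.inr 2)) (fun k => a (Sum.inl k)))
    (fun a n => PowerSeries.coeff n (lg al (PowerSeries.mk
      (pv al (a (Sum.inr 0)) (a (Sum.inr 1)) (a (Sum.inr 2)) (fun k => a (Sum.inl k))))))
    (fun a x y => map_add _ x y)
    (fun a f x => Pos_Av_smul al _ _ _ f x)
    (fun a x y => map_add _ x y)
    (fun a f x => Pos_Th_smul al true f x)
    (by
      intro a n
      apply LinearMap.ext
      intro x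
      rw [Pos_D_apply, Pos_cat_J_C, Pos_cat_J_C]
      simp)
    (fun a n => Pos_cat_J_C _ _ _ _)
    (by
      intro n hn
      rw [← C_mul, inv_mul_cancel₀ (hne n hn), C_1])
    (by
      intro i j
      rw [← C_add, Nat.cast_add, mul_add])
    (fun a => Pos_zero _ _ _ _ _)
    (by
      intro a n hn
      have h := Pos_rec al (a (Sum.inr 0)) (a (Sum.inr 1)) (a (Sum.inr 2))
        (fun k => a (Sum.inl k)) n hn
      rw [h, ← smul_eq_C_mul, smul_smul, mul_inv_cancel₀ (hne n hn), one_smul]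
      refine Finset.sum_congr rfl fun k _ => ?_
      rw [smul_eq_C_mul, Fin1.iter_eq, ← Fin1.iw_smul])
    (by
      intro a
      refine (lgm K).zero al _ ?_
      rw [← PowerSeries.coeff_zero_eq_constantCoeff_apply, PowerSeries.coeff_mk, Pos_zero])
    (by
      intro a n
      have hc : PowerSeries.constantCoeff (PowerSeries.mk (pv al (a (Sum.inr 0)) (a (Sum.inr 1))
          (a (Sum.inr 2)) (fun k => a (Sum.inl k)))) = 1 := by
        rw [← PowerSeries.coeff_zero_eq_constantCoeff_apply, PowerSeries.coeff_mk, Pos_zero]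
      have h := (lgm K).mul al _ hc n
      rw [PowerSeries.coeff_mul, PowerSeries.coeff_mk] at h
      rw [← smul_eq_C_mul, ← h]
      refine Finset.sum_congr rfl fun p _ => ?_
      rw [PowerSeries.coeff_mk])
    (PP K (ℕ ⊕ Fin 3) (PC P Bool)) (PP K (ℕ ⊕ Fin 3) (PM P Bool))
    ((pPm K).const _ (PM P Bool) (iw K 1) (PM_single P [] (MC_one P)))
    (by
      intro F hF
      have h1 := PP_add (PM P Bool) (Pos_pp_var (Sum.inr 0) hF) (Pos_pp_Th hb hw false hF)
      have h3 := PP_add (PM P Bool) (Pos_pp_var (Sum.inr 1) hF)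
        (Pos_pp_var (Sum.inr 2) (Pos_pp_Th hb hw true hF))
      exact PP_add (PM P Bool) (Pos_pp_pre [false] h1) (Pos_pp_pre [true] h3))
    (fun F hF => Pos_pp_Th hb hw true hF)
    (by
      intro F hF k
      have h := (conem K Bool (pPm K) (rul K Bool) (rulA K Bool)).clw _ P F hF (Sum.inl k)
      have e : (fun v : ℕ ⊕ Fin 3 → K => (C (v (Sum.inl k)) : CW K Bool) * clw K (F v)) =
          fun v => v (Sum.inl k) • clw K (F v) := by
        funext v
        rw [smul_eq_C_mul]
      rw [e]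
      exact h)
    (by
      intro F hF k
      have e : (fun v : ℕ ⊕ Fin 3 → K => (C (v (Sum.inl k)) : CW K Bool) • F v) =
          fun v => v (Sum.inl k) • F v := by
        funext v
        rw [C_smul]
      rw [e]
      exact Pos_pp_var (Sum.inl k) hF)
    (by
      intro n hn f hf F hF
      have e : (fun v : ℕ ⊕ Fin 3 → K => (C (al * (n : K))⁻¹ : CW K Bool) •
          Pos_D al (v (Sum.inr 2)) (f v) (F v)) =
          fun v => pre [false] ((al * (n : K))⁻¹ • cat (J (al / 2) (al / 2) false (f v)) (F v)) +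
            v (Sum.inr 2) •
              pre [true] ((al * (n : K))⁻¹ • cat (J (al / 2) (al / 2) true (f v)) (F v)) := by
        funext v
        have key : ∀ (s : List Bool) (x : RW K Bool),
            pre s ((al * (n : K))⁻¹ • x) = (al * (n : K))⁻¹ • pre s x := by
          intro s x
          rw [← C_smul, map_smul, C_smul]
        rw [Pos_D_apply, C_smul, smul_add, key, key,
          smul_comm (al * (n : K))⁻¹ (v (Sum.inr 2))]
      rw [e]
      exact PP_add (PM P Bool)
        (Pos_pp_pre [false] (Pos_pp_cat (hcw n hn) (hcw n hn) false hf hF))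
        (Pos_pp_var (Sum.inr 2) (Pos_pp_pre [true]
          (Pos_pp_cat (hcw n hn) (hcw n hn) true hf hF))))
    (by
      intro n hn f hf F hF
      have e : (fun v : ℕ ⊕ Fin 3 → K => (C (al * (n : K))⁻¹ : CW K Bool) •
          cat (J (al / 2) (al / 2) true (f v)) (F v)) =
          fun v => (al * (n : K))⁻¹ • cat (J (al / 2) (al / 2) true (f v)) (F v) := by
        funext v
        rw [C_smul]
      rw [e]
      exact Pos_pp_cat (hcw n hn) (hcw n hn) true hf hF)
  have hrv : ∀ (a : ℕ ⊕ Fin 3 → K) (n : ℕ), ∑ k ∈ Finset.Icc 1 n,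
      (C (a (Sum.inl k)) : CW K Bool) • (⇑(Av al (a (Sum.inr 0)) (a (Sum.inr 1))
        (a (Sum.inr 2))))^[k - 1] (pv al (a (Sum.inr 0)) (a (Sum.inr 1)) (a (Sum.inr 2))
        (fun k => a (Sum.inl k)) (n - k) • iw K 1) =
      rv al (a (Sum.inr 0)) (a (Sum.inr 1)) (a (Sum.inr 2)) (fun k => a (Sum.inl k)) n := by
    intro a n
    unfold rv
    refine Finset.sum_congr rfl fun k _ => ?_
    rw [C_smul, Fin1.iter_eq, ← Fin1.iw_smul]
  refine ⟨S, V, ?_, ?_, ?_, ?_⟩
  · intro a n
    rw [← hrv a n]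
    exact hS a n
  · intro a n
    rw [← hrv a n]
    exact hV a n
  · intro n e
    exact Pos_pp_cg e (hSP n)
  · intro n e
    exact Pos_pp_cg e (hVP n)

end Vm

end

end Pool.Agent.MJL
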