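import Pool.Agent.MJV.St
import Pool.Agent.MJL.Homm
import Pool.Agent.MJL.Lgm
import Pool.Agent.MJL.Alg
import Pool.Agent.MJR.GradeM

/-!
# MJV, module Psi: the derivative in the third alphabet, the specialisation and the logarithm
-/

namespace Pool.Agent.MJL

open MvPolynomial Pool.Agent.MJR Pool.Agent.MJX
open Pool.Agent.MJF (ic iR)

noncomputable section

namespace Vm

namespace Psi

variable {K : Type} [Field K]

theorem Dd_X0 (δ : ℕ → K) (k : ℕ) : Dd δ (X (0, k)) = 0 := by
  unfold Dd
  rw [mkDerivation_X]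
  exact if_neg (by decide : ¬ (0 : Fin 3) = 2)

theorem Dd_X1 (δ : ℕ → K) (k : ℕ) : Dd δ (X (1, k)) = 0 := by
  unfold Dd
  rw [mkDerivation_X]
  exact if_neg (by decide : ¬ (1 : Fin 3) = 2)

theorem Dd_X2 (δ : ℕ → K) (k : ℕ) : Dd δ (X (2, k)) = C (δ k) := by
  unfold Dd
  rw [mkDerivation_X]
  exact if_pos rfl

theorem Dd_ms0 (δ : ℕ → K) (s : Multiset ℕ) : Dd δ (Hom.ms K 0 s) = 0 := by
  induction s using Multiset.induction_on with
  | empty =>
    unfold Hom.ms
    rw [Multiset.map_zero, Multiset.prod_zero, Derivation.map_one_eq_zero]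
  | cons a s ih => rw [Hom.ms_cons, Derivation.leibniz, ih, Dd_X0, smul_zero, smul_zero, add_zero]

theorem Dd_ms1 (δ : ℕ → K) (s : Multiset ℕ) : Dd δ (Hom.ms K 1 s) = 0 := by
  induction s using Multiset.induction_on with
  | empty =>
    unfold Hom.ms
    rw [Multiset.map_zero, Multiset.prod_zero, Derivation.map_one_eq_zero]
  | cons a s ih => rw [Hom.ms_cons, Derivation.leibniz, ih, Dd_X1, smul_zero, smul_zero, add_zero]

theorem dm_eq (δ q : ℕ → K) (s : Multiset ℕ) :
    dm δ q s = (s.map fun k => δ k * ((s.erase k).map q).prod).sum := by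
  unfold dm
  rw [Finset.sum_multiset_map_count]
  refine Finset.sum_congr rfl fun k _ => ?_
  rw [nsmul_eq_mul]

theorem dm_cons (δ q : ℕ → K) (k : ℕ) (s : Multiset ℕ) :
    dm δ q (k ::ₘ s) = q k * dm δ q s + (s.map q).prod * δ k := by
  rw [dm_eq, dm_eq, Multiset.map_cons, Multiset.sum_cons, Multiset.erase_cons_head]
  have h : (s.map fun j => δ j * (((k ::ₘ s).erase j).map q).prod) =
      s.map fun j => q k * (δ j * ((s.erase j).map q).prod) := by
    refine Multiset.map_congr rfl fun j hj => ?_
    rw [Multiset.erase_cons_tail_of_mem hj, Multiset.map_cons, Multiset.prod_cons]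
    ring
  rw [h, Multiset.sum_map_mul_left]
  ring

theorem sp_Dd_ms2 (δ x q : ℕ → K) (s : Multiset ℕ) :
    sp x q (Dd δ (Hom.ms K 2 s)) = C (dm δ q s) := by
  induction s using Multiset.induction_on with
  | empty =>
    unfold Hom.ms
    rw [Multiset.map_zero, Multiset.prod_zero, Derivation.map_one_eq_zero, dm_eq,
      Multiset.map_zero, Multiset.sum_zero, map_zero, map_zero]
  | cons a s ih =>
    rw [Hom.ms_cons, Derivation.leibniz, smul_eq_mul, smul_eq_mul, map_add, map_mul, map_mul, ih,
      Dd_X2, Hom.sp_X2, Hom.sp_ms2, dm_cons, C_add, C_mul, C_mul]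
    congr 2
    unfold sp
    exact aeval_C _ _

theorem sp_gen (δ x q : ℕ → K) (t m v : Multiset ℕ) :
    sp x q (Dd δ (Hom.ms K 0 t * Hom.ms K 1 m * Hom.ms K 2 v)) =
      monomial (Multiset.toFinsupp m) ((t.map x).prod * dm δ q v) := by
  rw [Derivation.leibniz, Derivation.leibniz, Dd_ms0, Dd_ms1, smul_zero, smul_zero, add_zero,
    smul_zero, add_zero, smul_eq_mul, map_mul, map_mul, Hom.sp_ms0, Hom.sp_ms1, sp_Dd_ms2,
    C_mul_monomial, mul_comm, C_mul_monomial, mul_one, mul_comm]

theorem sp_gen' (δ x q : ℕ → K) {n : ℕ} (t m v : n.Partition) :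
    sp x q (Dd δ (pa 0 t * pa 1 m * pa 2 v)) =
      monomial (expo m) ((t.parts.map x).prod * dm δ q v.parts) := by
  rw [Hom.pa_eq, Hom.pa_eq, Hom.pa_eq, sp_gen]
  rfl

theorem mon_eq (s : Multiset ℕ) : GradeM.mon K s = monomial (Multiset.toFinsupp s) 1 := by
  induction s using Multiset.induction_on with
  | empty =>
    rw [GradeM.mon_zero]
    simp
  | cons a s ih =>
    rw [GradeM.mon_cons, ih, ← Multiset.singleton_add, map_add,
      Multiset.toFinsupp_singleton, X, monomial_mul, one_mul]

theorem logm (al : K) (F : PowerSeries (B3 K)) (hF : PowerSeries.constantCoeff F = 1)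
    (δ x q : ℕ → K) (E : ℕ → Lam K)
    (hE : ∀ n, ∑ p ∈ Finset.HasAntidiagonal.antidiagonal n,
      sp x q (PowerSeries.coeff p.1 F) * E p.2 = sp x q (Dd δ (PowerSeries.coeff n F)))
    (n : ℕ) : sp x q (Dd δ (PowerSeries.coeff n (lg al F))) = (al * (n : K)) • E n := by
  set f : ℕ → Lam K := fun i => sp x q (PowerSeries.coeff i F) with hf
  set df : ℕ → Lam K := fun i => sp x q (Dd δ (PowerSeries.coeff i F)) with hdf
  set g : ℕ → Lam K := fun i => sp x q (PowerSeries.coeff i (lg al F)) with hg
  set dg : ℕ → Lam K := fun i => sp x q (Dd δ (PowerSeries.coeff i (lg al F))) with hdg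
  have f0 : f 0 = 1 := by
    rw [hf]
    change sp x q (PowerSeries.coeff 0 F) = 1
    rw [PowerSeries.coeff_zero_eq_constantCoeff_apply, hF, map_one]
  have hm : ∀ n, ∑ p ∈ Finset.HasAntidiagonal.antidiagonal n,
      PowerSeries.coeff p.1 (lg al F) * PowerSeries.coeff p.2 F =
        (al * (n : K)) • PowerSeries.coeff n F := by
    intro n
    rw [← (lgm K).mul al F hF n, PowerSeries.coeff_mul]
  have hA : ∀ n, ∑ p ∈ Finset.HasAntidiagonal.antidiagonal n, g p.1 * f p.2 =
      (al * (n : K)) • f n := by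
    intro n
    have h := congrArg (sp x q) (hm n)
    rw [map_sum, map_smul] at h
    rw [← h]
    refine Finset.sum_congr rfl fun p _ => ?_
    rw [map_mul]
  have hB : ∀ n, ∑ p ∈ Finset.HasAntidiagonal.antidiagonal n, (g p.1 * df p.2 + f p.2 * dg p.1) =
      (al * (n : K)) • df n := by
    intro n
    have h := congrArg (fun z => sp x q (Dd δ z)) (hm n)
    simp only [map_sum, map_smul, Derivation.leibniz, smul_eq_mul, map_add, map_mul,
      Derivation.map_smul] at h
    exact h
  have hC : ∀ n, ∑ p ∈ Finset.HasAntidiagonal.antidiagonal n, f p.1 * E p.2 = df n := hE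
  -- swap
  have hsw : ∀ (n : ℕ) (u v : ℕ → Lam K), ∑ p ∈ Finset.HasAntidiagonal.antidiagonal n,
      u p.2 * v p.1 = ∑ p ∈ Finset.HasAntidiagonal.antidiagonal n, u p.1 * v p.2 := by
    intro n u v
    rw [← Finset.Nat.sum_antidiagonal_swap]
    rfl
  have hD : ∀ n, ∑ p ∈ Finset.HasAntidiagonal.antidiagonal n, g p.1 * df p.2 =
      ∑ p ∈ Finset.HasAntidiagonal.antidiagonal n, (al * (p.1 : K)) • f p.1 * E p.2 := by
    intro n
    have h1 := Alg.tri (M := Lam K) n fun i j k => g i * (f j * E k)
    calc ∑ p ∈ Finset.HasAntidiagonal.antidiagonal n, g p.1 * df p.2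
        = ∑ p ∈ Finset.HasAntidiagonal.antidiagonal n,
            ∑ r ∈ Finset.HasAntidiagonal.antidiagonal p.2, g p.1 * (f r.1 * E r.2) := by
          refine Finset.sum_congr rfl fun p _ => ?_
          rw [← hC p.2, Finset.mul_sum]
      _ = ∑ p ∈ Finset.HasAntidiagonal.antidiagonal n,
            ∑ r ∈ Finset.HasAntidiagonal.antidiagonal p.1, g r.1 * (f r.2 * E p.2) := h1
      _ = _ := by
          refine Finset.sum_congr rfl fun p _ => ?_
          rw [← hA p.1, Finset.sum_mul]
          refine Finset.sum_congr rfl fun r _ => ?_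
          rw [mul_assoc]
  have hEq : dg = fun n : ℕ => (al * (n : K)) • E n := by
    refine Alg.conv_inj (C := Lam K) (M := Lam K) f0 fun n => ?_
    unfold Alg.conv
    have h1 := hB n
    rw [Finset.sum_add_distrib, hD n, hsw n f dg, ← hC n, Finset.smul_sum] at h1
    have h2 : ∑ p ∈ Finset.HasAntidiagonal.antidiagonal n, f p.1 * dg p.2 =
        ∑ p ∈ Finset.HasAntidiagonal.antidiagonal n, (al * (n : K)) • (f p.1 * E p.2) -
        ∑ p ∈ Finset.HasAntidiagonal.antidiagonal n, (al * (p.1 : K)) • f p.1 * E p.2 := by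
      rw [← h1]
      abel
    change ∑ p ∈ Finset.HasAntidiagonal.antidiagonal n, f p.1 * dg p.2 =
      ∑ p ∈ Finset.HasAntidiagonal.antidiagonal n, f p.1 * ((al * (p.2 : K)) • E p.2)
    rw [h2, ← Finset.sum_sub_distrib]
    refine Finset.sum_congr rfl fun p hp => ?_
    rw [Finset.HasAntidiagonal.mem_antidiagonal] at hp
    rw [← hp, smul_mul_assoc, ← sub_smul, mul_smul_comm]
    congr 1
    push_cast
    ring
  exact congrFun hEq n

end Psi

/-- (Psi) -/
theorem psim (K : Type) [Field K] : PsiSt K where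
  spe := by
    classical
    intro δ x q n f hf m
    unfold H3 at hf
    induction hf using Submodule.span_induction with
    | mem f hf =>
      obtain ⟨⟨t, m', v⟩, rfl⟩ := hf
      change coeff (expo m) (sp x q (Dd δ (pa 0 t * pa 1 m' * pa 2 v))) = ∑ t', ∑ v',
        coeff (expo3 t' m v') (pa 0 t * pa 1 m' * pa 2 v) *
          ((t'.parts.map x).prod * dm δ q v'.parts)
      rw [Psi.sp_gen', Hom.gen_eq]
      simp only [coeff_monomial]
      have h3 : ∀ t' v' : n.Partition, (if expo3 t m' v = expo3 t' m v' then (1 : K) else 0) =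
          if t = t' then (if m' = m then (if v = v' then 1 else 0) else 0) else 0 := by
        intro t' v'
        by_cases h : expo3 t m' v = expo3 t' m v'
        · obtain ⟨e1, e2, e3⟩ := PhiM.expo3_inj h
          rw [if_pos h, if_pos e1, if_pos e2, if_pos e3]
        · rw [if_neg h]
          split_ifs with e1 e2 e3
          · exact absurd (by rw [e1, e2, e3]) h
          · rfl
          · rfl
          · rfl
      simp only [h3]
      by_cases hm : m' = m
      · subst hm
        simp
      · have hm' : expo m' ≠ expo m := fun h => hm (Hom.expo_inj h)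
        simp [hm, hm']
    | zero => simp
    | add f g _ _ hf hg =>
      rw [map_add, map_add, coeff_add, hf, hg, ← Finset.sum_add_distrib]
      refine Finset.sum_congr rfl fun t _ => ?_
      rw [← Finset.sum_add_distrib]
      refine Finset.sum_congr rfl fun v _ => ?_
      rw [coeff_add]
      ring
    | smul c f _ hf =>
      rw [Derivation.map_smul, map_smul, coeff_smul, hf, smul_eq_mul, Finset.mul_sum]
      refine Finset.sum_congr rfl fun t _ => ?_
      rw [Finset.mul_sum]
      refine Finset.sum_congr rfl fun v _ => ?_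
      rw [coeff_smul, smul_eq_mul]
      ring
  sp0 := by
    intro δ x q n f hf
    unfold H3 at hf
    induction hf using Submodule.span_induction with
    | mem f hf =>
      obtain ⟨⟨t, m', v⟩, rfl⟩ := hf
      change sp x q (Dd δ (pa 0 t * pa 1 m' * pa 2 v)) ∈ GradeM.S K n
      have h1 : GradeM.mon K m'.parts ∈ GradeM.S K n :=
        GradeM.mem_S (fun h => absurd (m'.parts_pos h) (lt_irrefl 0)) m'.parts_sum
      have h2 := Submodule.smul_mem (GradeM.S K n) ((t.parts.map x).prod * dm δ q v.parts) h1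
      rw [Psi.mon_eq, smul_monomial, smul_eq_mul, mul_one] at h2
      rw [Psi.sp_gen']
      exact h2
    | zero =>
      rw [map_zero, map_zero]
      exact Submodule.zero_mem _
    | add f g _ _ hf hg =>
      rw [map_add, map_add]
      exact Submodule.add_mem _ hf hg
    | smul c f _ hf =>
      rw [Derivation.map_smul, map_smul]
      exact Submodule.smul_mem _ _ hf
  log := fun al F hF δ x q E hE n => Psi.logm al F hF δ x q E hE n

end Vm

end

end Pool.Agent.MJL
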