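import Pool.Agent.MJV.Fin
import Pool.Agent.MJV.Jk
import Pool.Agent.MJV.Bsx
import Pool.Agent.MJV.Ex
import Pool.Agent.MJV.Op1
import Pool.Agent.MJV.Op2
import Pool.Agent.MJV.Fre
import Pool.Agent.MJV.Psi
import Pool.Agent.MJV.Pos
import Pool.Agent.MJV.ExtV
import Pool.Agent.MJV.Cmb

/-!
All statements are proved.
-/

namespace Pool.Agent.MJL

namespace Vm

theorem hyp : Hyp where
  jk := jk
  bsx := bsx QA
  ex := ex
  o1 := op1 QA
  o2 := op2 QA
  psi := psim QA
  pos := posm QA gau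
  fre := fre QA
  ext := extV QA (pPm QA)
  cmb := cmb QA

end Vm

end Pool.Agent.MJL
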