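import Pool.Agent.MJV.Hlf

/-!
The derivatives of the series `phi` are the processes with a root.
-/

namespace Pool.Agent.MJL

open MvPolynomial Pool.Agent.MJR Pool.Agent.MJX
open Pool.Agent.MJF (ic iR)

noncomputable section

namespace Vm

section
variable {K : Type} [Field K] [CharZero K]

/-- The root words of the generating function. -/
theorem Pa_Bs (hB : BsxSt K) {al tau u2 kap u s : K} {Kc : Lam K →ₗ[K] CM K}
    (h : IsK al tau u2 kap u s Kc) (x : ℕ → K) (n : ℕ) :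
    Pa al tau u2 kap u s Kc (MJT.Bs al (Gx al x n)) = Ra al tau u2 u s Kc x n := by
  rw [hB al h.h0 x n, map_sum]
  unfold Ra
  refine Finset.sum_congr rfl fun k _ => ?_
  rw [map_smul]
  congr 1
  change iR tau (MJT.AbsM.Kh (Aop al kap u (s * u2)) (iA kap) Kc
    (Polynomial.monomial (k - 1) (Gx al x (n - k)))) = _
  rw [MJT.AbsM.Kh_monomial, Fin2M.iR_pow h, MJF.iR_iA]

omit [CharZero K] in
theorem Gx_S (al : K) (x : ℕ → K) (n : ℕ) : Gx al x n ∈ GradeM.S K n := by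
  unfold Gx
  refine Submodule.sum_mem _ fun r _ => Submodule.smul_mem _ _ ?_
  exact GradeM.mem_S (fun h => absurd (r.parts_pos h) (lt_irrefl 0)) r.parts_sum

omit [CharZero K] in
/-- Two elements of the same degree with the same coefficients. -/
theorem S_ext {n : ℕ} {f g : Lam K} (hf : f ∈ GradeM.S K n) (hg : g ∈ GradeM.S K n)
    (h : ∀ m : n.Partition, coeff (expo m) f = coeff (expo m) g) : f = g := by
  rw [← MJT.Pj_S hf, ← MJT.Pj_S hg, MJT.Pj_apply, MJT.Pj_apply]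
  refine Finset.sum_congr rfl fun m _ => ?_
  beta_reduce
  rw [h m]

end

/-- The formula for one operator. -/
theorem rot_gen (hJk : JkSt) (hPs : PsiSt QA) {J : (n : ℕ) → n.Partition → n.Partition → QA}
    (hJ : ∀ n, IsJack RatFunc.X n (J n)) (O : Lam QA →ₗ[QA] Lam QA)
    (hc : ∀ n r : ℕ, ∀ h ∈ GradeM.S QA n, O (H RatFunc.X r h) = H RatFunc.X r (O h))
    (hg : ∀ n : ℕ, ∀ h ∈ GradeM.S QA n, O h ∈ GradeM.S QA n) (δ q : ℕ → QA)
    (hr : ∀ (n : ℕ) (v : n.Partition), coeff (expo (ones n)) (O (pp QA v)) =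
      RatFunc.X * dm δ q v.parts) (x : ℕ → QA) (n : ℕ) :
    O (Gx RatFunc.X x n) =
      (RatFunc.X : QA) • sp x q (Dd δ (PowerSeries.coeff n (phi RatFunc.X J))) := by
  have hH := (homm QA).phi (RatFunc.X : QA) J n
  refine S_ext (hg n _ (Gx_S _ _ _)) (Submodule.smul_mem _ _ (hPs.sp0 δ x q n _ hH)) fun m => ?_
  rw [hJk J hJ n O (hc n) (hg n) x m, coeff_smul, hPs.spe δ x q n _ hH m, smul_eq_mul,
    Finset.mul_sum]
  refine Finset.sum_congr rfl fun t _ => ?_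
  rw [Finset.mul_sum]
  refine Finset.sum_congr rfl fun v _ => ?_
  rw [hr]
  ring

/-- The derivatives of `phi` and the process. -/
theorem rot (hJk : JkSt) (hB : BsxSt QA) (hE : ExSt) (h1 : Op1St QA) (h2 : Op2St QA)
    (hPs : PsiSt QA) {J : (n : ℕ) → n.Partition → n.Partition → QA}
    (hJ : ∀ n, IsJack RatFunc.X n (J n)) (v u s : QA) (hv : v = 1 ∨ v = -RatFunc.X)
    (x : ℕ → QA) (n : ℕ) :
    cg QA (rv RatFunc.X u (s * v) s x n) = (RatFunc.X : QA) •
      sp x (fun k => u + v * s ^ k) (Dd (d1 QA) (PowerSeries.coeff n (phi RatFunc.X J))) ∧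
    (s ≠ 1 → cg QA (Th RatFunc.X true (rv RatFunc.X u (s * v) s x n)) = (RatFunc.X : QA) •
      sp x (fun k => u + v * s ^ k) (Dd (d2 v s) (PowerSeries.coeff n (phi RatFunc.X J)))) := by
  obtain ⟨tau, kap, Kc, hK⟩ := hE v u s hv
  have hH := hlf QA
  constructor
  · rw [hH.hr _ _ _ _ _ _ Kc hK.toIsK, hH.hc, ← Pa_Bs hB hK.toIsK]
    exact rot_gen hJk hPs hJ (O1 RatFunc.X tau v kap u s Kc) (h1.comm _ _ _ _ _ _ Kc hK)
      (h1.grade _ _ _ _ _ _ Kc hK) (d1 QA) (fun k => u + v * s ^ k)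
      (h1.row _ _ _ _ _ _ Kc hK) x n
  · intro hs
    rw [hH.hr _ _ _ _ _ _ Kc hK.toIsK, hH.ht _ _ _ _ _ _ Kc hK.toIsK, hH.hc,
      ← Pa_Bs hB hK.toIsK]
    exact rot_gen hJk hPs hJ (O2 RatFunc.X tau v kap u s Kc) (h2.comm _ _ _ _ _ _ Kc hK hs)
      (h2.grade _ _ _ _ _ _ Kc hK) (d2 v s) (fun k => u + v * s ^ k)
      (h2.row _ _ _ _ _ _ Kc hK) x n

/-- The series `phi` and the process. -/
theorem truV {J : (n : ℕ) → n.Partition → n.Partition → QA}
    (hJ : ∀ n, IsJack RatFunc.X n (J n)) (v u s : QA) (hv : v = 1 ∨ v = -RatFunc.X)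
    (x : ℕ → QA) (n : ℕ) : fgt QA Bool (pv RatFunc.X u (s * v) s x n) =
      sp x (fun k => u + v * s ^ k) (PowerSeries.coeff n (phi RatFunc.X J)) := by
  obtain ⟨tau, kap, Kc, hK, he⟩ := truA J hJ v u s hv
  rw [he, (hlf QA).hp _ _ _ _ _ _ Kc hK]
  rfl

end Vm

end

end Pool.Agent.MJL
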