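import Pool.Agent.MJV.Defs

/-!
Statements of the modules, as propositions.
-/

namespace Pool.Agent.MJL

open MvPolynomial Pool.Agent.MJR Pool.Agent.MJX
open Pool.Agent.MJF (ic iR)

noncomputable section

namespace Vm

/-- (Jk) An operator which commutes with all `H` and preserves the degree, applied to the
generating function of the power sums, is a combination of the coefficients of `phi`, with the
row of `p_1 ^ n` as weights. -/
def JkSt : Prop :=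
  ∀ J : (n : ℕ) → n.Partition → n.Partition → QA, (∀ n, IsJack RatFunc.X n (J n)) →
    ∀ (n : ℕ) (O : Lam QA →ₗ[QA] Lam QA),
    (∀ r : ℕ, ∀ h ∈ GradeM.S QA n, O (H RatFunc.X r h) = H RatFunc.X r (O h)) →
    (∀ h ∈ GradeM.S QA n, O h ∈ GradeM.S QA n) →
    ∀ (x : ℕ → QA) (m : n.Partition), coeff (expo m) (O (Gx RatFunc.X x n)) =
      ∑ t : n.Partition, ∑ v : n.Partition,
        coeff (expo3 t m v) (PowerSeries.coeff n (phi RatFunc.X J)) *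
          ((t.parts.map x).prod * coeff (expo (ones n)) (O (pp QA v)))

/-- (Bsx) Opening a cycle of the generating function of the power sums. -/
def BsxSt (K : Type) [Field K] : Prop :=
  ∀ al : K, al ≠ 0 → ∀ (x : ℕ → K) (n : ℕ), MJT.Bs al (Gx al x n) =
    ∑ k ∈ Finset.Icc 1 n, x k • (Polynomial.monomial (k - 1) (Gx al x (n - k)) : LW K)

/-- (Ex) Existence of the process of the arc model. -/
def ExSt : Prop := ∀ v u s : QA, v = 1 ∨ v = -RatFunc.X →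
  ∃ (tau kap : QA) (Kc : Lam QA →ₗ[QA] CM QA), IsKc RatFunc.X tau v kap u s Kc

/-- (Op1) The first operator. -/
structure Op1St (K : Type) [Field K] : Prop where
  comm : ∀ (al tau u2 kap u s : K) (Kc : Lam K →ₗ[K] CM K), IsKc al tau u2 kap u s Kc →
    ∀ n r : ℕ, ∀ h ∈ GradeM.S K n, O1 al tau u2 kap u s Kc (H al r h) =
      H al r (O1 al tau u2 kap u s Kc h)
  grade : ∀ (al tau u2 kap u s : K) (Kc : Lam K →ₗ[K] CM K), IsKc al tau u2 kap u s Kc →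
    ∀ n : ℕ, ∀ h ∈ GradeM.S K n, O1 al tau u2 kap u s Kc h ∈ GradeM.S K n
  row : ∀ (al tau u2 kap u s : K) (Kc : Lam K →ₗ[K] CM K), IsKc al tau u2 kap u s Kc →
    ∀ (n : ℕ) (v : n.Partition), coeff (expo (ones n)) (O1 al tau u2 kap u s Kc (pp K v)) =
      al * dm (d1 K) (fun k => u + u2 * s ^ k) v.parts

/-- (Op2) The second operator. -/
structure Op2St (K : Type) [Field K] : Prop where
  comm : ∀ (al tau u2 kap u s : K) (Kc : Lam K →ₗ[K] CM K), IsKc al tau u2 kap u s Kc →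
    s ≠ 1 → ∀ n r : ℕ, ∀ h ∈ GradeM.S K n, O2 al tau u2 kap u s Kc (H al r h) =
      H al r (O2 al tau u2 kap u s Kc h)
  grade : ∀ (al tau u2 kap u s : K) (Kc : Lam K →ₗ[K] CM K), IsKc al tau u2 kap u s Kc →
    ∀ n : ℕ, ∀ h ∈ GradeM.S K n, O2 al tau u2 kap u s Kc h ∈ GradeM.S K n
  row : ∀ (al tau u2 kap u s : K) (Kc : Lam K →ₗ[K] CM K), IsKc al tau u2 kap u s Kc →
    ∀ (n : ℕ) (v : n.Partition), coeff (expo (ones n)) (O2 al tau u2 kap u s Kc (pp K v)) =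
      al * dm (d2 u2 s) (fun k => u + u2 * s ^ k) v.parts

/-- (Hlf) The process with the separate weights `u`, `s * u2`, `s` is the arc process. -/
structure HlfSt (K : Type) [Field K] : Prop where
  hp : ∀ (al tau u2 kap u s : K) (Kc : Lam K →ₗ[K] CM K), IsK al tau u2 kap u s Kc →
    ∀ (x : ℕ → K) (n : ℕ), pv al u (s * u2) s x n = ic tau (Kc (Gx al x n))
  hr : ∀ (al tau u2 kap u s : K) (Kc : Lam K →ₗ[K] CM K), IsK al tau u2 kap u s Kc →
    ∀ (x : ℕ → K) (n : ℕ), rv al u (s * u2) s x n = Ra al tau u2 u s Kc x n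
  ht : ∀ (al tau u2 kap u s : K) (Kc : Lam K →ₗ[K] CM K), IsK al tau u2 kap u s Kc →
    ∀ (x : ℕ → K) (n : ℕ), Th al true (Ra al tau u2 u s Kc x n) =
      MJF.T al true (Ra al tau u2 u s Kc x n)
  hc : ∀ y : MJF.RW K, cg K y = MJT.Bx K (MJT.WordM.fgR K y)

/-- (Gau) Conjugation of the process with a root, and positivity; `B` is one more first order
operator. -/
def GauSt : Prop :=
  ∀ {Q C M : Type} [CommRing C] [AddCommGroup M] [Module C M]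
    (A : Q → M → M) (D : Q → C → M →ₗ[C] M) (B : Q → M → M) (DB : Q → C → M →ₗ[C] M)
    (cl : M →ₗ[C] C) (e : M) (x : Q → ℕ → C) (a a' : ℕ → C) (phi psi : Q → ℕ → C),
    (∀ q x y, A q (x + y) = A q x + A q y) →
    (∀ q (f : C) x, A q (f • x) = f • A q x + D q f x) →
    (∀ q x y, B q (x + y) = B q x + B q y) →
    (∀ q (f : C) x, B q (f • x) = f • B q x + DB q f x) →
    (∀ q n, D q (a n) = 0) → (∀ q n, DB q (a n) = 0) → (∀ n, n ≠ 0 → a' n * a n = 1) →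
    (∀ i j, a (i + j) = a i + a j) → (∀ q, phi q 0 = 1) →
    (∀ q n, n ≠ 0 →
      a n * phi q n = ∑ k ∈ Finset.Icc 1 n, x q k * cl ((A q)^[k] (phi q (n - k) • e))) →
    (∀ q, psi q 0 = 0) →
    (∀ q n, ∑ p ∈ Finset.HasAntidiagonal.antidiagonal n, psi q p.1 * phi q p.2 =
      a n * phi q n) →
    ∀ (PC : AddSubmonoid (Q → C)) (PM : AddSubmonoid (Q → M)), (fun _ => e) ∈ PM →
    (∀ F ∈ PM, (fun q => A q (F q)) ∈ PM) → (∀ F ∈ PM, (fun q => B q (F q)) ∈ PM) →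
    (∀ F ∈ PM, ∀ k, (fun q => x q k * cl (F q)) ∈ PC) →
    (∀ F ∈ PM, ∀ k, (fun q => x q k • F q) ∈ PM) →
    (∀ n, n ≠ 0 → ∀ f ∈ PC, ∀ F ∈ PM, (fun q => a' n • D q (f q) (F q)) ∈ PM) →
    (∀ n, n ≠ 0 → ∀ f ∈ PC, ∀ F ∈ PM, (fun q => a' n • DB q (f q) (F q)) ∈ PM) →
    ∃ S V : Q → ℕ → M,
      (∀ q n, Alg.conv (phi q) (S q) n =
        ∑ k ∈ Finset.Icc 1 n, x q k • (A q)^[k - 1] (phi q (n - k) • e)) ∧
      (∀ q n, Alg.conv (phi q) (V q) n =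
        B q (∑ k ∈ Finset.Icc 1 n, x q k • (A q)^[k - 1] (phi q (n - k) • e))) ∧
      (∀ n, (fun q => S q n) ∈ PM) ∧ (∀ n, (fun q => V q n) ∈ PM)

/-- (Pos) The conjugated series with a root are positive.  Variables: `x k = a (inl k)`,
`u, w, s = a (inr 0), a (inr 1), a (inr 2)`. -/
def PosSt (K : Type) [Field K] : Prop :=
  ∀ (al : K), al ≠ 0 → ∀ P : Subsemiring K, al - 1 ∈ P → (∀ n : ℕ, (n : K)⁻¹ ∈ P) →
    ∃ S V : (ℕ ⊕ Fin 3 → K) → ℕ → RW K Bool,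
      (∀ a n, Alg.conv (pv al (a (Sum.inr 0)) (a (Sum.inr 1)) (a (Sum.inr 2))
        (fun k => a (Sum.inl k))) (S a) n =
        rv al (a (Sum.inr 0)) (a (Sum.inr 1)) (a (Sum.inr 2)) (fun k => a (Sum.inl k)) n) ∧
      (∀ a n, Alg.conv (pv al (a (Sum.inr 0)) (a (Sum.inr 1)) (a (Sum.inr 2))
        (fun k => a (Sum.inl k))) (V a) n = Th al true
        (rv al (a (Sum.inr 0)) (a (Sum.inr 1)) (a (Sum.inr 2)) (fun k => a (Sum.inl k)) n)) ∧
      (∀ (n : ℕ) (e : ℕ →₀ ℕ), (fun a => coeff e (cg K (S a n))) ∈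
        PP K (ℕ ⊕ Fin 3) P.toAddSubmonoid) ∧
      (∀ (n : ℕ) (e : ℕ →₀ ℕ), (fun a => coeff e (cg K (V a n))) ∈
        PP K (ℕ ⊕ Fin 3) P.toAddSubmonoid)

/-- (Fre) Without new parts of the colour `true` there are no letters `true`. -/
structure FreSt (K : Type) [Field K] : Prop where
  hp : ∀ (al u s s' : K) (x : ℕ → K) (n : ℕ), pv al u 0 s x n = pv al u 0 s' x n
  hr : ∀ (al u s s' : K) (x : ℕ → K) (n : ℕ), rv al u 0 s x n = rv al u 0 s' x n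
  ht : ∀ (al u s : K) (x : ℕ → K) (n : ℕ), Th al true (rv al u 0 s x n) = 0

/-- (Psi) The derivative in the third alphabet, the specialisation and the logarithm. -/
structure PsiSt (K : Type) [Field K] : Prop where
  spe : ∀ (δ x q : ℕ → K) (n : ℕ), ∀ f ∈ H3 K n, ∀ m : n.Partition,
    coeff (expo m) (sp x q (Dd δ f)) = ∑ t : n.Partition, ∑ v : n.Partition,
      coeff (expo3 t m v) f * ((t.parts.map x).prod * dm δ q v.parts)
  sp0 : ∀ (δ x q : ℕ → K) (n : ℕ), ∀ f ∈ H3 K n, sp x q (Dd δ f) ∈ GradeM.S K n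
  log : ∀ (al : K) (F : PowerSeries (B3 K)), PowerSeries.constantCoeff F = 1 →
    ∀ (δ x q : ℕ → K) (E : ℕ → Lam K),
    (∀ n, ∑ p ∈ Finset.HasAntidiagonal.antidiagonal n,
      sp x q (PowerSeries.coeff p.1 F) * E p.2 = sp x q (Dd δ (PowerSeries.coeff n F))) →
    ∀ n : ℕ, sp x q (Dd δ (PowerSeries.coeff n (lg al F))) = (al * (n : K)) • E n

/-- (Ext) Extraction of the coefficients `u ^ l v ^ i s ^ j`, `j ≤ 2`, for `w = s v`. -/
def ExtVSt (K : Type) [Field K] : Prop :=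
  ∀ (P : Subsemiring K) (al : K), al ≠ 0 → al ≠ -1 → ∀ (n : ℕ)
    (a : n.Partition → n.Partition → K) (g : n.Partition → MvPolynomial (Fin 3) K)
    (F : (ℕ ⊕ Fin 3 → K) → K), F ∈ PP K (ℕ ⊕ Fin 3) P.toAddSubmonoid →
    (∀ y : ℕ ⊕ Fin 3 → K, y (Sum.inr 1) = y (Sum.inr 2) * 1 → y (Sum.inr 2) ≠ 1 → F y =
      ∑ r : n.Partition, ∑ r' : n.Partition, a r r' *
        ((r.parts.map fun k => y (Sum.inl k)).prod *
          eval ![y (Sum.inr 0), 1, y (Sum.inr 2)] (g r'))) →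
    (∀ y : ℕ ⊕ Fin 3 → K, y (Sum.inr 1) = y (Sum.inr 2) * (-al) → y (Sum.inr 2) ≠ 1 → F y =
      ∑ r : n.Partition, ∑ r' : n.Partition, a r r' *
        ((r.parts.map fun k => y (Sum.inl k)).prod *
          eval ![y (Sum.inr 0), -al, y (Sum.inr 2)] (g r'))) →
    (∀ y y' : ℕ ⊕ Fin 3 → K, (∀ k, y (Sum.inl k) = y' (Sum.inl k)) →
      y (Sum.inr 0) = y' (Sum.inr 0) → y (Sum.inr 1) = 0 → y' (Sum.inr 1) = 0 → F y = F y') →
    (∀ r' l i j, j ≤ 2 → ¬ Pr i j → coeff (e3 l i j) (g r') = 0) →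
    ∀ (t : n.Partition) (l i j : ℕ), Pr i j →
      ∑ r' : n.Partition, a t r' * coeff (e3 l i j) (g r') ∈ P

/-- (Cmb) The coefficients of the explicit polynomials. -/
structure CmbSt (K : Type) [Field K] : Prop where
  ev1 : ∀ (u v s : K) (σ : Multiset ℕ), eval ![u, v, s] (dp (D1 K) σ) =
    dm (d1 K) (fun k => u + v * s ^ k) σ
  ev2 : ∀ (u v s : K) (σ : Multiset ℕ), eval ![u, v, s] (dp (D2 K) σ) =
    dm (d2 v s) (fun k => u + v * s ^ k) σ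
  z1 : ∀ (σ : Multiset ℕ), 0 ∉ σ → ∀ l i j, j ≤ 2 → ¬ Pr i j →
    coeff (e3 l i j) (dp (D1 K) σ) = 0
  z2 : ∀ (σ : Multiset ℕ), 0 ∉ σ → ∀ l i j, j ≤ 2 → ¬ Pr i j →
    coeff (e3 l i j) (dp (D2 K) σ) = 0
  c1 : ∀ (σ : Multiset ℕ), 0 ∉ σ → ∀ l, coeff (e3 l 0 0) (dp (D1 K) σ) =
    if σ.card = l + 1 then (σ.count 1 : K) else 0
  c11 : ∀ (σ : Multiset ℕ), 0 ∉ σ → ∀ l, coeff (e3 l 1 1) (dp (D1 K) σ) =
    if σ.card = l + 2 then 2 * ((σ.count 1).choose 2 : K) else 0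
  c12 : ∀ (σ : Multiset ℕ), 0 ∉ σ → ∀ l, coeff (e3 l 1 2) (dp (D1 K) σ) =
    if σ.card = l + 2 then (σ.count 1 : K) * (σ.count 2 : K) else 0
  c111 : ∀ (σ : Multiset ℕ), 0 ∉ σ → ∀ l, coeff (e3 l 2 2) (dp (D1 K) σ) =
    if σ.card = l + 3 then 3 * ((σ.count 1).choose 3 : K) else 0
  c2 : ∀ (σ : Multiset ℕ), 0 ∉ σ → ∀ l, coeff (e3 l 1 1) (dp (D2 K) σ) =
    if σ.card = l + 1 then 2 * (σ.count 2 : K) else 0
  c3 : ∀ (σ : Multiset ℕ), 0 ∉ σ → ∀ l, coeff (e3 l 1 2) (dp (D2 K) σ) =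
    if σ.card = l + 1 then 3 * (σ.count 3 : K) else 0

end Vm

end

end Pool.Agent.MJL
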